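import Pool.Agent.Helper2_Poly.Basic

/-!
# Areas of sectors
-/

open Complex ComplexConjugate Set Filter Topology MeasureTheory
open Pool.Agent.Helper2Drum Pool.Agent.Helper2Transp

namespace Pool.Agent.Helper2Poly

/-- Isometries of the plane preserve area. -/
lemma iso_mp (φ : ℂ ≃ᵢ ℂ) : MeasurePreserving φ volume volume := by
  have h1 : (φ : ℂ → ℂ) = (fun z => z + φ 0) ∘ (φ.toRealLinearIsometryEquiv) := by
    funext z
    simp [IsometryEquiv.toRealLinearIsometryEquiv_apply]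
  rw [h1]
  exact (measurePreserving_add_right volume (φ 0)).comp
    (LinearIsometryEquiv.measurePreserving _)

lemma iso_vol (φ : ℂ ≃ᵢ ℂ) (S : Set ℂ) : volume (φ ⁻¹' S) = volume S :=
  (iso_mp φ).measure_preimage_emb φ.toHomeomorph.measurableEmbedding S

/-- Sector at the origin with a set of directions. -/
def secJ (J : Set ℝ) (ρ : ℝ) : Set ℂ := {z | z ≠ 0 ∧ ‖z‖ < ρ ∧ arg z ∈ J}

lemma arg_polar {s θ : ℝ} (hs : 0 < s) (h1 : -Real.pi < θ) (h2 : θ ≤ Real.pi) :
    arg ((s : ℂ) * cexp (θ * I)) = θ := by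
  rw [Complex.arg_real_mul _ hs, Complex.arg_exp_mul_I]
  exact (toIocMod_eq_self _).2 ⟨h1, by
    have : (-Real.pi) + 2 * Real.pi = Real.pi := by ring
    rw [this]; exact h2⟩

lemma norm_polar {s θ : ℝ} (hs : 0 ≤ s) : ‖(s : ℂ) * cexp (θ * I)‖ = s := by
  rw [norm_mul, Complex.norm_exp_ofReal_mul_I, Complex.norm_real, mul_one,
    Real.norm_of_nonneg hs]

lemma vol_secJ {J : Set ℝ} (hJ : J ⊆ Ioo (-Real.pi) Real.pi) (hJm : MeasurableSet J) {ρ : ℝ}
    (hρ : 0 ≤ ρ) : volume (secJ J ρ) = ENNReal.ofReal (ρ ^ 2 / 2) * volume J := by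
  have harg : Measurable (arg : ℂ → ℝ) := Complex.measurable_arg
  have hm : MeasurableSet (secJ J ρ) := by
    have : secJ J ρ = {z : ℂ | z ≠ 0} ∩ {z : ℂ | ‖z‖ < ρ} ∩ (arg ⁻¹' J) := by
      ext z
      simp only [secJ, mem_inter_iff, mem_preimage, mem_ofPred_eq]
      tauto
    rw [this]
    exact ((isOpen_ne.measurableSet).inter
      (isOpen_lt continuous_norm continuous_const).measurableSet).inter (harg hJm)
  rw [← lintegral_indicator_one hm, ← Complex.lintegral_comp_polarCoord_symm]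
  have hT : _root_.polarCoord.target = Ioi (0 : ℝ) ×ˢ Ioo (-Real.pi) Real.pi := rfl
  have hTm : MeasurableSet (Ioi (0 : ℝ) ×ˢ Ioo (-Real.pi) Real.pi) :=
    measurableSet_Ioi.prod measurableSet_Ioo
  rw [hT, ← lintegral_indicator hTm]
  have hR : MeasurableSet (Ioo (0 : ℝ) ρ ×ˢ J) := measurableSet_Ioo.prod hJm
  have key : ∀ p : ℝ × ℝ, (Ioi (0 : ℝ) ×ˢ Ioo (-Real.pi) Real.pi).indicator
      (fun p => ENNReal.ofReal p.1 • (secJ J ρ).indicator 1 (Complex.polarCoord.symm p)) p =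
      (Ioo (0 : ℝ) ρ ×ˢ J).indicator (fun p => ENNReal.ofReal p.1) p := by
    rintro ⟨s, θ⟩
    by_cases h1 : (s, θ) ∈ Ioi (0 : ℝ) ×ˢ Ioo (-Real.pi) Real.pi
    · rw [indicator_of_mem h1]
      obtain ⟨hs, hθ1, hθ2⟩ := h1
      have hs' : 0 < s := hs
      have hsy : Complex.polarCoord.symm (s, θ) = (s : ℂ) * cexp (θ * I) := by
        rw [Complex.polarCoord_symm_apply]
        simp [Complex.exp_mul_I]
      have hn : ‖(s : ℂ) * cexp (θ * I)‖ = s := norm_polar hs'.le
      have harg' : arg ((s : ℂ) * cexp (θ * I)) = θ := arg_polar hs' hθ1 (le_of_lt hθ2)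
      have hne : (s : ℂ) * cexp (θ * I) ≠ 0 := by
        rw [← norm_pos_iff, hn]; exact hs'
      have hiff : (Complex.polarCoord.symm (s, θ) ∈ secJ J ρ) ↔
          ((s, θ) ∈ Ioo (0 : ℝ) ρ ×ˢ J) := by
        rw [hsy]
        simp only [secJ, mem_ofPred_eq, hn, harg', mem_prod, mem_Ioo]
        constructor
        · rintro ⟨-, h2, h3⟩; exact ⟨⟨hs', h2⟩, h3⟩
        · rintro ⟨⟨-, h2⟩, h3⟩; exact ⟨hne, h2, h3⟩
      by_cases h2 : (s, θ) ∈ Ioo (0 : ℝ) ρ ×ˢ J
      · rw [indicator_of_mem h2, indicator_of_mem (hiff.2 h2)]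
        simp
      · rw [indicator_of_notMem h2, indicator_of_notMem (fun h => h2 (hiff.1 h))]
        simp
    · rw [indicator_of_notMem h1, indicator_of_notMem]
      rintro ⟨⟨h2, -⟩, h3⟩
      exact h1 ⟨h2, hJ h3⟩
  simp_rw [key]
  rw [lintegral_indicator hR, Measure.volume_eq_prod, ← Measure.prod_restrict]
  have h3 := lintegral_prod_mul (μ := volume.restrict (Ioo (0 : ℝ) ρ))
    (ν := volume.restrict J) (f := fun s => ENNReal.ofReal s) (g := fun _ => 1)
    (ENNReal.measurable_ofReal.aemeasurable) aemeasurable_const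
  simp only [mul_one] at h3
  rw [h3]
  have h4 : ∫⁻ s in Ioo (0 : ℝ) ρ, ENNReal.ofReal s = ENNReal.ofReal (ρ ^ 2 / 2) := by
    have hint : IntegrableOn (fun s : ℝ => s) (Ioo 0 ρ) volume :=
      (continuous_id.integrableOn_Icc (a := 0) (b := ρ)).mono_set Ioo_subset_Icc_self
    rw [← ofReal_integral_eq_lintegral_ofReal hint]
    · congr 1
      rw [← integral_Ioc_eq_integral_Ioo, ← intervalIntegral.integral_of_le hρ, integral_id]
      ring
    · filter_upwards [self_mem_ae_restrict measurableSet_Ioo] with s hs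
      exact hs.1.le
  rw [h4]
  simp only [lintegral_const, MeasurableSet.univ, Measure.restrict_apply, univ_inter, one_mul]

end Pool.Agent.Helper2Poly
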