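import Pool.Agent.Helper2_Transp.Weak

/-!
# Convex polygons as intersections of half-planes
-/

open Complex ComplexConjugate Set Filter Topology MeasureTheory
open Pool.Agent.Helper2Drum Pool.Agent.Helper2Transp

namespace Pool.Agent.Helper2Poly

/-- A convex polygon: a bounded nonempty intersection of finitely many open half-planes. -/
structure CP (Ω : Set ℂ) : Prop where
  bdd : Bornology.IsBounded Ω
  ne : Ω.Nonempty
  half : ∃ L : Finset (ℂ × ℂ), (∀ l ∈ L, ‖l.2‖ = 1) ∧ Ω = {z | ∀ l ∈ L, 0 < nc l.1 l.2 1 z}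

/-- Near `p` the set is the half-plane to the `e`-side of the line through `p` with direction
`u`. -/
def FlatAt (Ω : Set ℂ) (p u : ℂ) (e : ℝ) : Prop := ∀ᶠ x in 𝓝 p, (x ∈ Ω ↔ 0 < nc p u e x)

lemma nc_self (p u : ℂ) (e : ℝ) : nc p u e p = 0 := by unfold nc; simp

lemma ne_zero_of_norm {u : ℂ} (hu : ‖u‖ = 1) : u ≠ 0 := by rintro rfl; simp at hu

lemma nc_shift {u : ℂ} (hu : ‖u‖ = 1) (p : ℂ) (s e : ℝ) (x : ℂ) :
    nc (p + (s : ℂ) * u) u e x = nc p u e x := by
  have hu0 := ne_zero_of_norm hu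
  unfold nc
  have : (x - (p + (s : ℂ) * u)) / u = (x - p) / u - (s : ℂ) := by field_simp; ring
  rw [this, Complex.sub_im, Complex.ofReal_im, sub_zero]

/-- Normal coordinates with respect to points of the line agree. -/
lemma nc_congr (p u : ℂ) (e : ℝ) {q : ℂ} (h : nc p u e q = 0) (he : e = 1 ∨ e = -1) (x : ℂ) :
    nc q u e x = nc p u e x := by
  have h0 : ((q - p) / u).im = 0 := by
    unfold nc at h
    rcases he with rfl | rfl <;> simpa using h
  unfold nc
  have : (x - q) / u = (x - p) / u - (q - p) / u := by rw [← sub_div]; congr 1; ring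
  rw [this, Complex.sub_im, h0, sub_zero]

lemma nc_eq_zero_iff {p u : ℂ} (hu : ‖u‖ = 1) {e : ℝ} (he : e = 1 ∨ e = -1) {q : ℂ} :
    nc p u e q = 0 ↔ ∃ s : ℝ, q = p + (s : ℂ) * u := by
  have hu0 := ne_zero_of_norm hu
  constructor
  · intro h
    have h0 : ((q - p) / u).im = 0 := by
      unfold nc at h
      rcases he with rfl | rfl <;> simpa using h
    refine ⟨((q - p) / u).re, ?_⟩
    have : (((q - p) / u).re : ℂ) = (q - p) / u := by
      apply Complex.ext <;> simp [h0]
    rw [this]; field_simp; ring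
  · rintro ⟨s, rfl⟩
    rw [← nc_shift hu p s, nc_self]

lemma CP.isOpen {Ω : Set ℂ} (h : CP Ω) : IsOpen Ω := by
  obtain ⟨L, -, rfl⟩ := h.half
  have : {z | ∀ l ∈ L, 0 < nc l.1 l.2 1 z} = ⋂ l ∈ L, {z | 0 < nc l.1 l.2 1 z} := by
    ext z; simp
  rw [this]
  exact isOpen_biInter_finset fun l _ => isOpen_lt continuous_const (continuous_nc _ _ _)

lemma CP.convex {Ω : Set ℂ} (h : CP Ω) : Convex ℝ Ω := by
  obtain ⟨L, -, rfl⟩ := h.half
  have : {z | ∀ l ∈ L, 0 < nc l.1 l.2 1 z} = ⋂ l ∈ L, {z | 0 < nc l.1 l.2 1 z} := by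
    ext z; simp
  rw [this]
  exact convex_iInter₂ fun l _ => convex_nc_pos _ _ _

lemma CP.notMem_of_frontier {Ω : Set ℂ} (h : CP Ω) {q : ℂ} (hq : q ∈ frontier Ω) : q ∉ Ω := by
  rw [h.isOpen.frontier_eq] at hq; exact hq.2

lemma CP.closure_of_frontier {Ω : Set ℂ} (_h : CP Ω) {q : ℂ} (hq : q ∈ frontier Ω) :
    q ∈ closure Ω := frontier_subset_closure hq

/-- Local description at a boundary point by the active lines. -/
lemma CP.local {Ω : Set ℂ} (h : CP Ω) {q : ℂ} (hq : q ∈ frontier Ω) :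
    ∃ U : Finset ℂ, U.Nonempty ∧ (∀ u ∈ U, ‖u‖ = 1) ∧ (∀ z ∈ Ω, ∀ u ∈ U, 0 < nc q u 1 z) ∧
      ∀ᶠ x in 𝓝 q, (x ∈ Ω ↔ ∀ u ∈ U, 0 < nc q u 1 x) := by
  classical
  obtain ⟨L, hL, hΩ⟩ := h.half
  set A := L.filter (fun l => nc l.1 l.2 1 q = 0) with hA
  refine ⟨A.image Prod.snd, ?_, ?_, ?_, ?_⟩
  · rw [Finset.image_nonempty]
    by_contra hne
    rw [Finset.not_nonempty_iff_eq_empty] at hne
    apply h.notMem_of_frontier hq
    rw [hΩ]
    intro l hl
    have h1 : 0 ≤ nc l.1 l.2 1 q := by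
      have : closure Ω ⊆ {z | 0 ≤ nc l.1 l.2 1 z} := by
        refine closure_minimal ?_ (isClosed_le continuous_const (continuous_nc _ _ _))
        rw [hΩ]
        exact fun z hz => (hz l hl).le
      exact this (h.closure_of_frontier hq)
    refine lt_of_le_of_ne h1 fun h2 => ?_
    have : l ∈ A := by rw [hA, Finset.mem_filter]; exact ⟨hl, h2.symm⟩
    rw [hne] at this
    simp at this
  · intro u hu
    obtain ⟨l, hl, rfl⟩ := Finset.mem_image.1 hu
    exact hL l (Finset.mem_filter.1 hl).1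
  · intro z hz u hu
    obtain ⟨l, hl, rfl⟩ := Finset.mem_image.1 hu
    obtain ⟨h1, h2⟩ := Finset.mem_filter.1 hl
    rw [nc_congr l.1 l.2 1 h2 (Or.inl rfl)]
    rw [hΩ] at hz
    exact hz l h1
  · have key : ∀ᶠ x in 𝓝 q, ∀ l ∈ L, nc l.1 l.2 1 q ≠ 0 → 0 < nc l.1 l.2 1 x := by
      rw [Filter.eventually_all_finset]
      intro l hl
      by_cases h0 : nc l.1 l.2 1 q = 0
      · exact Eventually.of_forall fun x h => absurd h0 h
      · have h1 : 0 ≤ nc l.1 l.2 1 q := by
          have : closure Ω ⊆ {z | 0 ≤ nc l.1 l.2 1 z} := by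
            refine closure_minimal ?_ (isClosed_le continuous_const (continuous_nc _ _ _))
            rw [hΩ]
            exact fun z hz => (hz l hl).le
          exact this (h.closure_of_frontier hq)
        have h2 : 0 < nc l.1 l.2 1 q := lt_of_le_of_ne h1 (Ne.symm h0)
        filter_upwards [(continuous_nc l.1 l.2 1).continuousAt.eventually (lt_mem_nhds h2)]
          with x hx _
        exact hx
    filter_upwards [key] with x hx
    constructor
    · intro hxΩ u hu
      obtain ⟨l, hl, rfl⟩ := Finset.mem_image.1 hu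
      obtain ⟨h1, h2⟩ := Finset.mem_filter.1 hl
      rw [nc_congr l.1 l.2 1 h2 (Or.inl rfl)]
      rw [hΩ] at hxΩ
      exact hxΩ l h1
    · intro hxu
      rw [hΩ]
      intro l hl
      by_cases h0 : nc l.1 l.2 1 q = 0
      · have h1 := hxu l.2 (Finset.mem_image.2 ⟨l, by rw [hA, Finset.mem_filter]; exact ⟨hl, h0⟩,
          rfl⟩)
        rwa [nc_congr l.1 l.2 1 h0 (Or.inl rfl)] at h1
      · exact hx l hl h0

/-- Two unit directions of half-planes with a common point whose lines coincide agree. -/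
lemma dir_unique {q u v z y : ℂ} (hu : ‖u‖ = 1) (hv : ‖v‖ = 1) (hy : y ≠ q)
    (h1 : nc q u 1 y = 0) (h2 : nc q v 1 y = 0) (h3 : 0 < nc q u 1 z) (h4 : 0 < nc q v 1 z) :
    u = v := by
  obtain ⟨s, hs⟩ := (nc_eq_zero_iff hu (Or.inl rfl)).1 h1
  obtain ⟨t, ht⟩ := (nc_eq_zero_iff hv (Or.inl rfl)).1 h2
  have hs0 : s ≠ 0 := by rintro rfl; apply hy; rw [hs]; simp
  have ht0 : t ≠ 0 := by rintro rfl; apply hy; rw [ht]; simp
  have hsC : (s : ℂ) ≠ 0 := by exact_mod_cast hs0
  have htC : (t : ℂ) ≠ 0 := by exact_mod_cast ht0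
  have h5 : (s : ℂ) * u = t * v := by
    have := hs.symm.trans ht
    exact add_left_cancel this
  have h6 : |s| = |t| := by
    have := congrArg norm h5
    rw [norm_mul, norm_mul, hu, hv, mul_one, mul_one, Complex.norm_real, Complex.norm_real,
      Real.norm_eq_abs, Real.norm_eq_abs] at this
    exact this
  rcases abs_eq_abs.1 h6 with h7 | h7
  · rw [h7] at h5
    exact mul_left_cancel₀ htC h5
  · exfalso
    have h8 : u = -v := by
      rw [h7] at h5
      push_cast at h5
      have : (t : ℂ) * u = t * (-v) := by linear_combination -h5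
      exact mul_left_cancel₀ htC this
    rw [h8] at h3
    have : nc q (-v) 1 z = - nc q v 1 z := by
      unfold nc
      rw [div_neg, Complex.neg_im]; ring
    rw [this] at h3
    linarith

/-- Near a boundary point `q` every other boundary point is flat, with its line through `q`. -/
lemma CP.flat_near {Ω : Set ℂ} (h : CP Ω) {q : ℂ} (hq : q ∈ frontier Ω) :
    ∀ᶠ y in 𝓝 q, y ≠ q → y ∈ frontier Ω →
      ∃ u, ‖u‖ = 1 ∧ nc y u 1 q = 0 ∧ FlatAt Ω y u 1 := by
  obtain ⟨U, hUne, hU1, hUΩ, hloc⟩ := h.local hq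
  obtain ⟨z₀, hz₀⟩ := h.ne
  filter_upwards [hloc.eventually_nhds] with y hy hyq hyf
  -- some active line passes through y
  have hcl : ∀ u ∈ U, 0 ≤ nc q u 1 y := by
    intro u hu
    have : closure Ω ⊆ {z | 0 ≤ nc q u 1 z} :=
      closure_minimal (fun z hz => (hUΩ z hz u hu).le)
        (isClosed_le continuous_const (continuous_nc _ _ _))
    exact this (h.closure_of_frontier hyf)
  have hex : ∃ u ∈ U, nc q u 1 y = 0 := by
    by_contra hcon
    push Not at hcon
    apply h.notMem_of_frontier hyf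
    rw [hy.self_of_nhds]
    intro u hu
    exact lt_of_le_of_ne (hcl u hu) (Ne.symm (hcon u hu))
  obtain ⟨u, hu, hu0⟩ := hex
  have hshift : ∀ x, nc y u 1 x = nc q u 1 x := fun x => nc_congr q u 1 hu0 (Or.inl rfl) x
  refine ⟨u, hU1 u hu, by rw [hshift, nc_self], ?_⟩
  have key : ∀ᶠ x in 𝓝 y, ∀ v ∈ U, v ≠ u → 0 < nc q v 1 x := by
    rw [Filter.eventually_all_finset]
    intro v hv
    by_cases hvu : v = u
    · exact Eventually.of_forall fun x h => absurd hvu h
    have h1 : nc q v 1 y ≠ 0 := by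
      intro h0
      exact hvu (dir_unique (hU1 v hv) (hU1 u hu) hyq h0 hu0 (hUΩ z₀ hz₀ v hv) (hUΩ z₀ hz₀ u hu))
    have h2 : 0 < nc q v 1 y := lt_of_le_of_ne (hcl v hv) (Ne.symm h1)
    filter_upwards [(continuous_nc q v 1).continuousAt.eventually (lt_mem_nhds h2)] with x hx _
    exact hx
  filter_upwards [key, hy] with x hx hxy
  rw [hxy, hshift]
  constructor
  · exact fun h => h u hu
  · intro h' v hv
    by_cases hvu : v = u
    · rw [hvu]; exact h'
    · exact hx v hv hvu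

/-- Corners: boundary points which are not flat. -/
def Corner (Ω : Set ℂ) (q : ℂ) : Prop := q ∈ frontier Ω ∧ ¬ ∃ u, ‖u‖ = 1 ∧ FlatAt Ω q u 1

lemma CP.finite_corners {Ω : Set ℂ} (h : CP Ω) : {q | Corner Ω q}.Finite := by
  classical
  -- corners are isolated in the compact boundary
  have hK : IsCompact (frontier Ω) :=
    Metric.isCompact_of_isClosed_isBounded isClosed_frontier
      (h.bdd.closure.subset frontier_subset_closure)
  by_contra hinf
  have hinf' : {q | Corner Ω q}.Infinite := hinf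
  obtain ⟨q, hq, hacc⟩ := hinf'.exists_accPt_of_subset_isCompact hK (fun q hq => hq.1)
  rw [accPt_iff_frequently] at hacc
  obtain ⟨y, ⟨hyq, hyc⟩, hy⟩ := (hacc.and_eventually (h.flat_near hq)).exists
  obtain ⟨u, hu, -, hfl⟩ := hy hyq hyc.1
  exact hyc.2 ⟨u, hu, hfl⟩

end Pool.Agent.Helper2Poly
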