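import Pool.Agent.Helper2_Poly.GB

/-!
# The extremal placement has no cuts
-/

open Complex ComplexConjugate Set Filter Topology MeasureTheory
open Pool.Agent.Helper2Drum Pool.Agent.Helper2Transp

namespace Pool.Agent.Helper2Poly

lemma tendsto_seg (q z : ℂ) : Tendsto (fun t : ℝ => q + (t : ℂ) * (z - q)) (𝓝[>] 0) (𝓝 q) := by
  have hc : Continuous fun t : ℝ => q + (t : ℂ) * (z - q) := by fun_prop
  have := hc.tendsto 0
  simp only [Complex.ofReal_zero, zero_mul, add_zero] at this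
  exact this.mono_left nhdsWithin_le_nhds

lemma seg_in {D : Set ℂ} (ho : IsOpen D) (hc : Convex ℝ D) {q z : ℂ} (hq : q ∈ closure D)
    (hz : z ∈ D) {t : ℝ} (h0 : 0 < t) (h1 : t ≤ 1) : q + (t : ℂ) * (z - q) ∈ D := by
  have h2 := hc.openSegment_closure_interior_subset_interior hq
    (by rw [ho.interior_eq]; exact hz : z ∈ interior D)
  rw [ho.interior_eq] at h2
  rcases h1.eq_or_lt with rfl | h1
  · simpa using hz
  · apply h2
    refine ⟨1 - t, t, by linarith, h0, by ring, ?_⟩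
    simp only [Complex.real_smul]
    push_cast
    ring

/-- The line of a flat point supports the set. -/
lemma CP.supp {X : Set ℂ} (h : CP X) {p d : ℂ} {e : ℝ} (hd : ‖d‖ = 1) (he : e = 1 ∨ e = -1)
    (hfl : FlatAt X p d e) {y : ℂ} (hy : y ∈ X) : 0 < nc p d e y := by
  have hp : p ∈ closure X := frontier_subset_closure (hfl.frontier h.isOpen hd he)
  have h2 : ∀ᶠ t : ℝ in 𝓝[>] (0 : ℝ), t ∈ Ioo (0 : ℝ) 1 := Ioo_mem_nhdsGT one_pos
  obtain ⟨t, h3, h4⟩ := (((tendsto_seg p y).eventually hfl).and h2).exists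
  have h5 := h3.1 (seg_in h.isOpen h.convex hp hy h4.1 h4.2.le)
  rw [nc_add, nc_self, zero_add, nc_zero_smul] at h5
  have h6 : nc 0 d e (y - p) = nc p d e y := by unfold nc; rw [sub_zero]
  rw [h6] at h5
  exact (mul_pos_iff_of_pos_left h4.1).1 h5

lemma CP.supp_closure {X : Set ℂ} (h : CP X) {p d : ℂ} {e : ℝ} (hd : ‖d‖ = 1)
    (he : e = 1 ∨ e = -1) (hfl : FlatAt X p d e) {y : ℂ} (hy : y ∈ closure X) :
    0 ≤ nc p d e y := by
  have : closure X ⊆ {z | 0 ≤ nc p d e z} :=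
    closure_minimal (fun z hz => (h.supp hd he hfl hz).le)
      (isClosed_le continuous_const (continuous_nc _ _ _))
  exact this hy

/-- Boundary points near a flat point lie on its line. -/
lemma flat_frontier {X : Set ℂ} (hX : IsOpen X) {p d : ℂ} {e : ℝ} (hfl : FlatAt X p d e) :
    ∀ᶠ y in 𝓝 p, y ∈ frontier X → nc p d e y = 0 := by
  filter_upwards [hfl.eventually_nhds] with y hy hyf
  rw [hX.frontier_eq] at hyf
  rcases lt_trichotomy (nc p d e y) 0 with h | h | h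
  · exfalso
    have h1 : ∀ᶠ z in 𝓝 y, nc p d e z < 0 :=
      (continuous_nc p d e).continuousAt.eventually (gt_mem_nhds h)
    obtain ⟨z, hz1, hz2, hz3⟩ :=
      ((mem_closure_iff_frequently.1 hyf.1).and_eventually (h1.and hy)).exists
    have := hz3.1 hz1
    linarith
  · exact h
  · exact absurd (hy.self_of_nhds.2 h) hyf.2

lemma opp_sign {X : Set ℂ} (h : CP X) {p q d : ℂ} {e e₂ : ℝ} (hd : ‖d‖ = 1)
    (he : e = 1 ∨ e = -1) (he₂ : e₂ = 1 ∨ e₂ = -1) (hpq : nc p d 1 q = 0)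
    (h1 : FlatAt X p d e) (h2 : FlatAt X q d e₂) : e₂ = e := by
  obtain ⟨y, hy⟩ := h.ne
  have h3 := h.supp hd he h1 hy
  have h4 := h.supp hd he₂ h2 hy
  have h5 : nc q d 1 y = nc p d 1 y := nc_congr p d 1 hpq (Or.inl rfl) y
  have h6 : ∀ (x : ℂ) (ε : ℝ), nc x d ε y = ε * nc x d 1 y := fun x ε => by unfold nc; ring
  rw [h6, h5] at h4
  rw [h6] at h3
  rcases he with rfl | rfl <;> rcases he₂ with rfl | rfl
  · rfl
  · linarith
  · linarith
  · rfl

/-- Description of the set at `q` in the frame of a boundary ray. -/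
structure BSec (X : Set ℂ) (q d : ℂ) (e ω r : ℝ) : Prop where
  r0 : 0 < r
  iff : ∀ s θ, 0 < s → s < r → -Real.pi < θ → θ ≤ Real.pi → (pt q d e s θ ∈ X ↔ 0 < θ ∧ θ < ω)

lemma pt_dr_zero (q d : ℂ) (e s : ℝ) : pt q d e s 0 = q + (s : ℂ) * d := by
  unfold pt; rw [dr_zero]

lemma flat_rotate {X : Set ℂ} {q d : ℂ} {e s₁ : ℝ} (hd : ‖d‖ = 1) (he : e = 1 ∨ e = -1)
    (hs₁ : 0 < s₁) (hfl : FlatAt X (q + (s₁ : ℂ) * d) d e) :
    ∀ᶠ ε : ℝ in 𝓝[>] (0 : ℝ), pt q d e s₁ ε ∈ X := by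
  have h1 : Tendsto (fun ε : ℝ => pt q d e s₁ ε) (𝓝[>] 0) (𝓝 (q + (s₁ : ℂ) * d)) := by
    have := (continuous_pt_phi q d e s₁).tendsto 0
    rw [pt_dr_zero] at this
    exact this.mono_left nhdsWithin_le_nhds
  filter_upwards [h1.eventually hfl, Ioo_mem_nhdsGT Real.pi_pos] with ε h2 h3
  rw [h2, nc_shift hd, nc_pt q hd he]
  exact mul_pos hs₁ (Real.sin_pos_of_pos_of_lt_pi h3.1 h3.2)

lemma CP.exists_bsec {X : Set ℂ} (h : CP X) {q : ℂ} (hq : q ∈ frontier X) {d : ℂ}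
    (hd : ‖d‖ = 1) {e : ℝ} (he : e = 1 ∨ e = -1) {s₁ : ℝ} (hs₁ : 0 < s₁)
    (hfl : FlatAt X (q + (s₁ : ℂ) * d) d e) : ∃ r, BSec X q d e (ang X q) r := by
  have hπ := Real.pi_pos
  have hqn := h.notMem_of_frontier hq
  have hrot := flat_rotate hd he hs₁ hfl
  obtain ⟨ε, h1, h2⟩ := (hrot.and (Ioo_mem_nhdsGT hπ)).exists
  have hε0 : 0 < ε := h2.1
  have hεπ : ε < Real.pi := h2.2
  have h3 : pt q (dr d e ε) e s₁ 0 ∈ X := by rw [pt_rot, add_zero]; exact h1
  obtain ⟨a, b, r, hs⟩ := h.exists_sec hq (norm_dr hd e ε) he hs₁ h3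
  have hptd : ∀ s θ, pt q d e s θ = pt q (dr d e ε) e s (θ - ε) := fun s θ => by
    rw [pt_rot]; congr 1; ring
  -- the lower end
  have ha1 : -ε ≤ a := by
    by_contra hcon
    push Not at hcon
    have h4 : pt q (dr d e ε) e (r / 2) (-ε) ∈ X :=
      (hs.iff _ _ (by linarith [hs.r0]) (by linarith [hs.r0]) (by linarith) (by linarith)).2
        ⟨hcon, by linarith [hs.b0]⟩
    have h5 : pt q (dr d e ε) e (r / 2) (-ε) = q + ((r / 2 : ℝ) : ℂ) * d := by
      rw [← pt_dr_zero q d e, hptd]; congr 1; ring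
    rw [h5] at h4
    have h6 := h.supp hd he hfl h4
    rw [nc_shift hd, ← pt_dr_zero q d e, nc_pt q hd he, Real.sin_zero, mul_zero] at h6
    exact lt_irrefl _ h6
  have ha2 : a ≤ -ε := by
    by_contra hcon
    push Not at hcon
    have h4 : ∀ᶠ ε' : ℝ in 𝓝[>] (0 : ℝ), ε' ∈ Ioo 0 (min ε (a + ε)) :=
      Ioo_mem_nhdsGT (lt_min hε0 (by linarith))
    obtain ⟨ε', h5, h6⟩ := (hrot.and h4).exists
    rw [hptd] at h5
    have h7 := min_le_left ε (a + ε)
    have h8 := min_le_right ε (a + ε)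
    have h9 := (hs.dir h (h.closure_of_frontier hq) hs₁ (by linarith [h6.1]) (by linarith [h6.2])
      h5).1
    linarith [h6.2]
  have ha : a = -ε := le_antisymm ha2 ha1
  have hang := hs.ang hqn
  refine ⟨r, hs.r0, fun s θ hs0 hsr h4 h5 => ?_⟩
  rw [hang, ha]
  by_cases h6 : -Real.pi < θ - ε
  · rw [hptd, hs.iff s (θ - ε) hs0 hsr h6 (by linarith), ha]
    constructor
    · rintro ⟨h7, h8⟩; exact ⟨by linarith, by linarith⟩
    · rintro ⟨h7, h8⟩; exact ⟨by linarith, by linarith⟩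
  · push Not at h6
    have h7 : pt q d e s θ = pt q (dr d e ε) e s (θ - ε + 2 * Real.pi) := by
      rw [hptd, ← pt_add_two_pi q (dr d e ε) he s (θ - ε) 1]
      push_cast
      congr 1; ring
    rw [h7, hs.iff s _ hs0 hsr (by linarith) (by linarith)]
    have h8 := hs.ba
    rw [ha] at h8
    constructor
    · rintro ⟨-, h9⟩; linarith
    · rintro ⟨h9, -⟩; linarith

/-- Extremal pairs. -/
structure Ext (X Y : Set ℂ) (U : ℂ) : Prop where
  cx : CP X
  cy : CP Y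
  eq : ∀ q ∈ frontier X, q ∈ frontier Y → ang X q = ang Y q
  c1 : ∀ q ∈ Y, ¬ Corner X q
  c2 : ∀ q ∈ X, ¬ Corner Y q
  hA : ∀ p ∈ Y, ∀ d e, ‖d‖ = 1 → (e = 1 ∨ e = -1) → FlatAt X p d e → nc 0 d e U < 0
  hB : ∀ p ∈ X, ∀ d e, ‖d‖ = 1 → (e = 1 ∨ e = -1) → FlatAt Y p d e → 0 < nc 0 d e U

lemma nc_zero_neg (d : ℂ) (e : ℝ) (v : ℂ) : nc 0 d e (-v) = - nc 0 d e v := by
  unfold nc; rw [sub_zero, sub_zero, neg_div, Complex.neg_im]; ring

lemma Ext.swap {X Y : Set ℂ} {U : ℂ} (E : Ext X Y U) : Ext Y X (-U) where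
  cx := E.cy
  cy := E.cx
  eq := fun q h1 h2 => (E.eq q h2 h1).symm
  c1 := E.c2
  c2 := E.c1
  hA := fun p hp d e hd he hfl => by
    rw [nc_zero_neg]; have := E.hB p hp d e hd he hfl; linarith
  hB := fun p hp d e hd he hfl => by
    rw [nc_zero_neg]; have := E.hA p hp d e hd he hfl; linarith

variable {X Y : Set ℂ} {U : ℂ}

/-- A side of `X` inside `Y` continues until it meets the boundary of `Y`. -/
lemma Ext.seg (E : Ext X Y U) {p d : ℂ} {e : ℝ} (hd : ‖d‖ = 1) (he : e = 1 ∨ e = -1)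
    (hp : p ∈ Y) (hfl : FlatAt X p d e) : ∃ L : ℝ, 0 < L ∧
      (∀ t : ℝ, 0 ≤ t → t < L → p + (t : ℂ) * d ∈ Y ∧ FlatAt X (p + (t : ℂ) * d) d e) ∧
      p + (L : ℂ) * d ∈ frontier X ∧ p + (L : ℂ) * d ∈ frontier Y := by
  set G : Set ℝ := {t | p + (t : ℂ) * d ∈ Y ∧ FlatAt X (p + (t : ℂ) * d) d e} with hG
  have hcont : Continuous fun t : ℝ => p + (t : ℂ) * d := by fun_prop
  have hGo : IsOpen G := by
    rw [isOpen_iff_mem_nhds]
    rintro t ⟨h1, h2⟩
    have h3 : ∀ᶠ s : ℝ in 𝓝 t, p + (s : ℂ) * d ∈ Y :=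
      hcont.continuousAt.eventually (E.cy.isOpen.mem_nhds h1)
    have h4 := FlatAt.shift hd h2
    have h5 : Tendsto (fun s : ℝ => s - t) (𝓝 t) (𝓝 0) := by
      have : Continuous fun s : ℝ => s - t := by fun_prop
      have := this.tendsto t
      rwa [sub_self] at this
    filter_upwards [h3, h5.eventually h4] with s h6 h7
    refine ⟨h6, ?_⟩
    have h8 : p + (t : ℂ) * d + ((s - t : ℝ) : ℂ) * d = p + (s : ℂ) * d := by push_cast; ring
    rwa [h8] at h7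
  have hG0 : (0 : ℝ) ∈ G := by
    rw [hG]
    simp only [mem_ofPred_eq, Complex.ofReal_zero, zero_mul, add_zero]
    exact ⟨hp, hfl⟩
  set B : Set ℝ := {t | 0 ≤ t ∧ t ∉ G} with hB
  have hBne : B.Nonempty := by
    obtain ⟨R, hR⟩ := E.cy.bdd.subset_closedBall p
    have hR0 : 0 ≤ R := by
      have := hR hp
      rw [Metric.mem_closedBall, dist_self] at this
      exact this
    refine ⟨R + 1, by linarith, fun h => ?_⟩
    have := hR h.1
    rw [Metric.mem_closedBall, dist_eq_norm, add_sub_cancel_left, norm_mul, hd, mul_one,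
      Complex.norm_real, Real.norm_of_nonneg (by linarith)] at this
    linarith
  have hBc : IsClosed B := by
    have : B = Ici 0 ∩ Gᶜ := by ext t; rfl
    rw [this]
    exact isClosed_Ici.inter hGo.isClosed_compl
  have hBb : BddBelow B := ⟨0, fun t ht => ht.1⟩
  set L := sInf B with hL
  have hLB : L ∈ B := hBc.csInf_mem hBne hBb
  have hL0 : 0 < L := by
    refine lt_of_le_of_ne hLB.1 fun h => ?_
    exact hLB.2 (h ▸ hG0)
  have hgood : ∀ t, 0 ≤ t → t < L → t ∈ G := by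
    intro t h1 h2
    by_contra hcon
    exact absurd (csInf_le hBb ⟨h1, hcon⟩) (not_le.2 h2)
  set q := p + (L : ℂ) * d with hq
  have htl : Tendsto (fun t : ℝ => p + (t : ℂ) * d) (𝓝[<] L) (𝓝 q) :=
    (hcont.tendsto L).mono_left nhdsWithin_le_nhds
  have hev : ∀ᶠ t : ℝ in 𝓝[<] L, t ∈ Ioo 0 L := Ioo_mem_nhdsLT hL0
  have hqX : q ∈ frontier X := by
    refine isClosed_frontier.mem_of_tendsto htl ?_
    filter_upwards [hev] with t ht
    exact (hgood t ht.1.le ht.2).2.frontier E.cx.isOpen hd he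
  have hqY : q ∈ closure Y := by
    refine mem_closure_of_tendsto htl ?_
    filter_upwards [hev] with t ht
    exact (hgood t ht.1.le ht.2).1
  refine ⟨L, hL0, fun t h1 h2 => hgood t h1 h2, hqX, ?_⟩
  rw [E.cy.isOpen.frontier_eq]
  refine ⟨hqY, fun hqY' => ?_⟩
  apply hLB.2
  refine ⟨hqY', ?_⟩
  -- the point is flat
  have hnc : ¬ Corner X q := E.c1 q hqY'
  have hex : ∃ u, ‖u‖ = 1 ∧ FlatAt X q u 1 := by
    by_contra hcon
    exact hnc ⟨hqX, hcon⟩
  obtain ⟨u, hu, hflu⟩ := hex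
  have h1 : ∀ᶠ t : ℝ in 𝓝[<] L, nc q u 1 (p + (t : ℂ) * d) = 0 := by
    filter_upwards [htl.eventually (flat_frontier E.cx.isOpen hflu), hev] with t h2 h3
    exact h2 ((hgood t h3.1.le h3.2).2.frontier E.cx.isOpen hd he)
  obtain ⟨t, h2, h3⟩ := (h1.and hev).exists
  obtain ⟨s, hs⟩ := (nc_eq_zero_iff hu (Or.inl rfl)).1 h2
  have h4 : ((t - L : ℝ) : ℂ) * d = (s : ℂ) * u := by
    have : p + (t : ℂ) * d = p + (L : ℂ) * d + (s : ℂ) * u := hs
    push_cast
    linear_combination this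
  have htL : t - L ≠ 0 := by linarith [h3.2]
  have h5 : |t - L| = |s| := by
    have := congrArg norm h4
    rwa [norm_mul, norm_mul, hd, hu, mul_one, mul_one, Complex.norm_real, Complex.norm_real,
      Real.norm_eq_abs, Real.norm_eq_abs] at this
  have htLC : ((t - L : ℝ) : ℂ) ≠ 0 := by exact_mod_cast htL
  have h6 : ∃ e₂ : ℝ, (e₂ = 1 ∨ e₂ = -1) ∧ FlatAt X q d e₂ := by
    rcases abs_eq_abs.1 h5 with h7 | h7
    · refine ⟨1, Or.inl rfl, ?_⟩
      rw [← h7] at h4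
      rw [mul_left_cancel₀ htLC h4]; exact hflu
    · refine ⟨-1, Or.inr rfl, ?_⟩
      have h8 : d = -u := by
        have h9 : s = -(t - L) := by linarith
        rw [h9] at h4
        refine mul_left_cancel₀ htLC ?_
        rw [h4]; push_cast; ring
      rw [h8]; exact hflu.flip
  obtain ⟨e₂, he₂, hfl₂⟩ := h6
  have h7 : e₂ = e := opp_sign E.cx hd he he₂ (by
    rw [nc_eq_zero_iff hd (Or.inl rfl)]; exact ⟨L, hq⟩) hfl hfl₂
  rw [← h7]; exact hfl₂

/-- Rays of the boundary of `X` inside `Y`. -/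
def Ray (X Y : Set ℂ) (q d : ℂ) (e : ℝ) : Prop :=
  ∃ s₀, 0 < s₀ ∧ ∀ s : ℝ, 0 < s → s < s₀ → q + (s : ℂ) * d ∈ Y ∧ FlatAt X (q + (s : ℂ) * d) d e

lemma Ext.far (E : Ext X Y U) {q d : ℂ} {e : ℝ} (hd : ‖d‖ = 1) (he : e = 1 ∨ e = -1)
    (hr : Ray X Y q d e) : ∃ L : ℝ, 0 < L ∧ q + (L : ℂ) * d ∈ frontier X ∧
      q + (L : ℂ) * d ∈ frontier Y ∧ Ray X Y (q + (L : ℂ) * d) (-d) (-e) := by
  obtain ⟨s₀, hs₀, h1⟩ := hr
  obtain ⟨h2, h3⟩ := h1 (s₀ / 2) (by linarith) (by linarith)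
  obtain ⟨L, hL, h4, h5, h6⟩ := E.seg hd he h2 h3
  have h7 : q + ((s₀ / 2 : ℝ) : ℂ) * d + (L : ℂ) * d = q + ((s₀ / 2 + L : ℝ) : ℂ) * d := by
    push_cast; ring
  rw [h7] at h5 h6
  refine ⟨s₀ / 2 + L, by linarith, h5, h6, L, hL, fun s hs hsL => ?_⟩
  have h8 : q + ((s₀ / 2 + L : ℝ) : ℂ) * d + (s : ℂ) * -d =
      q + ((s₀ / 2 : ℝ) : ℂ) * d + ((L - s : ℝ) : ℂ) * d := by push_cast; ring
  rw [h8]
  obtain ⟨h9, h10⟩ := h4 (L - s) (by linarith) (by linarith)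
  exact ⟨h9, h10.flip⟩

/-- At a vertex a boundary ray of `X` in `Y` is accompanied by a boundary ray of `Y` in `X`. -/
lemma Ext.vertex (E : Ext X Y U) {q d : ℂ} {e : ℝ} (hd : ‖d‖ = 1) (he : e = 1 ∨ e = -1)
    (hqX : q ∈ frontier X) (hqY : q ∈ frontier Y) (hr : Ray X Y q d e) :
    ∃ γ, 0 < γ ∧ γ < Real.pi ∧ Ray Y X q (dr d e γ) (-e) := by
  have hπ := Real.pi_pos
  obtain ⟨s₀, hs₀, h1⟩ := hr
  obtain ⟨h2, h3⟩ := h1 (s₀ / 2) (by linarith) (by linarith)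
  obtain ⟨r₁, hX⟩ := E.cx.exists_bsec hqX hd he (by linarith : 0 < s₀ / 2) h3
  obtain ⟨a, b, r₂, hY⟩ := E.cy.exists_sec hqY hd he (by linarith : 0 < s₀ / 2)
    (by rw [pt_dr_zero]; exact h2)
  have hω : ang X q = b - a := by rw [E.eq q hqX hqY, hY.ang (E.cy.notMem_of_frontier hqY)]
  have ha0 := hY.a0
  have hb0 := hY.b0
  have hba := hY.ba
  have hbπ : b < Real.pi := by linarith
  obtain ⟨r₃, hr₃, hnear⟩ := Metric.eventually_nhds_iff.1 (E.cy.flat_near hqY)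
  refine ⟨b, hb0, hbπ, min (min r₁ r₂) r₃, lt_min (lt_min hX.r0 hY.r0) hr₃,
    fun s hs hsm => ?_⟩
  have hs1 : s < r₁ := lt_of_lt_of_le hsm ((min_le_left _ _).trans (min_le_left _ _))
  have hs2 : s < r₂ := lt_of_lt_of_le hsm ((min_le_left _ _).trans (min_le_right _ _))
  have hs3 : s < r₃ := lt_of_lt_of_le hsm (min_le_right _ _)
  set β := dr d e b with hβ
  have hβ1 : ‖β‖ = 1 := norm_dr hd e b
  have hy : q + (s : ℂ) * β = pt q d e s b := rfl
  constructor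
  · rw [hy, hX.iff s b hs hs1 (by linarith) hbπ.le, hω]
    exact ⟨hb0, by linarith⟩
  · -- flatness
    have hyn : pt q d e s b ∉ Y := by
      rw [hY.iff s b hs hs2 (by linarith) hbπ.le]
      exact fun h => lt_irrefl _ h.2
    have hycl : pt q d e s b ∈ closure Y := by
      have h4 : Tendsto (fun θ : ℝ => pt q d e s θ) (𝓝[<] b) (𝓝 (pt q d e s b)) :=
        ((continuous_pt_phi q d e s).tendsto b).mono_left nhdsWithin_le_nhds
      refine mem_closure_of_tendsto h4 ?_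
      filter_upwards [Ioo_mem_nhdsLT hb0] with θ hθ
      rw [hY.iff s θ hs hs2 (by linarith [hθ.1]) (by linarith [hθ.2])]
      exact ⟨by linarith [hθ.1], hθ.2⟩
    have hyf : pt q d e s b ∈ frontier Y := by
      rw [E.cy.isOpen.frontier_eq]; exact ⟨hycl, hyn⟩
    obtain ⟨u, hu, hu0, hfl⟩ := hnear (by rw [dist_pt hd q e hs.le]; exact hs3)
      (pt_ne hd q e hs b) hyf
    -- the direction is `± β`
    have h5 : nc q u 1 (pt q d e s b) = 0 := by
      rw [nc_congr (pt q d e s b) u 1 hu0 (Or.inl rfl), nc_self]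
    obtain ⟨t, ht⟩ := (nc_eq_zero_iff hu (Or.inl rfl)).1 h5
    have h6 : (s : ℂ) * β = (t : ℂ) * u := by
      rw [← hy] at ht
      exact add_left_cancel ht
    have h7 : |s| = |t| := by
      have := congrArg norm h6
      rwa [norm_mul, norm_mul, hβ1, hu, mul_one, mul_one, Complex.norm_real, Complex.norm_real,
        Real.norm_eq_abs, Real.norm_eq_abs] at this
    have hsC : (s : ℂ) ≠ 0 := by exact_mod_cast hs.ne'
    have h8 : ∃ e₂ : ℝ, (e₂ = 1 ∨ e₂ = -1) ∧ FlatAt Y (pt q d e s b) β e₂ := by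
      rcases abs_eq_abs.1 h7 with h9 | h9
      · refine ⟨1, Or.inl rfl, ?_⟩
        rw [← h9] at h6
        rw [mul_left_cancel₀ hsC h6]; exact hfl
      · refine ⟨-1, Or.inr rfl, ?_⟩
        have h10 : β = -u := by
          have h11 : t = -s := by linarith
          rw [h11] at h6
          refine mul_left_cancel₀ hsC ?_
          rw [h6]; push_cast; ring
        rw [h10]; exact hfl.flip
    obtain ⟨e₂, he₂, hfl₂⟩ := h8
    -- the sign
    have h9 : pt q d e s (b / 2) ∈ Y := by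
      rw [hY.iff s (b / 2) hs hs2 (by linarith) (by linarith)]
      exact ⟨by linarith, by linarith⟩
    have h10 := E.cy.supp hβ1 he₂ hfl₂ h9
    have h11 : nc (pt q d e s b) β e₂ (pt q d e s (b / 2)) =
        e₂ * nc q β 1 (pt q d e s (b / 2)) := by
      rw [← hy, nc_shift hβ1]; unfold nc; ring
    have h12 : nc q β (-e) (pt q d e s (b / 2)) = s * Real.sin (b / 2) := by
      have h13 : pt q d e s (b / 2) = pt q β (-e) s (b / 2) := by
        rw [hβ, pt_refl]; congr 1; ring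
      rw [h13, nc_pt q hβ1]
      rcases he with rfl | rfl
      · right; rfl
      · left; norm_num
    have h14 : 0 < s * Real.sin (b / 2) :=
      mul_pos hs (Real.sin_pos_of_pos_of_lt_pi (by linarith) (by linarith))
    have h15 : nc q β (-e) (pt q d e s (b / 2)) = -e * nc q β 1 (pt q d e s (b / 2)) := by
      unfold nc; ring
    rw [h11] at h10
    rw [h15] at h12
    rw [← h12] at h14
    have h16 : e₂ = -e := by
      rcases he with rfl | rfl <;> rcases he₂ with rfl | rfl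
      · linarith
      · rfl
      · norm_num
      · linarith
    rw [← h16]
    exact hfl₂

/-- The accompanying ray is unique. -/
lemma Ext.unique (E : Ext X Y U) {q b₁ b₂ : ℂ} {e₁ e₂ : ℝ} (hb₁ : ‖b₁‖ = 1) (hb₂ : ‖b₂‖ = 1)
    (he₁ : e₁ = 1 ∨ e₁ = -1) (he₂ : e₂ = 1 ∨ e₂ = -1) (hqX : q ∈ frontier X)
    (hqY : q ∈ frontier Y) (h1 : Ray X Y q b₁ e₁) (h2 : Ray X Y q b₂ e₂) : b₂ = b₁ := by
  have hπ := Real.pi_pos
  obtain ⟨s₁, hs₁, h1⟩ := h1
  obtain ⟨s₂, hs₂, h2⟩ := h2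
  obtain ⟨h3, h4⟩ := h1 (s₁ / 2) (by linarith) (by linarith)
  obtain ⟨r₁, hX⟩ := E.cx.exists_bsec hqX hb₁ he₁ (by linarith : 0 < s₁ / 2) h4
  obtain ⟨a, b, r₂, hY⟩ := E.cy.exists_sec hqY hb₁ he₁ (by linarith : 0 < s₁ / 2)
    (by rw [pt_dr_zero]; exact h3)
  have hω : ang X q = b - a := by rw [E.eq q hqX hqY, hY.ang (E.cy.notMem_of_frontier hqY)]
  have ha0 := hY.a0
  have hb0 := hY.b0
  have hba := hY.ba
  obtain ⟨θ, hθ1, hθ2, hθ⟩ := exists_angle hb₁ hb₂ he₁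
  -- a small parameter
  set s := min (min r₁ r₂) s₂ / 2 with hs
  have hm : 0 < min (min r₁ r₂) s₂ := lt_min (lt_min hX.r0 hY.r0) hs₂
  have hs0 : 0 < s := by rw [hs]; linarith
  have hsr₁ : s < r₁ := by
    have := (min_le_left (min r₁ r₂) s₂).trans (min_le_left _ _); rw [hs]; linarith
  have hsr₂ : s < r₂ := by
    have := (min_le_left (min r₁ r₂) s₂).trans (min_le_right _ _); rw [hs]; linarith
  have hss₂ : s < s₂ := by have := min_le_right (min r₁ r₂) s₂; rw [hs]; linarith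
  obtain ⟨h5, h6⟩ := h2 s hs0 hss₂
  have h7 : q + (s : ℂ) * b₂ = pt q b₁ e₁ s θ := by rw [hθ]; rfl
  -- `θ` is an inner direction of `Y`
  have h8 : a < θ ∧ θ < b := by
    rw [← hY.iff s θ hs0 hsr₂ hθ1 hθ2, ← h7]; exact h5
  rcases lt_trichotomy θ 0 with h | h | h
  · exfalso
    have h9 := flat_rotate hb₂ he₂ hs0 h6
    have h10 : ∀ᶠ ε : ℝ in 𝓝[>] (0 : ℝ), ε ∈ Ioo 0 (min (-θ) (θ + Real.pi)) :=
      Ioo_mem_nhdsGT (lt_min (by linarith) (by linarith))
    obtain ⟨ε, h11, h12⟩ := (h9.and h10).exists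
    have h13 := min_le_left (-θ) (θ + Real.pi)
    have h14 := min_le_right (-θ) (θ + Real.pi)
    have h15 : e₂ = e₁ ∨ e₂ = -e₁ := by
      rcases he₁ with rfl | rfl <;> rcases he₂ with rfl | rfl <;> norm_num
    rcases h15 with h15 | h15
    · rw [h15, hθ, pt_rot] at h11
      have h16 := (hX.iff s (θ + ε) hs0 hsr₁ (by linarith [h12.1]) (by linarith [h12.2])).1 h11
      linarith [h16.1, h12.2]
    · rw [h15, hθ, pt_refl] at h11
      have h16 := (hX.iff s (θ - ε) hs0 hsr₁ (by linarith [h12.2]) (by linarith [h12.1])).1 h11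
      linarith [h16.1, h12.1]
  · rw [hθ, h, dr_zero]
  · exfalso
    have h9 : q + (s : ℂ) * b₂ ∈ X := by
      rw [h7, hX.iff s θ hs0 hsr₁ hθ1 hθ2, hω]
      exact ⟨h, by linarith [h8.2]⟩
    exact E.cx.notMem_of_frontier (h6.frontier E.cx.isOpen hb₂ he₂) h9

/-- Value of a rotated normal functional. -/
lemma nc_dr {d : ℂ} (hd : ‖d‖ = 1) {e : ℝ} (he : e = 1 ∨ e = -1) (γ : ℝ) (v : ℂ) :
    nc 0 (dr d e γ) e v = nc 0 d e v * Real.cos γ - (v / d).re * Real.sin γ := by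
  have hd0 := ne_zero_of_norm hd
  have he2 := e_sq he
  unfold nc dr
  rw [sub_zero, ← div_div, div_eq_mul_inv (v / d), ← Complex.exp_neg]
  have h1 : -(((e * γ : ℝ) : ℂ) * I) = ((-(e * γ) : ℝ) : ℂ) * I := by push_cast; ring
  rw [h1, Complex.mul_im, Complex.exp_ofReal_mul_I_re, Complex.exp_ofReal_mul_I_im,
    Real.cos_neg, Real.sin_neg]
  have h2 : Real.cos (e * γ) = Real.cos γ := by
    rcases he with rfl | rfl
    · rw [one_mul]
    · rw [neg_one_mul, Real.cos_neg]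
  have h3 : Real.sin (e * γ) = e * Real.sin γ := by
    rcases he with rfl | rfl
    · rw [one_mul, one_mul]
    · rw [neg_one_mul, Real.sin_neg]; ring
  rw [h2, h3]
  linear_combination (-(v / d).re * Real.sin γ) * he2

lemma nc_neg_dir (d : ℂ) (e : ℝ) (v : ℂ) : nc 0 (-d) e v = - nc 0 d e v := by
  unfold nc; rw [div_neg, Complex.neg_im]; ring

lemma nc_neg_sign (d : ℂ) (e : ℝ) (v : ℂ) : nc 0 d (-e) v = - nc 0 d e v := by
  unfold nc; ring

lemma nc_base (q d : ℂ) (e : ℝ) (x : ℂ) : nc q d e x = nc 0 d e (x - q) := by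
  unfold nc; rw [sub_zero]

/-- The far end of the accompanying side is the highest point. -/
lemma Ext.top (E : Ext X Y U) {q d : ℂ} {e : ℝ} (hd : ‖d‖ = 1) (he : e = 1 ∨ e = -1)
    (hqX : q ∈ frontier X) (hqY : q ∈ frontier Y) (hr : Ray X Y q d e) :
    ∃ (t : ℂ) (L : ℝ), ‖t‖ = 1 ∧ 0 < L ∧ 0 < nc 0 d e t ∧
      q + (L : ℂ) * t ∈ frontier X ∧ q + (L : ℂ) * t ∈ frontier Y ∧
      Ray Y X (q + (L : ℂ) * t) (-t) e ∧
      ∀ x ∈ closure X, x ∈ closure Y → nc 0 d e (x - (q + (L : ℂ) * t)) ≤ 0 ∧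
        (nc 0 d e (x - (q + (L : ℂ) * t)) = 0 → x = q + (L : ℂ) * t) := by
  have hne : ∀ ε : ℝ, (ε = 1 ∨ ε = -1) → (-ε = 1 ∨ -ε = -1) := by
    rintro ε (rfl | rfl)
    · right; rfl
    · left; norm_num
  have hd0 := ne_zero_of_norm hd
  obtain ⟨γ₁, hγ1, hγ1π, hray⟩ := E.vertex hd he hqX hqY hr
  set t := dr d e γ₁ with ht
  have ht1 : ‖t‖ = 1 := norm_dr hd e γ₁
  obtain ⟨L, hL, h1, h2, h3⟩ := E.swap.far ht1 (hne e he) hray
  rw [neg_neg] at h3
  have ht1' : ‖-t‖ = 1 := by rw [norm_neg]; exact ht1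
  set q₀ := q + (L : ℂ) * t with hq₀
  obtain ⟨γ₀, hγ0, hγ0π, hray₀⟩ := E.swap.vertex ht1' he h1 h2 h3
  have hsin1 : 0 < Real.sin γ₁ := Real.sin_pos_of_pos_of_lt_pi hγ1 hγ1π
  have hsin0 : 0 < Real.sin γ₀ := Real.sin_pos_of_pos_of_lt_pi hγ0 hγ0π
  -- the three functionals
  set F : ℝ → ℂ → ℝ := fun γ v => nc 0 d e v * Real.cos γ - (v / d).re * Real.sin γ with hF
  have hN2 : ∀ v, nc 0 t (-e) v = - F γ₁ v := fun v => by rw [nc_neg_sign, ht, nc_dr hd he]
  have hN3 : ∀ v, nc 0 (dr (-t) e γ₀) (-e) v = F (γ₁ + γ₀) v := fun v => by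
    have h4 : dr (-t) e γ₀ = - dr d e (γ₁ + γ₀) := by
      rw [← dr_rot, ← ht]; unfold dr; ring
    rw [nc_neg_sign, h4, nc_neg_dir, neg_neg, nc_dr hd he]
  have hid : ∀ v, Real.sin γ₀ * nc 0 d e v =
      Real.sin (γ₁ + γ₀) * F γ₁ v - Real.sin γ₁ * F (γ₁ + γ₀) v := by
    intro v
    simp only [hF]
    have h5 : Real.sin γ₀ = Real.sin (γ₁ + γ₀) * Real.cos γ₁ - Real.sin γ₁ * Real.cos (γ₁ + γ₀) := by
      have : Real.sin γ₀ = Real.sin (γ₁ + γ₀ - γ₁) := by congr 1; ring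
      rw [this, Real.sin_sub]; ring
    rw [h5]; ring
  -- signs on `U`
  have s1 : nc 0 d e U < 0 := by
    obtain ⟨s₀, hs₀, h4⟩ := hr
    obtain ⟨h5, h6⟩ := h4 (s₀ / 2) (by linarith) (by linarith)
    exact E.hA _ h5 d e hd he h6
  have s2 : 0 < nc 0 t (-e) U := by
    obtain ⟨s₀, hs₀, h4⟩ := hray
    obtain ⟨h5, h6⟩ := h4 (s₀ / 2) (by linarith) (by linarith)
    exact E.hB _ h5 t (-e) ht1 (hne e he) h6
  have s3 : nc 0 (dr (-t) e γ₀) (-e) U < 0 := by
    obtain ⟨s₀, hs₀, h4⟩ := hray₀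
    obtain ⟨h5, h6⟩ := h4 (s₀ / 2) (by linarith) (by linarith)
    exact E.hA _ h5 _ (-e) (norm_dr ht1' e γ₀) (hne e he) h6
  have hsin : 0 < Real.sin (γ₁ + γ₀) := by
    have h4 := hid U
    rw [hN2] at s2
    rw [hN3] at s3
    by_contra hcon
    push Not at hcon
    have h5 : Real.sin γ₀ * nc 0 d e U < 0 := mul_neg_of_pos_of_neg hsin0 s1
    have h6 : 0 ≤ Real.sin (γ₁ + γ₀) * F γ₁ U :=
      mul_nonneg_of_nonpos_of_nonpos hcon (by linarith)
    have h7 : 0 < - (Real.sin γ₁ * F (γ₁ + γ₀) U) := by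
      have := mul_neg_of_pos_of_neg hsin1 s3
      linarith
    linarith
  refine ⟨t, L, ht1, hL, ?_, h2, h1, h3, fun x hx hy => ?_⟩
  · have h4 : nc 0 d e t = Real.sin γ₁ := by rw [ht, nc_zero_dr hd he]
    rw [h4]; exact hsin1
  · -- supporting lines at `q₀`
    have k2 : 0 ≤ nc 0 t (-e) (x - q₀) := by
      obtain ⟨s₀, hs₀, h4⟩ := hray
      obtain ⟨-, h6⟩ := h4 (s₀ / 2) (by linarith) (by linarith)
      have h7 := E.cy.supp_closure ht1 (hne e he) h6 hy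
      have h8 : nc (q + ((s₀ / 2 : ℝ) : ℂ) * t) t (-e) x = nc q₀ t (-e) x := by
        rw [nc_shift ht1, hq₀, nc_shift ht1]
      rw [h8, nc_base] at h7
      exact h7
    have k3 : 0 ≤ nc 0 (dr (-t) e γ₀) (-e) (x - q₀) := by
      obtain ⟨s₀, hs₀, h4⟩ := hray₀
      obtain ⟨-, h6⟩ := h4 (s₀ / 2) (by linarith) (by linarith)
      have h7 := E.cx.supp_closure (norm_dr ht1' e γ₀) (hne e he) h6 hx
      rw [nc_shift (norm_dr ht1' e γ₀), nc_base] at h7
      exact h7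
    rw [hN2] at k2
    rw [hN3] at k3
    have h4 := hid (x - q₀)
    have h5 : Real.sin (γ₁ + γ₀) * F γ₁ (x - q₀) ≤ 0 :=
      mul_nonpos_of_nonneg_of_nonpos hsin.le (by linarith)
    have h6 : 0 ≤ Real.sin γ₁ * F (γ₁ + γ₀) (x - q₀) := mul_nonneg hsin1.le k3
    constructor
    · by_contra hcon
      push Not at hcon
      have := mul_pos hsin0 hcon
      linarith
    · intro h0
      rw [h0, mul_zero] at h4
      have h7 : F γ₁ (x - q₀) = 0 := by
        have h8 : Real.sin (γ₁ + γ₀) * F γ₁ (x - q₀) = 0 := by linarith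
        rcases mul_eq_zero.1 h8 with h9 | h9
        · exact absurd h9 hsin.ne'
        · exact h9
      have h7' : nc 0 d e (x - q₀) * Real.cos γ₁ - ((x - q₀) / d).re * Real.sin γ₁ = 0 := h7
      rw [h0, zero_mul, zero_sub, neg_eq_zero] at h7'
      have h10 : ((x - q₀) / d).re = 0 := by
        rcases mul_eq_zero.1 h7' with h11 | h11
        · exact h11
        · exact absurd h11 hsin1.ne'
      have h12 : ((x - q₀) / d).im = 0 := by
        unfold nc at h0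
        rw [sub_zero] at h0
        rcases he with rfl | rfl
        · linarith
        · linarith
      have h13 : (x - q₀) / d = 0 := Complex.ext h10 h12
      rw [div_eq_zero_iff] at h13
      rcases h13 with h14 | h14
      · exact sub_eq_zero.1 h14
      · exact absurd h14 hd0

/-- There are no rays. -/
lemma Ext.no_ray (E : Ext X Y U) {q d : ℂ} {e : ℝ} (hd : ‖d‖ = 1) (he : e = 1 ∨ e = -1)
    (hqX : q ∈ frontier X) (hqY : q ∈ frontier Y) (hr : Ray X Y q d e) : False := by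
  have hne : -e = 1 ∨ -e = -1 := by
    rcases he with rfl | rfl
    · right; rfl
    · left; norm_num
  have hd' : ‖-d‖ = 1 := by rw [norm_neg]; exact hd
  obtain ⟨L, hL, h1, h2, h3⟩ := E.far hd he hr
  obtain ⟨t₁, L₁, ht₁, hL₁, hp₁, hX₁, hY₁, hr₁, htop₁⟩ := E.top hd he hqX hqY hr
  obtain ⟨t₂, L₂, ht₂, hL₂, hp₂, hX₂, hY₂, hr₂, htop₂⟩ := E.top hd' hne h1 h2 h3
  have hflip : ∀ v, nc 0 (-d) (-e) v = nc 0 d e v := fun v => nc_flip 0 d e v
  set q₀ := q + (L₁ : ℂ) * t₁ with hq₀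
  set q₃ := q + (L : ℂ) * d + (L₂ : ℂ) * t₂ with hq₃
  have a1 := (htop₁ q₃ (frontier_subset_closure hX₂) (frontier_subset_closure hY₂)).1
  have a2 := (htop₂ q₀ (frontier_subset_closure hX₁) (frontier_subset_closure hY₁)).1
  rw [hflip] at a2
  have a3 : nc 0 d e (q₀ - q₃) = - nc 0 d e (q₃ - q₀) := by
    rw [← nc_zero_neg]; congr 1; ring
  rw [a3] at a2
  have a4 : nc 0 d e (q₃ - q₀) = 0 := le_antisymm a1 (by linarith)
  have a5 : q₃ = q₀ :=
    (htop₁ q₃ (frontier_subset_closure hX₂) (frontier_subset_closure hY₂)).2 a4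
  rw [a5] at hr₂
  have a6 := E.swap.unique (by rw [norm_neg]; exact ht₁) (by rw [norm_neg]; exact ht₂) he hne
    hY₁ hX₁ hr₁ hr₂
  have a7 : t₂ = t₁ := neg_injective a6
  rw [hq₃, hq₀, a7] at a5
  have a8 : (L : ℂ) * d = ((L₁ - L₂ : ℝ) : ℂ) * t₁ := by
    push_cast
    linear_combination a5
  have a9 : nc 0 d e ((L : ℂ) * d) = 0 := by
    rw [nc_zero_smul]
    unfold nc
    rw [sub_zero, div_self (ne_zero_of_norm hd), Complex.one_im]; ring
  rw [a8, nc_zero_smul] at a9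
  have a10 : L₁ - L₂ = 0 := by
    rcases mul_eq_zero.1 a9 with h | h
    · exact h
    · exact absurd h hp₁.ne'
  rw [a10, Complex.ofReal_zero, zero_mul] at a8
  rcases mul_eq_zero.1 a8 with h | h
  · exact hL.ne' (by exact_mod_cast h)
  · exact ne_zero_of_norm hd h

lemma Ext.no_cut (E : Ext X Y U) {p : ℂ} (hp : p ∈ Y) (hpX : p ∈ frontier X) : False := by
  have hex : ∃ u, ‖u‖ = 1 ∧ FlatAt X p u 1 := by
    by_contra hcon
    exact E.c1 p hp ⟨hpX, hcon⟩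
  obtain ⟨u, hu, hfl⟩ := hex
  obtain ⟨L, hL, h1, h2, h3⟩ := E.seg hu (Or.inl rfl) hp hfl
  refine E.no_ray (q := p + (L : ℂ) * u) (d := -u) (e := -1) (by rw [norm_neg]; exact hu)
    (Or.inr rfl) h2 h3 ⟨L, hL, fun s hs hsL => ?_⟩
  have h4 : p + (L : ℂ) * u + (s : ℂ) * -u = p + ((L - s : ℝ) : ℂ) * u := by push_cast; ring
  rw [h4]
  obtain ⟨h5, h6⟩ := h1 (L - s) (by linarith) (by linarith)
  exact ⟨h5, h6.flip⟩

/-- Extremal pairs coincide. -/
theorem Ext.eq_sets (E : Ext X Y U) (hne : (X ∩ Y).Nonempty) : X = Y := by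
  have key : ∀ {X Y : Set ℂ} {U : ℂ}, Ext X Y U → (X ∩ Y).Nonempty → Y ⊆ X := by
    intro X Y U E hne
    obtain ⟨x, hxX, hxY⟩ := hne
    intro y hy
    by_contra hyX
    obtain ⟨z, hz1, hz2⟩ := exists_frontier E.cx.isOpen E.cy.convex.isPreconnected hxY hxX hy hyX
    exact E.no_cut hz1 hz2
  refine subset_antisymm ?_ (key E hne)
  exact key E.swap (by rwa [inter_comm])

end Pool.Agent.Helper2Poly
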