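import Pool.Agent.Helper2_Poly.Weight

/-!
# Angles of linked corners
-/

open Complex ComplexConjugate Set Filter Topology MeasureTheory
open Pool.Agent.Helper2Drum Pool.Agent.Helper2Transp

namespace Pool.Agent.Helper2Poly

/-- Commensurable positive numbers. -/
def Comm (a b : ℝ) : Prop := ∃ n n' : ℕ, 0 < n ∧ 0 < n' ∧ (n' : ℝ) * a = n * b

lemma Comm.symm {a b : ℝ} (h : Comm a b) : Comm b a := by
  obtain ⟨n, n', h1, h2, h3⟩ := h
  exact ⟨n', n, h2, h1, h3.symm⟩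

lemma Comm.trans {a b c : ℝ} (h : Comm a b) (h' : Comm b c) : Comm a c := by
  obtain ⟨n, n', h1, h2, h3⟩ := h
  obtain ⟨m, m', h4, h5, h6⟩ := h'
  refine ⟨n * m, n' * m', Nat.mul_pos h1 h4, Nat.mul_pos h2 h5, ?_⟩
  push_cast
  linear_combination (m' : ℝ) * h3 + (n : ℝ) * h6

lemma Comm.not_irrational {a b : ℝ} (h : Comm a b) (hb : 0 < b) : ¬ Irrational (a / b) := by
  obtain ⟨n, n', h1, h2, h3⟩ := h
  intro hirr
  apply hirr
  refine ⟨(n : ℚ) / n', ?_⟩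
  have h4 : (n' : ℝ) ≠ 0 := by exact_mod_cast h2.ne'
  push_cast
  rw [div_eq_div_iff h4 hb.ne']
  linarith

lemma comm_two_pi : Comm (2 * Real.pi) Real.pi := ⟨2, 1, by norm_num, by norm_num, by norm_num⟩

variable {Ω Ω' : Set ℂ} {Φ : Finset (ℂ ≃ᵢ ℂ)} {k : (ℂ ≃ᵢ ℂ) → ℝ}

lemma frontier_of_closure (h : CP Ω) {q : ℂ} (hq : q ∈ closure Ω) (hn : q ∉ Ω) :
    q ∈ frontier Ω := by rw [h.isOpen.frontier_eq]; exact ⟨hq, hn⟩

/-- A point of the closure whose angle is not commensurable with `π` is a corner. -/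
lemma CP.corner_of_not_comm (h : CP Ω) {q : ℂ} (hq : q ∈ closure Ω)
    (hn : ¬ Comm (ang Ω q) Real.pi) : Corner Ω q := by
  by_contra hc
  apply hn
  by_cases h1 : q ∈ Ω
  · rw [h.ang_interior h1]; exact comm_two_pi
  · rw [h.ang_flat (frontier_of_closure h hq h1) hc]
    exact ⟨1, 1, one_pos, one_pos, rfl⟩

structure Gen (Ω : Set ℂ) : Prop where
  irr : ∀ c, Corner Ω c → Irrational (ang Ω c / Real.pi)
  pair : ∀ c₁ c₂, Corner Ω c₁ → Corner Ω c₂ → c₁ ≠ c₂ → Irrational (ang Ω c₁ / ang Ω c₂)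

lemma Gen.not_comm (g : Gen Ω) {c : ℂ} (hc : Corner Ω c) : ¬ Comm (ang Ω c) Real.pi :=
  fun h => h.not_irrational Real.pi_pos (g.irr c hc)

lemma Gen.eq_of_comm (g : Gen Ω) (h : CP Ω) {c₁ c₂ : ℂ} (h1 : Corner Ω c₁) (h2 : Corner Ω c₂)
    (hc : Comm (ang Ω c₁) (ang Ω c₂)) : c₁ = c₂ := by
  by_contra hne
  exact hc.not_irrational (h.ang_frontier h2.1).1 (g.pair c₁ c₂ h1 h2 hne)

/-- Points linked with a corner are corners. -/
lemma Pl.link_corner (P : Pl Ω Ω' Φ k) (g : Gen Ω) {ψ : ℂ ≃ᵢ ℂ} (hψ : k ψ ≠ 0) {q' : ℂ}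
    (hq' : q' ∈ closure Ω') (hc : Corner Ω (ψ q')) : Corner Ω' q' := by
  refine P.cp'.corner_of_not_comm hq' fun h => ?_
  have h1 : Comm (ang Ω' q') (ang Ω (ψ q')) :=
    P.commens hψ hq' (frontier_subset_closure hc.1)
  exact g.not_comm hc (h1.symm.trans h)

/-- A corner linked with `c` is linked with no other point. -/
lemma Pl.link_unique (P : Pl Ω Ω' Φ k) (g : Gen Ω) {ψ χ : ℂ ≃ᵢ ℂ} (hψ : k ψ ≠ 0) (hχ : k χ ≠ 0)
    {q' : ℂ} (hq' : q' ∈ closure Ω') (hc : Corner Ω (ψ q')) (hχc : χ q' ∈ closure Ω) :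
    χ q' = ψ q' := by
  have h1 : Comm (ang Ω' q') (ang Ω (ψ q')) :=
    P.commens hψ hq' (frontier_subset_closure hc.1)
  have h2 : Comm (ang Ω' q') (ang Ω (χ q')) := P.commens hχ hq' hχc
  have h3 : Comm (ang Ω (χ q')) (ang Ω (ψ q')) := h2.symm.trans h1
  have h4 : Corner Ω (χ q') :=
    P.cp.corner_of_not_comm hχc fun h => g.not_comm hc (h3.symm.trans h)
  exact g.eq_of_comm P.cp h4 hc h3

/-- Global multiplicities. -/
lemma Pl.mult (P : Pl Ω Ω' Φ k) (hex : ∃ ψ, k ψ ≠ 0) (harea : volume.real Ω' ≤ volume.real Ω) :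
    ∃ m m' : ℝ, 0 < m ∧ m ≤ m' ∧
      (∀ᵐ x, x ∈ Ω' → NN Ω Φ (fun ψ => k ψ ^ 2) x = m') ∧
      (∀ᵐ x, x ∈ Ω → NN Ω' (Φ.map symEmb) (fun ψ => k ψ.symm ^ 2) x = m) := by
  obtain ⟨m', h1⟩ := P.glob (ω := fun ψ => k ψ ^ 2)
    (fun ψ h h' => h (by simp only [h']; norm_num)) (fun ψ χ h => by simp only [h]; ring)
  obtain ⟨m, h2⟩ := P.swap.glob (ω := fun ψ => k ψ.symm ^ 2)
    (fun ψ h h' => h (by simp only [h']; norm_num)) (fun ψ χ h => by simp only [h]; ring)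
  have e1 : ∀ᵐ x, x ∈ Ω' ∩ univ → NN Ω Φ (fun ψ => k ψ ^ 2) x = m' :=
    h1.mono fun x hx hxx => hx hxx.1
  have e2 : ∀ᵐ x, x ∈ Ω ∩ univ →
      NN Ω' (Φ.map symEmb) (fun ψ => (fun ψ => k ψ ^ 2) ψ.symm) x = m :=
    h2.mono fun x hx hxx => hx hxx.1
  have e3 := dbl P.cp.isOpen P.cp'.isOpen MeasurableSet.univ MeasurableSet.univ
    (vol_fin P.cp' _) (vol_fin P.cp _) e1 e2 (fun χ _ _ => preimage_univ)
  rw [inter_univ, inter_univ] at e3
  have v : 0 < volume.real Ω := ENNReal.toReal_pos (P.cp.isOpen.measure_pos volume P.cp.ne).ne'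
    P.cp.bdd.measure_lt_top.ne
  have v' : 0 < volume.real Ω' := ENNReal.toReal_pos
    (P.cp'.isOpen.measure_pos volume P.cp'.ne).ne' P.cp'.bdd.measure_lt_top.ne
  have e4 := mass P.cp.isOpen P.cp'.isOpen.measurableSet P.cp'.bdd.measure_lt_top.ne h1
  have hm' : 0 < m' := by
    obtain ⟨ψ, hψ⟩ := hex
    have h5 : 0 < ∑ χ ∈ Φ, k χ ^ 2 * volume.real (Ω' ∩ χ ⁻¹' Ω) := by
      refine Finset.sum_pos' (fun χ _ => mul_nonneg (sq_nonneg _) measureReal_nonneg)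
        ⟨ψ, P.mem ψ hψ, ?_⟩
      refine mul_pos (by positivity) (ENNReal.toReal_pos ?_ ?_)
      · obtain ⟨x, hx, hx'⟩ := P.vis ψ hψ
        exact ((P.cp'.isOpen.inter (P.cp.isOpen.preimage ψ.continuous)).measure_pos volume
          ⟨x, hx, hx'⟩).ne'
      · exact ne_of_lt (lt_of_le_of_lt (measure_mono inter_subset_left) P.cp'.bdd.measure_lt_top)
    rw [← e4] at h5
    by_contra hcon
    push Not at hcon
    have := mul_nonpos_of_nonpos_of_nonneg hcon v'.le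
    linarith
  refine ⟨m, m', ?_, ?_, h1, h2⟩
  · by_contra hcon
    push Not at hcon
    have h6 := mul_nonpos_of_nonpos_of_nonneg hcon v.le
    have h7 := mul_pos hm' v'
    linarith
  · have h8 : m * volume.real Ω ≤ m' * volume.real Ω := by
      rw [← e3]
      exact mul_le_mul_of_nonneg_left harea hm'.le
    exact le_of_mul_le_mul_right h8 v

lemma eventually_empty {D : Set ℂ} {q : ℂ} (hq : q ∉ closure D) :
    ∀ᶠ ρ : ℝ in 𝓝[>] (0 : ℝ), Metric.ball q ρ ∩ D = ∅ := by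
  obtain ⟨r, hr, h⟩ := Metric.isOpen_iff.1 isClosed_closure.isOpen_compl q hq
  filter_upwards [Ioo_mem_nhdsGT hr] with ρ hρ
  rw [eq_empty_iff_forall_notMem]
  rintro x ⟨hx1, hx2⟩
  exact h (Metric.ball_subset_ball hρ.2.le hx1) (subset_closure hx2)

lemma Dens.eventually {D : Set ℂ} {q : ℂ} {α : ℝ} (h : Dens D q α) (hα : 0 ≤ α) :
    ∀ᶠ ρ : ℝ in 𝓝[>] (0 : ℝ), volume.real (D ∩ Metric.ball q ρ) = α * ρ ^ 2 / 2 := by
  obtain ⟨r, hr, h⟩ := h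
  filter_upwards [Ioo_mem_nhdsGT hr] with ρ hρ
  rw [measureReal_def, h ρ hρ.1 hρ.2, ENNReal.toReal_ofReal (by positivity)]

/-- Sum rule for the angles linked with a corner. -/
theorem Pl.sum_rule (P : Pl Ω Ω' Φ k) (g : Gen Ω) {m m' : ℝ}
    (h1 : ∀ᵐ x, x ∈ Ω' → NN Ω Φ (fun ψ => k ψ ^ 2) x = m')
    (h2 : ∀ᵐ x, x ∈ Ω → NN Ω' (Φ.map symEmb) (fun ψ => k ψ.symm ^ 2) x = m)
    (C' : Finset ℂ) (hC' : ∀ c, c ∈ C' ↔ Corner Ω' c) {c : ℂ} (hc : Corner Ω c)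
    (S : Finset ℂ) (hS : ∀ c', c' ∈ S ↔ c' ∈ C' ∧ ∃ ψ, k ψ ≠ 0 ∧ ψ c' = c) :
    ∑ c' ∈ S, m' * ang Ω' c' = m * ang Ω c := by
  classical
  have hcc : c ∈ closure Ω := frontier_subset_closure hc.1
  have hScl : ∀ c' ∈ S, c' ∈ closure Ω' := fun c' hc' =>
    frontier_subset_closure ((hC' c').1 ((hS c').1 hc').1).1
  -- small radii
  have a1 : ∀ᶠ ρ : ℝ in 𝓝[>] (0 : ℝ), ∀ c' ∈ S,
      volume.real (Ω' ∩ Metric.ball c' ρ) = ang Ω' c' * ρ ^ 2 / 2 := by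
    rw [Filter.eventually_all_finset]
    intro c' hc'
    obtain ⟨h3, h4⟩ := P.cp'.ang_closure (hScl c' hc')
    exact h4.eventually h3.le
  have a2 : ∀ᶠ ρ : ℝ in 𝓝[>] (0 : ℝ),
      volume.real (Ω ∩ Metric.ball c ρ) = ang Ω c * ρ ^ 2 / 2 := by
    obtain ⟨h3, h4⟩ := P.cp.ang_closure hcc
    exact h4.eventually h3.le
  have a3 : ∀ᶠ ρ : ℝ in 𝓝[>] (0 : ℝ), ∀ c' ∈ S, ∀ ψ ∈ Φ, ψ c' ∉ closure Ω →
      Metric.ball (ψ c') ρ ∩ Ω = ∅ := by
    rw [Filter.eventually_all_finset]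
    intro c' _
    rw [Filter.eventually_all_finset]
    intro ψ _
    by_cases h : ψ c' ∈ closure Ω
    · exact Eventually.of_forall fun ρ h' => absurd h h'
    · filter_upwards [eventually_empty h] with ρ hρ _
      exact hρ
  have a4 : ∀ᶠ ρ : ℝ in 𝓝[>] (0 : ℝ), ∀ ψ ∈ Φ, ψ.symm c ∉ closure Ω' →
      Metric.ball (ψ.symm c) ρ ∩ Ω' = ∅ := by
    rw [Filter.eventually_all_finset]
    intro ψ _
    by_cases h : ψ.symm c ∈ closure Ω'
    · exact Eventually.of_forall fun ρ h' => absurd h h'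
    · filter_upwards [eventually_empty h] with ρ hρ _
      exact hρ
  have a5 : ∀ᶠ ρ : ℝ in 𝓝[>] (0 : ℝ), 0 < ρ := self_mem_nhdsWithin
  obtain ⟨ρ, ⟨b1, b2, b3, b4⟩, hρ⟩ := ((a1.and (a2.and (a3.and a4))).and a5).exists
  -- masses
  have e1 : ∀ c' : ℂ, m' * volume.real (Ω' ∩ Metric.ball c' ρ) =
      ∑ ψ ∈ Φ, k ψ ^ 2 * volume.real (Ω' ∩ Metric.ball c' ρ ∩ ψ ⁻¹' Ω) := fun c' =>
    mass P.cp.isOpen (P.cp'.isOpen.measurableSet.inter measurableSet_ball) (vol_fin P.cp' _)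
      (h1.mono fun x hx hxx => hx hxx.1)
  have e2 : m * volume.real (Ω ∩ Metric.ball c ρ) =
      ∑ ψ ∈ Φ.map symEmb, k ψ.symm ^ 2 * volume.real (Ω ∩ Metric.ball c ρ ∩ ψ ⁻¹' Ω') :=
    mass P.cp'.isOpen (P.cp.isOpen.measurableSet.inter measurableSet_ball) (vol_fin P.cp _)
      (h2.mono fun x hx hxx => hx hxx.1)
  rw [Finset.sum_map] at e2
  have hset : ∀ ψ : ℂ ≃ᵢ ℂ, volume.real (Ω ∩ Metric.ball c ρ ∩ ψ.symm ⁻¹' Ω') =
      volume.real (Ω' ∩ Metric.ball (ψ.symm c) ρ ∩ ψ ⁻¹' Ω) := by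
    intro ψ
    rw [measureReal_def, measureReal_def, ← iso_vol ψ]
    congr 2
    ext y
    simp only [mem_preimage, mem_inter_iff, ψ.symm_apply_apply, Metric.mem_ball]
    have : dist (ψ y) c = dist y (ψ.symm c) := by
      rw [← ψ.dist_eq y, ψ.apply_symm_apply]
    rw [this]; tauto
  have key : ∀ ψ ∈ Φ, k ψ ^ 2 * volume.real (Ω ∩ Metric.ball c ρ ∩ ψ.symm ⁻¹' Ω') =
      ∑ c' ∈ S, k ψ ^ 2 * volume.real (Ω' ∩ Metric.ball c' ρ ∩ ψ ⁻¹' Ω) := by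
    intro ψ hψΦ
    by_cases hk : k ψ = 0
    · simp [hk]
    have hzero : ∀ c' ∈ S, ψ c' ≠ c →
        k ψ ^ 2 * volume.real (Ω' ∩ Metric.ball c' ρ ∩ ψ ⁻¹' Ω) = 0 := by
      intro c' hc' hne
      obtain ⟨-, χ, hχ, hχc⟩ := (hS c').1 hc'
      have h5 : ψ c' ∉ closure Ω := by
        intro h6
        apply hne
        rw [P.link_unique g hχ hk (hScl c' hc') (by rw [hχc]; exact hc) h6, hχc]
      have h6 : Ω' ∩ Metric.ball c' ρ ∩ ψ ⁻¹' Ω = ∅ := by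
        rw [eq_empty_iff_forall_notMem]
        rintro y ⟨⟨-, hy2⟩, hy3⟩
        have h7 := b3 c' hc' ψ hψΦ h5
        rw [eq_empty_iff_forall_notMem] at h7
        exact h7 (ψ y) ⟨by rw [Metric.mem_ball, ψ.dist_eq]; exact hy2, hy3⟩
      rw [h6, measureReal_empty, mul_zero]
    by_cases hcl : ψ.symm c ∈ closure Ω'
    · have hc0 : Corner Ω' (ψ.symm c) :=
        P.link_corner g hk hcl (by rw [ψ.apply_symm_apply]; exact hc)
      have hcS : ψ.symm c ∈ S :=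
        (hS _).2 ⟨(hC' _).2 hc0, ψ, hk, ψ.apply_symm_apply c⟩
      rw [Finset.sum_eq_single (ψ.symm c), hset]
      · intro c' hc' hne
        refine hzero c' hc' fun h => hne ?_
        rw [← h, ψ.symm_apply_apply]
      · exact fun h => absurd hcS h
    · have h5 : Ω' ∩ Metric.ball (ψ.symm c) ρ ∩ ψ ⁻¹' Ω = ∅ := by
        rw [eq_empty_iff_forall_notMem]
        rintro y ⟨⟨hy1, hy2⟩, -⟩
        have h7 := b4 ψ hψΦ hcl
        rw [eq_empty_iff_forall_notMem] at h7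
        exact h7 y ⟨hy2, hy1⟩
      rw [hset, h5, measureReal_empty, mul_zero]
      symm
      refine Finset.sum_eq_zero fun c' hc' => hzero c' hc' fun h => hcl ?_
      rw [← h, ψ.symm_apply_apply]
      exact hScl c' hc'
  have e3 : ∑ ψ ∈ Φ, k (symEmb ψ).symm ^ 2 *
      volume.real (Ω ∩ Metric.ball c ρ ∩ (symEmb ψ) ⁻¹' Ω') =
      ∑ ψ ∈ Φ, ∑ c' ∈ S, k ψ ^ 2 * volume.real (Ω' ∩ Metric.ball c' ρ ∩ ψ ⁻¹' Ω) := by
    refine Finset.sum_congr rfl fun ψ hψ => ?_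
    rw [symEmb_apply, ← key ψ hψ, IsometryEquiv.symm_symm]
  rw [e3, Finset.sum_comm] at e2
  have e4 : ∑ c' ∈ S, ∑ ψ ∈ Φ, k ψ ^ 2 * volume.real (Ω' ∩ Metric.ball c' ρ ∩ ψ ⁻¹' Ω) =
      ∑ c' ∈ S, m' * (ang Ω' c' * ρ ^ 2 / 2) := by
    refine Finset.sum_congr rfl fun c' hc' => ?_
    rw [← e1, b1 c' hc']
  rw [e4, b2] at e2
  have h9 : ρ ^ 2 / 2 ≠ 0 := by positivity
  have h10 : (∑ c' ∈ S, m' * ang Ω' c') * (ρ ^ 2 / 2) = (m * ang Ω c) * (ρ ^ 2 / 2) := by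
    rw [Finset.sum_mul]
    have : ∀ c' ∈ S, m' * ang Ω' c' * (ρ ^ 2 / 2) = m' * (ang Ω' c' * ρ ^ 2 / 2) :=
      fun c' _ => by ring
    rw [Finset.sum_congr rfl this, ← e2]
    ring
  exact mul_right_cancel₀ h9 h10

/-- The conclusions used by the extremal argument. -/
structure Good (Ω Ω' : Set ℂ) (k : (ℂ ≃ᵢ ℂ) → ℝ) : Prop where
  eq : ∀ ψ, k ψ ≠ 0 → ∀ q' ∈ frontier Ω', ψ q' ∈ frontier Ω → ang Ω' q' = ang Ω (ψ q')
  c1 : ∀ ψ, k ψ ≠ 0 → ∀ q' ∈ Ω', ¬ Corner Ω (ψ q')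
  c2 : ∀ ψ, k ψ ≠ 0 → ∀ q', Corner Ω' q' → ψ q' ∉ Ω

theorem Pl.good (P : Pl Ω Ω' Φ k) (g : Gen Ω) (hex : ∃ ψ, k ψ ≠ 0)
    (harea : volume.real Ω' ≤ volume.real Ω) : Good Ω Ω' k := by
  classical
  have hπ := Real.pi_pos
  obtain ⟨m, m', hm, hmm', h1, h2⟩ := P.mult hex harea
  have hm' : 0 < m' := lt_of_lt_of_le hm hmm'
  set C := P.cp.finite_corners.toFinset with hCdef
  have hC : ∀ c, c ∈ C ↔ Corner Ω c := fun c => by rw [hCdef, Set.Finite.mem_toFinset]; rfl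
  set C' := P.cp'.finite_corners.toFinset with hC'def
  have hC' : ∀ c, c ∈ C' ↔ Corner Ω' c := fun c => by rw [hC'def, Set.Finite.mem_toFinset]; rfl
  set S : ℂ → Finset ℂ := fun c => C'.filter (fun c' => ∃ ψ, k ψ ≠ 0 ∧ ψ c' = c) with hSdef
  have hS : ∀ c c', c' ∈ S c ↔ c' ∈ C' ∧ ∃ ψ, k ψ ≠ 0 ∧ ψ c' = c := fun c c' =>
    Finset.mem_filter
  have hβ : ∀ c' ∈ C', 0 < ang Ω' c' ∧ ang Ω' c' < Real.pi := fun c' hc' =>
    ⟨(P.cp'.ang_frontier ((hC' c').1 hc').1).1, P.cp'.corner_ang ((hC' c').1 hc')⟩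
  have hsum : ∀ c ∈ C, ∑ c' ∈ S c, m' * ang Ω' c' = m * ang Ω c := fun c hc =>
    P.sum_rule g h1 h2 C' hC' ((hC c).1 hc) (S c) (hS c)
  -- each linked angle is at most the angle of the corner
  have hle : ∀ c ∈ C, ∀ c' ∈ S c, ang Ω' c' ≤ ang Ω c := by
    intro c hc c' hc'
    have h3 : m' * ang Ω' c' ≤ ∑ c' ∈ S c, m' * ang Ω' c' :=
      Finset.single_le_sum (f := fun c' => m' * ang Ω' c')
        (fun c'' hc'' => mul_nonneg hm'.le (hβ c'' ((hS c c'').1 hc'').1).1.le) hc'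
    rw [hsum c hc] at h3
    have h4 : 0 < ang Ω c := (P.cp.ang_frontier ((hC c).1 hc).1).1
    have h5 : m * ang Ω c ≤ m' * ang Ω c := mul_le_mul_of_nonneg_right hmm' h4.le
    exact le_of_mul_le_mul_left (h3.trans h5) hm'
  have hne : ∀ c ∈ C, (S c).Nonempty := by
    intro c hc
    by_contra hcon
    rw [Finset.not_nonempty_iff_eq_empty] at hcon
    have h3 := hsum c hc
    rw [hcon, Finset.sum_empty] at h3
    have h4 : 0 < ang Ω c := (P.cp.ang_frontier ((hC c).1 hc).1).1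
    have := mul_pos hm h4
    linarith
  have hterm : ∀ c ∈ C, ∀ c' ∈ S c, Real.pi - ang Ω' c' ≤ ∑ c'' ∈ S c, (Real.pi - ang Ω' c'') := by
    intro c hc c' hc'
    exact Finset.single_le_sum (f := fun c' => Real.pi - ang Ω' c')
      (fun c'' hc'' => by linarith [(hβ c'' ((hS c c'').1 hc'').1).2]) hc'
  have hge : ∀ c ∈ C, Real.pi - ang Ω c ≤ ∑ c' ∈ S c, (Real.pi - ang Ω' c') := by
    intro c hc
    obtain ⟨c', hc'⟩ := hne c hc
    linarith [hterm c hc c' hc', hle c hc c' hc']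
  have hdisj : ∀ c₁ ∈ C, ∀ c₂ ∈ C, c₁ ≠ c₂ → Disjoint (S c₁) (S c₂) := by
    intro c₁ hc₁ c₂ hc₂ hne12
    rw [Finset.disjoint_left]
    intro c' h3 h4
    obtain ⟨h5, ψ, hψ, hψc⟩ := (hS c₁ c').1 h3
    obtain ⟨-, χ, hχ, hχc⟩ := (hS c₂ c').1 h4
    apply hne12
    rw [← hψc, ← hχc]
    exact P.link_unique g hχ hψ (frontier_subset_closure ((hC' c').1 h5).1)
      (by rw [hχc]; exact (hC c₂).1 hc₂)
      (by rw [hψc]; exact frontier_subset_closure ((hC c₁).1 hc₁).1)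
  set U := C.biUnion S with hU
  have hUsub : U ⊆ C' := by
    intro c' hc'
    obtain ⟨c, -, h3⟩ := Finset.mem_biUnion.1 hc'
    exact ((hS c c').1 h3).1
  have hUsum : ∑ c' ∈ U, (Real.pi - ang Ω' c') = ∑ c ∈ C, ∑ c' ∈ S c, (Real.pi - ang Ω' c') :=
    Finset.sum_biUnion (fun c₁ h3 c₂ h4 h5 => hdisj c₁ h3 c₂ h4 h5)
  have gb1 := P.cp.gb_ge C hC
  have gb2 := P.cp'.gb_le C' (fun c hc => ((hC' c).1 hc).1)
  have hle1 : ∑ c' ∈ U, (Real.pi - ang Ω' c') ≤ ∑ c' ∈ C', (Real.pi - ang Ω' c') :=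
    Finset.sum_le_sum_of_subset_of_nonneg hUsub fun c' hc' _ => by linarith [(hβ c' hc').2]
  have hle2 : ∑ c ∈ C, (Real.pi - ang Ω c) ≤ ∑ c ∈ C, ∑ c' ∈ S c, (Real.pi - ang Ω' c') :=
    Finset.sum_le_sum hge
  -- every corner of `Ω'` is linked
  have hall : ∀ c' ∈ C', c' ∈ U := by
    intro c' hc'
    by_contra hcon
    have h3 : ∑ c'' ∈ insert c' U, (Real.pi - ang Ω' c'') ≤ ∑ c'' ∈ C', (Real.pi - ang Ω' c'') :=
      Finset.sum_le_sum_of_subset_of_nonneg (Finset.insert_subset hc' hUsub)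
        fun c'' hc'' _ => by linarith [(hβ c'' hc'').2]
    rw [Finset.sum_insert hcon] at h3
    linarith [(hβ c' hc').2]
  -- equality of the linked angles
  have hzero : ∀ c ∈ C, ∑ c' ∈ S c, (Real.pi - ang Ω' c') - (Real.pi - ang Ω c) = 0 := by
    have h3 : ∑ c ∈ C, (∑ c' ∈ S c, (Real.pi - ang Ω' c') - (Real.pi - ang Ω c)) = 0 := by
      rw [Finset.sum_sub_distrib]; linarith
    exact (Finset.sum_eq_zero_iff_of_nonneg fun c hc => by linarith [hge c hc]).1 h3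
  have heq : ∀ c ∈ C, ∀ c' ∈ S c, ang Ω' c' = ang Ω c := by
    intro c hc c' hc'
    have h3 := hzero c hc
    have h4 := hterm c hc c' hc'
    have h5 := hle c hc c' hc'
    linarith
  -- angles at corners of `Ω'` are not commensurable with `π`
  have hncomm : ∀ c', Corner Ω' c' → ¬ Comm (ang Ω' c') Real.pi := by
    intro c' hc' h3
    obtain ⟨c, hc, h4⟩ := Finset.mem_biUnion.1 (hall c' ((hC' c').2 hc'))
    rw [heq c hc c' h4] at h3
    exact g.not_comm ((hC c).1 hc) h3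
  refine ⟨?_, ?_, ?_⟩
  · intro ψ hψ q' hq' hq
    by_cases h3 : Corner Ω (ψ q')
    · have h4 := P.link_corner g hψ (frontier_subset_closure hq') h3
      exact heq (ψ q') ((hC _).2 h3) q' ((hS _ _).2 ⟨(hC' _).2 h4, ψ, hψ, rfl⟩)
    · rw [P.cp.ang_flat hq h3]
      by_cases h4 : Corner Ω' q'
      · exfalso
        have h5 : Comm (ang Ω' q') (ang Ω (ψ q')) :=
          P.commens hψ (frontier_subset_closure hq') (frontier_subset_closure hq)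
        rw [P.cp.ang_flat hq h3] at h5
        exact hncomm q' h4 h5
      · exact P.cp'.ang_flat hq' h4
  · intro ψ hψ q' hq' h3
    have h4 := P.link_corner g hψ (subset_closure hq') h3
    exact P.cp'.notMem_of_frontier h4.1 hq'
  · intro ψ hψ q' hq' h3
    have h5 : Comm (ang Ω' q') (ang Ω (ψ q')) :=
      P.commens hψ (frontier_subset_closure hq'.1) (subset_closure h3)
    rw [P.cp.ang_interior h3] at h5
    exact hncomm q' hq' (h5.trans comm_two_pi)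

end Pool.Agent.Helper2Poly
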