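import Pool.Agent.Helper2_Poly.Extr
import Pool.Agent.Helper2_Poly.Link

/-!
# All visible placements are congruences
-/

open Complex ComplexConjugate Set Filter Topology MeasureTheory
open Pool.Agent.Helper2Drum Pool.Agent.Helper2Transp

namespace Pool.Agent.Helper2Poly

/-- Isometries transport normal coordinates. -/
lemma iso_nc (g : ℂ ≃ᵢ ℂ) {u : ℂ} (hu : ‖u‖ = 1) :
    ∃ u₁ : ℂ, ‖u₁‖ = 1 ∧ ∀ x y, nc (g x) u₁ 1 (g y) = nc x u 1 y := by
  obtain ⟨u₂, e₂, hu₂, he₂, htr⟩ := transport g hu (e := 1) (Or.inl rfl)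
  have key : ∀ x y, nc (g x) u₂ e₂ (g y) = nc x u 1 y := by
    intro x y
    by_cases hy : y = x
    · rw [hy, nc_self, nc_self]
    · obtain ⟨θ, -, -, hθ⟩ := polar hy hu (e := 1) (Or.inl rfl)
      have h4 : g y = pt (g x) u₂ e₂ (dist y x) θ := by
        conv_lhs => rw [hθ]
        exact htr _ _ _
      rw [h4, nc_pt (g x) hu₂ he₂]
      conv_rhs => rw [hθ]
      rw [nc_pt x hu (Or.inl rfl)]
  rcases he₂ with rfl | rfl
  · exact ⟨u₂, hu₂, key⟩
  · refine ⟨-u₂, by rw [norm_neg]; exact hu₂, fun x y => ?_⟩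
    rw [← key x y]
    have := nc_flip (g x) u₂ (-1) (g y)
    rw [neg_neg] at this
    exact this

lemma mem_image_iso {g : ℂ ≃ᵢ ℂ} {Ω : Set ℂ} {y : ℂ} : y ∈ g '' Ω ↔ g.symm y ∈ Ω := by
  constructor
  · rintro ⟨x, hx, rfl⟩
    rwa [g.symm_apply_apply]
  · intro h
    exact ⟨g.symm y, h, g.apply_symm_apply y⟩

lemma CP.image {Ω : Set ℂ} (h : CP Ω) (g : ℂ ≃ᵢ ℂ) : CP (g '' Ω) := by
  classical
  refine ⟨?_, h.ne.image g, ?_⟩
  · obtain ⟨R, hR⟩ := h.bdd.subset_closedBall (g.symm 0)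
    refine (Metric.isBounded_closedBall (x := (0 : ℂ)) (r := R)).subset ?_
    rintro y ⟨x, hx, rfl⟩
    have h1 := hR hx
    rw [Metric.mem_closedBall] at h1 ⊢
    rwa [← g.dist_eq, g.apply_symm_apply] at h1
  · obtain ⟨L, hL, hΩ⟩ := h.half
    have hex : ∀ u : ℂ, ‖u‖ = 1 → ∃ u₁ : ℂ, ‖u₁‖ = 1 ∧
        ∀ x y, nc (g x) u₁ 1 (g y) = nc x u 1 y := fun u hu => iso_nc g hu
    choose! τ hτ1 hτ2 using hex
    refine ⟨L.image fun l => (g l.1, τ l.2), ?_, ?_⟩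
    · intro l hl
      obtain ⟨l', hl', rfl⟩ := Finset.mem_image.1 hl
      exact hτ1 _ (hL l' hl')
    · ext y
      rw [mem_image_iso, hΩ]
      simp only [mem_ofPred_eq]
      constructor
      · intro h1 l hl
        obtain ⟨l', hl', rfl⟩ := Finset.mem_image.1 hl
        have h2 := h1 l' hl'
        rw [← hτ2 l'.2 (hL l' hl') l'.1, g.apply_symm_apply] at h2
        exact h2
      · intro h1 l hl
        have h2 := h1 (g l.1, τ l.2) (Finset.mem_image.2 ⟨l, hl, rfl⟩)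
        rw [← hτ2 l.2 (hL l hl) l.1, g.apply_symm_apply]
        exact h2

/-- Flat points of the image come from flat points. -/
lemma flat_image {Ω : Set ℂ} {g : ℂ ≃ᵢ ℂ} {p d : ℂ} (hd : ‖d‖ = 1)
    (hfl : FlatAt (g '' Ω) p d 1) : ∃ d₁ : ℂ, ‖d₁‖ = 1 ∧ FlatAt Ω (g.symm p) d₁ 1 ∧
      ∀ y, nc (g.symm p) d₁ 1 (g.symm y) = nc p d 1 y := by
  obtain ⟨d₁, hd₁, h1⟩ := iso_nc g.symm hd
  refine ⟨d₁, hd₁, ?_, fun y => h1 p y⟩
  have h2 : Tendsto g (𝓝 (g.symm p)) (𝓝 p) := by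
    have := g.continuous.tendsto (g.symm p)
    rwa [g.apply_symm_apply] at this
  filter_upwards [h2.eventually hfl] with x hx
  rw [mem_image_iso, g.symm_apply_apply] at hx
  rw [hx, ← h1 p (g x), g.symm_apply_apply]

lemma flat_image' {Ω : Set ℂ} {g : ℂ ≃ᵢ ℂ} {q d : ℂ} (hd : ‖d‖ = 1)
    (hfl : FlatAt Ω q d 1) : ∃ d₁ : ℂ, ‖d₁‖ = 1 ∧ FlatAt (g '' Ω) (g q) d₁ 1 := by
  obtain ⟨d₁, hd₁, h1⟩ := iso_nc g hd
  refine ⟨d₁, hd₁, ?_⟩
  have h2 : Tendsto g.symm (𝓝 (g q)) (𝓝 q) := by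
    have := g.symm.continuous.tendsto (g q)
    rwa [g.symm_apply_apply] at this
  filter_upwards [h2.eventually hfl] with x hx
  rw [mem_image_iso, hx, ← h1 q (g.symm x), g.apply_symm_apply]

lemma frontier_image_iso {Ω : Set ℂ} (g : ℂ ≃ᵢ ℂ) {q : ℂ} :
    q ∈ frontier (g '' Ω) ↔ g.symm q ∈ frontier Ω := by
  have h1 : g '' Ω = g.symm ⁻¹' Ω := by
    ext y
    rw [mem_image_iso, mem_preimage]
  rw [h1]
  have h2 := g.symm.toHomeomorph.preimage_frontier Ω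
  have h3 : (g.symm.toHomeomorph : ℂ → ℂ) = g.symm := rfl
  rw [h3] at h2
  rw [← h2, mem_preimage]

lemma corner_image {Ω : Set ℂ} {g : ℂ ≃ᵢ ℂ} {q : ℂ} (h : Corner (g '' Ω) q) :
    Corner Ω (g.symm q) := by
  refine ⟨(frontier_image_iso g).1 h.1, ?_⟩
  rintro ⟨u, hu, hfl⟩
  obtain ⟨d₁, hd₁, h1⟩ := flat_image' (g := g) hu hfl
  rw [g.apply_symm_apply] at h1
  exact h.2 ⟨d₁, hd₁, h1⟩

lemma ang_image {Ω : Set ℂ} (h : CP Ω) (g : ℂ ≃ᵢ ℂ) {q : ℂ} (hq : g.symm q ∈ frontier Ω) :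
    ang (g '' Ω) q = ang Ω (g.symm q) := by
  obtain ⟨h1, -, h3⟩ := h.ang_frontier hq
  refine ang_eq h1.le ?_
  obtain ⟨r, hr, h4⟩ := h3
  refine ⟨r, hr, fun ρ hρ hρr => ?_⟩
  rw [← h4 ρ hρ hρr, ← iso_vol g]
  congr 1
  ext y
  simp only [mem_preimage, mem_inter_iff, Metric.mem_ball, mem_image_iso, g.symm_apply_apply]
  have : dist (g y) q = dist y (g.symm q) := by
    rw [← g.dist_eq y, g.apply_symm_apply]
  rw [this]

/-- Distances after a reflection. -/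
lemma dist_refl_sq {p u : ℂ} (hu : ‖u‖ = 1) (a w : ℂ) :
    dist (refl p u hu a) w ^ 2 - dist a w ^ 2 = 4 * (nc p u 1 a * nc p u 1 w) := by
  have hu0 := ne_zero_of_norm hu
  have h1 : ∀ z v : ℂ, dist z v ^ 2 = Complex.normSq ((z - p) / u - (v - p) / u) := by
    intro z v
    rw [← sub_div, Complex.normSq_eq_norm_sq, norm_div, hu, div_one, dist_eq_norm]
    congr 2; ring
  rw [h1, h1]
  have h2 : (refl p u hu a - p) / u = conj ((a - p) / u) := by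
    rw [refl_apply]
    unfold rmap
    rw [add_sub_cancel_left, mul_div_cancel_left₀ _ hu0]
  rw [h2]
  unfold nc
  set A := (a - p) / u
  set W := (w - p) / u
  simp only [Complex.normSq_apply, Complex.sub_re, Complex.sub_im, Complex.conj_re,
    Complex.conj_im]
  ring

variable {Ω Ω' : Set ℂ} {Φ : Finset (ℂ ≃ᵢ ℂ)} {k : (ℂ ≃ᵢ ℂ) → ℝ}

/-- Every visible placement is a congruence. -/
theorem Pl.congr (P : Pl Ω Ω' Φ k) (G : Good Ω Ω' k) : ∀ ψ, k ψ ≠ 0 → ψ '' Ω' = Ω := by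
  classical
  by_contra hcon
  push Not at hcon
  obtain ⟨ψ₀, hψ₀, hψ₀'⟩ := hcon
  obtain ⟨w, hw⟩ := P.cp.ne
  obtain ⟨w', hw'⟩ := P.cp'.ne
  set S : Finset (ℂ ≃ᵢ ℂ) := Φ.filter (fun ψ => k ψ ≠ 0 ∧ ψ '' Ω' ≠ Ω) with hS
  have hmem : ∀ ψ, k ψ ≠ 0 → ψ '' Ω' ≠ Ω → ψ ∈ S := fun ψ h1 h2 => by
    rw [hS, Finset.mem_filter]; exact ⟨P.mem ψ h1, h1, h2⟩
  obtain ⟨ψ, hψS, hmax⟩ := S.exists_max_image (fun ψ => dist (ψ w') w) ⟨ψ₀, hmem ψ₀ hψ₀ hψ₀'⟩
  obtain ⟨-, hψ, hψ'⟩ := Finset.mem_filter.1 hψS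
  -- the key inequality
  have hA : ∀ p ∈ ψ '' Ω', ∀ d, ‖d‖ = 1 → FlatAt Ω p d 1 → nc 0 d 1 (ψ w' - w) < 0 := by
    intro p hp d hd hfl
    obtain ⟨z, hz, rfl⟩ := hp
    have h1 := P.r1 ψ hψ z hz d hd hfl
    have h2 : k (ψ.trans (refl (ψ z) d hd)) ≠ 0 := by rw [h1]; exact neg_ne_zero.2 hψ
    have h3 : (ψ.trans (refl (ψ z) d hd)) '' Ω' ≠ Ω := by
      intro h4
      have h5 : (ψ.trans (refl (ψ z) d hd)) z ∈ Ω := by rw [← h4]; exact ⟨z, hz, rfl⟩
      rw [IsometryEquiv.trans_apply, refl_self] at h5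
      exact P.cp.notMem_of_frontier (hfl.frontier P.cp.isOpen hd (Or.inl rfl)) h5
    have h4 := hmax _ (hmem _ h2 h3)
    rw [IsometryEquiv.trans_apply] at h4
    have h5 := dist_refl_sq (p := ψ z) hd (ψ w') w
    have h6 : dist (refl (ψ z) d hd (ψ w')) w ^ 2 ≤ dist (ψ w') w ^ 2 :=
      pow_le_pow_left₀ dist_nonneg h4 2
    have h7 : 0 < nc (ψ z) d 1 w := P.cp.supp hd (Or.inl rfl) hfl hw
    have h8 : nc (ψ z) d 1 (ψ w') * nc (ψ z) d 1 w ≤ 0 := by linarith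
    have h9 : nc (ψ z) d 1 (ψ w') ≤ 0 := by
      by_contra hc
      push Not at hc
      have := mul_pos hc h7
      linarith
    have h10 : nc 0 d 1 (ψ w' - w) = nc (ψ z) d 1 (ψ w') - nc (ψ z) d 1 w := by
      unfold nc
      rw [sub_zero]
      have : (ψ w' - w) / d = (ψ w' - ψ z) / d - (w - ψ z) / d := by
        rw [← sub_div]; congr 1; ring
      rw [this, Complex.sub_im]; ring
    rw [h10]; linarith
  have hB : ∀ p ∈ Ω, ∀ d, ‖d‖ = 1 → FlatAt (ψ '' Ω') p d 1 → 0 < nc 0 d 1 (ψ w' - w) := by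
    intro p hp d hd hfl
    obtain ⟨d₁, hd₁, hfl₁, hnc⟩ := flat_image hd hfl
    set z := ψ.symm p with hz
    have hψz : ψ z = p := ψ.apply_symm_apply p
    have h1 := P.r2 ψ hψ z (by rw [hψz]; exact hp) d₁ hd₁ hfl₁
    have h2 : k ((refl z d₁ hd₁).trans ψ) ≠ 0 := by rw [h1]; exact neg_ne_zero.2 hψ
    have h3 : ((refl z d₁ hd₁).trans ψ) '' Ω' ≠ Ω := by
      intro h4
      have h5 : p ∈ ((refl z d₁ hd₁).trans ψ) '' Ω' := by rw [h4]; exact hp
      obtain ⟨y, hy, hy'⟩ := h5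
      rw [IsometryEquiv.trans_apply] at hy'
      have h6 : refl z d₁ hd₁ y = z := by
        apply ψ.injective
        rw [hy', hψz]
      have h7 : y = z := by
        rw [← refl_refl (p := z) hd₁ y, h6, refl_self]
      rw [h7] at hy
      exact P.cp'.notMem_of_frontier (hfl₁.frontier P.cp'.isOpen hd₁ (Or.inl rfl)) hy
    have h4 := hmax _ (hmem _ h2 h3)
    rw [IsometryEquiv.trans_apply] at h4
    have h4' : dist (refl z d₁ hd₁ w') (ψ.symm w) ≤ dist w' (ψ.symm w) := by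
      rw [← ψ.dist_eq, ← ψ.dist_eq w', ψ.apply_symm_apply]
      exact h4
    have h5 := dist_refl_sq (p := z) hd₁ w' (ψ.symm w)
    have h6 : dist (refl z d₁ hd₁ w') (ψ.symm w) ^ 2 ≤ dist w' (ψ.symm w) ^ 2 :=
      pow_le_pow_left₀ dist_nonneg h4' 2
    have h7 : 0 < nc z d₁ 1 w' := P.cp'.supp hd₁ (Or.inl rfl) hfl₁ hw'
    have h8 : nc z d₁ 1 w' * nc z d₁ 1 (ψ.symm w) ≤ 0 := by linarith
    have h9 : nc z d₁ 1 (ψ.symm w) ≤ 0 := by
      by_contra hc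
      push Not at hc
      have := mul_pos h7 hc
      linarith
    have h11 : nc p d 1 w ≤ 0 := by rw [← hnc]; exact h9
    have h12 : 0 < nc p d 1 (ψ w') := by rw [← hnc, ψ.symm_apply_apply]; exact h7
    have h10 : nc 0 d 1 (ψ w' - w) = nc p d 1 (ψ w') - nc p d 1 w := by
      unfold nc
      rw [sub_zero]
      have : (ψ w' - w) / d = (ψ w' - p) / d - (w - p) / d := by
        rw [← sub_div]; congr 1; ring
      rw [this, Complex.sub_im]; ring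
    rw [h10]; linarith
  have E : Ext Ω (ψ '' Ω') (ψ w' - w) :=
    { cx := P.cp
      cy := P.cp'.image ψ
      eq := fun q h1 h2 => by
        have h3 := (frontier_image_iso ψ).1 h2
        rw [ang_image P.cp' ψ h3]
        have h4 := G.eq ψ hψ (ψ.symm q) h3 (by rw [ψ.apply_symm_apply]; exact h1)
        rw [ψ.apply_symm_apply] at h4
        exact h4.symm
      c1 := fun q hq => by
        have h1 := G.c1 ψ hψ (ψ.symm q) (mem_image_iso.1 hq)
        rwa [ψ.apply_symm_apply] at h1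
      c2 := fun q hq hc => by
        have h1 := G.c2 ψ hψ (ψ.symm q) (corner_image hc)
        rw [ψ.apply_symm_apply] at h1
        exact h1 hq
      hA := fun p hp d e hd he hfl => by
        rcases he with rfl | rfl
        · exact hA p hp d hd hfl
        · have h1 := hfl.flip
          rw [neg_neg] at h1
          have h2 := hA p hp (-d) (by rw [norm_neg]; exact hd) h1
          rwa [nc_neg_dir, ← nc_neg_sign] at h2
      hB := fun p hp d e hd he hfl => by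
        rcases he with rfl | rfl
        · exact hB p hp d hd hfl
        · have h1 := hfl.flip
          rw [neg_neg] at h1
          have h2 := hB p hp (-d) (by rw [norm_neg]; exact hd) h1
          rwa [nc_neg_dir, ← nc_neg_sign] at h2 }
  obtain ⟨x, hx, hx'⟩ := P.vis ψ hψ
  exact hψ' (E.eq_sets ⟨ψ x, hx', x, hx, rfl⟩).symm

/-- The main rigidity statement for placements. -/
theorem Pl.main (P : Pl Ω Ω' Φ k) (g : Gen Ω) (hex : ∃ ψ, k ψ ≠ 0)
    (harea : volume.real Ω' ≤ volume.real Ω) : ∀ ψ, k ψ ≠ 0 → ψ '' Ω' = Ω :=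
  P.congr (P.good g hex harea)

end Pool.Agent.Helper2Poly
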