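import Pool.Agent.Helper2_Poly.Sector

/-!
# Sum of the exterior angles of a convex polygon
-/

open Complex ComplexConjugate Set Filter Topology MeasureTheory
open Pool.Agent.Helper2Drum Pool.Agent.Helper2Transp

namespace Pool.Agent.Helper2Poly

/-- Normal cone. -/
def NCone (Ω : Set ℂ) (c : ℂ) : Set ℂ := {v | ∀ x ∈ Ω, (conj v * (x - c)).re ≤ 0}

lemma CP.dirs {Ω : Set ℂ} (h : CP Ω) : ∃ D : Finset ℂ, (∀ u ∈ D, ‖u‖ = 1) ∧
    ∀ q ∈ frontier Ω, ∀ u, ‖u‖ = 1 → FlatAt Ω q u 1 → u ∈ D := by
  classical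
  obtain ⟨L, hL, hΩ⟩ := h.half
  refine ⟨L.image Prod.snd, ?_, ?_⟩
  · intro u hu
    obtain ⟨l, hl, rfl⟩ := Finset.mem_image.1 hu
    exact hL l hl
  · intro q hq u hu hfl
    have hex : ∃ l ∈ L, nc l.1 l.2 1 q = 0 := by
      by_contra hcon
      push Not at hcon
      apply h.notMem_of_frontier hq
      rw [hΩ]
      intro l hl
      have h1 : 0 ≤ nc l.1 l.2 1 q := by
        have : closure Ω ⊆ {z | 0 ≤ nc l.1 l.2 1 z} := by
          refine closure_minimal ?_ (isClosed_le continuous_const (continuous_nc _ _ _))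
          rw [hΩ]
          exact fun z hz => (hz l hl).le
        exact this (h.closure_of_frontier hq)
      exact lt_of_le_of_ne h1 (Ne.symm (hcon l hl))
    obtain ⟨l, hl, hl0⟩ := hex
    rw [Finset.mem_image]
    refine ⟨l, hl, ?_⟩
    symm
    refine flat_unique hu (hL l hl) hfl (Eventually.of_forall fun x hx => ?_)
    rw [nc_congr l.1 l.2 1 hl0 (Or.inl rfl)]
    rw [hΩ] at hx
    exact hx l hl

lemma dot_null {w : ℂ} (hw : w ≠ 0) : ∀ᵐ v : ℂ, (conj v * w).re ≠ 0 := by
  have hn : 0 < ‖w‖ := norm_pos_iff.2 hw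
  have hnC : (‖w‖ : ℂ) ≠ 0 := by exact_mod_cast hn.ne'
  set u : ℂ := I * (w / ‖w‖) with hu
  have hun : ‖u‖ = 1 := by
    rw [hu, norm_mul, Complex.norm_I, norm_div, Complex.norm_real, norm_norm, div_self hn.ne',
      mul_one]
  have hu0 := ne_zero_of_norm hun
  filter_upwards [nc_null 0 u hun] with v hv h0
  apply hv
  unfold nc
  rw [sub_zero, one_mul]
  have h1 : v / u = v * conj u := by
    rw [div_eq_iff hu0, mul_assoc, mul_comm (conj u) u, Complex.mul_conj,
      Complex.normSq_eq_norm_sq, hun]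
    simp
  have h2 : (v * conj w).re = 0 := by
    have : v * conj w = conj (conj v * w) := by rw [map_mul, Complex.conj_conj]
    rw [this, Complex.conj_re]; exact h0
  have h3 : v * conj u = -I * (v * conj w) / ‖w‖ := by
    rw [hu, map_mul, map_div₀, Complex.conj_I, Complex.conj_ofReal]
    ring
  rw [h1, h3]
  have h4 : -I * (v * conj w) / (‖w‖ : ℂ) = -I * (v * conj w) * ((‖w‖⁻¹ : ℝ) : ℂ) := by
    push_cast
    rw [div_eq_mul_inv]
  rw [h4, Complex.im_mul_ofReal, neg_mul, Complex.neg_im, Complex.I_mul_im, h2]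
  simp

lemma CP.mem_of_seg {Ω : Set ℂ} (h : CP Ω) {q z : ℂ} (hq : q ∈ closure Ω) (hz : z ∈ Ω) {t : ℝ}
    (h0 : 0 < t) (h1 : t ≤ 1) : q + (t : ℂ) * (z - q) ∈ Ω := by
  have h2 := h.convex.openSegment_closure_interior_subset_interior hq
    (by rw [h.isOpen.interior_eq]; exact hz : z ∈ interior Ω)
  rw [h.isOpen.interior_eq] at h2
  rcases h1.eq_or_lt with rfl | h1
  · simpa using hz
  · apply h2
    refine ⟨1 - t, t, by linarith, h0, by ring, ?_⟩
    simp only [Complex.real_smul]
    push_cast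
    ring

/-- All inner directions lie in the window of a sector. -/
lemma Sec.dir {Ω : Set ℂ} (h : CP Ω) {q d : ℂ} {e a b r : ℝ} (hs : Sec Ω q d e a b r)
    (hq : q ∈ closure Ω) {t θ : ℝ} (ht : 0 < t) (h1 : -Real.pi < θ) (h2 : θ ≤ Real.pi)
    (hz : pt q d e t θ ∈ Ω) : a < θ ∧ θ < b := by
  set ε := min 1 (r / (2 * t)) with hε
  have hr := hs.r0
  have hε0 : 0 < ε := lt_min one_pos (by positivity)
  have h3 := h.mem_of_seg hq hz hε0 (min_le_left _ _)
  have h4 : q + (ε : ℂ) * (pt q d e t θ - q) = pt q d e (ε * t) θ := by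
    unfold pt; push_cast; ring
  rw [h4] at h3
  have h5 : ε * t < r := by
    have : ε * t ≤ r / (2 * t) * t := by gcongr; exact min_le_right _ _
    have h6 : r / (2 * t) * t = r / 2 := by field_simp
    linarith
  exact (hs.iff (ε * t) θ (by positivity) h5 h1 h2).1 h3

lemma CP.vol_ncone {Ω : Set ℂ} (h : CP Ω) {c : ℂ} (hc : c ∈ frontier Ω) :
    volume (NCone Ω c ∩ Metric.ball 0 1) = ENNReal.ofReal ((Real.pi - ang Ω c) / 2) := by
  have hπ := Real.pi_pos
  have hcn := h.notMem_of_frontier hc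
  obtain ⟨z, hz⟩ := h.ne
  obtain ⟨d, hd, hpos, hpt⟩ := h.inner_dir hcn hz 1
  obtain ⟨a, b, r, hs⟩ := h.exists_sec hc hd (Or.inl rfl) hpos (by rw [hpt]; exact hz)
  rw [hs.ang hcn]
  have hd' : ‖-d‖ = 1 := by rw [norm_neg]; exact hd
  obtain ⟨g, hg0, hg⟩ := exists_frame_iso 0 hd' (e := 1) (Or.inl rfl)
  have ha0 := hs.a0
  have hb0 := hs.b0
  have hba := hs.ba
  have hdot : ∀ s φ t θ : ℝ, (conj (pt 0 (-d) 1 s φ) * (pt c d 1 t θ - c)).re =
      -(s * t * Real.cos (θ - φ)) := by
    intro s φ t θ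
    have hdd : conj d * d = 1 := by
      rw [mul_comm, Complex.mul_conj, Complex.normSq_eq_norm_sq, hd]; simp
    have h1 : conj (pt 0 (-d) 1 s φ) * (pt c d 1 t θ - c) =
        -((s * t : ℝ) : ℂ) * cexp (((θ - φ : ℝ) : ℂ) * I) := by
      unfold pt dr
      rw [zero_add, add_sub_cancel_left, map_mul, map_mul, map_neg, Complex.conj_ofReal,
        ← Complex.exp_conj, map_mul, Complex.conj_ofReal, Complex.conj_I]
      have h2 : cexp (((θ - φ : ℝ) : ℂ) * I) =
          cexp (((1 * φ : ℝ) : ℂ) * -I) * cexp (((1 * θ : ℝ) : ℂ) * I) := by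
        rw [← Complex.exp_add]; congr 1; push_cast; ring
      rw [h2]
      push_cast
      linear_combination (-(s : ℂ) * t * cexp (1 * (φ : ℂ) * -I) * cexp (1 * (θ : ℂ) * I)) * hdd
    rw [h1, neg_mul, Complex.neg_re, Complex.re_ofReal_mul, Complex.exp_ofReal_mul_I_re]
  -- membership in terms of the angle
  have hmem : ∀ s φ : ℝ, 0 < s → -Real.pi < φ → φ ≤ Real.pi →
      (pt 0 (-d) 1 s φ ∈ NCone Ω c ↔ φ ∈ Icc (b - Real.pi / 2) (a + Real.pi / 2)) := by
    intro s φ hs0 h1 h2
    constructor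
    · intro hN
      have key : ∀ θ, a < θ → θ < b → 0 ≤ Real.cos (θ - φ) := by
        intro θ h3 h4
        have h5 : pt c d 1 (r / 2) θ ∈ Ω :=
          (hs.iff (r / 2) θ (by linarith [hs.r0]) (by linarith [hs.r0]) (by linarith)
            (by linarith)).2 ⟨h3, h4⟩
        have h6 := hN _ h5
        rw [hdot] at h6
        have h7 : 0 < s * (r / 2) := by have := hs.r0; positivity
        by_contra hcon
        push Not at hcon
        have := mul_neg_of_pos_of_neg h7 hcon
        linarith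
      have h0 := key 0 ha0 hb0
      have h3 : -(Real.pi / 2) ≤ φ := by
        by_contra hcon
        push Not at hcon
        have := Real.cos_neg_of_pi_div_two_lt_of_lt (x := 0 - φ) (by linarith) (by linarith)
        linarith
      have h4 : φ ≤ Real.pi / 2 := by
        by_contra hcon
        push Not at hcon
        have := Real.cos_neg_of_pi_div_two_lt_of_lt (x := φ) (by linarith) (by linarith)
        rw [zero_sub, Real.cos_neg] at h0
        linarith
      constructor
      · by_contra hcon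
        push Not at hcon
        have h5 := key ((φ + Real.pi / 2 + b) / 2) (by linarith) (by linarith)
        have := Real.cos_neg_of_pi_div_two_lt_of_lt (x := (φ + Real.pi / 2 + b) / 2 - φ)
          (by linarith) (by linarith)
        linarith
      · by_contra hcon
        push Not at hcon
        have h5 := key ((φ - Real.pi / 2 + a) / 2) (by linarith) (by linarith)
        rw [← Real.cos_neg] at h5
        have := Real.cos_neg_of_pi_div_two_lt_of_lt (x := -((φ - Real.pi / 2 + a) / 2 - φ))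
          (by linarith) (by linarith)
        linarith
    · rintro ⟨h3, h4⟩ x hx
      have hxc : x ≠ c := fun h' => hcn (h' ▸ hx)
      obtain ⟨θ, h5, h6, h7⟩ := polar hxc hd (e := 1) (Or.inl rfl)
      have h8 := hs.dir h (h.closure_of_frontier hc) (dist_pos.2 hxc) h5 h6 (by rw [← h7]; exact hx)
      rw [h7, hdot]
      have h9 : 0 < Real.cos (θ - φ) :=
        Real.cos_pos_of_mem_Ioo ⟨by linarith [h8.1], by linarith [h8.2]⟩
      have h10 : 0 ≤ s * dist x c := by positivity
      have := mul_nonneg h10 h9.le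
      linarith
  have hset : g ⁻¹' (NCone Ω c ∩ Metric.ball 0 1) =
      secJ (Icc (b - Real.pi / 2) (a + Real.pi / 2)) 1 ∪ {0} := by
    ext w
    have hw : w = ((‖w‖ : ℝ) : ℂ) * cexp ((arg w : ℝ) * I) := (Complex.norm_mul_exp_arg_mul_I w).symm
    rw [mem_preimage, mem_union, mem_singleton_iff]
    by_cases h0 : w = 0
    · rw [h0, hg0]
      refine ⟨fun _ => Or.inr rfl, fun _ => ⟨fun x _ => by simp, by simp⟩⟩
    · have hn : 0 < ‖w‖ := norm_pos_iff.2 h0
      have hgw : g w = pt 0 (-d) 1 ‖w‖ (arg w) := by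
        conv_lhs => rw [hw]
        exact hg _ _
      have hdist : dist (g w) 0 = ‖w‖ := by rw [hgw, dist_pt hd' 0 1 hn.le]
      constructor
      · rintro ⟨h1, h2⟩
        left
        rw [hgw, hmem _ _ hn (Complex.neg_pi_lt_arg w) (Complex.arg_le_pi w)] at h1
        rw [Metric.mem_ball, hdist] at h2
        exact ⟨h0, h2, h1⟩
      · rintro (⟨-, h2, h3⟩ | h1)
        · refine ⟨?_, by rw [Metric.mem_ball, hdist]; exact h2⟩
          rw [hgw, hmem _ _ hn (Complex.neg_pi_lt_arg w) (Complex.arg_le_pi w)]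
          exact h3
        · exact absurd h1 h0
  have hun : volume (secJ (Icc (b - Real.pi / 2) (a + Real.pi / 2)) 1 ∪ {0}) =
      volume (secJ (Icc (b - Real.pi / 2) (a + Real.pi / 2)) 1) :=
    le_antisymm ((measure_union_le _ _).trans (by rw [measure_singleton, add_zero]))
      (measure_mono subset_union_left)
  rw [← iso_vol g, hset, hun,
    vol_secJ ?_ measurableSet_Icc zero_le_one, Real.volume_Icc,
    ← ENNReal.ofReal_mul (by positivity)]
  · congr 1; ring
  · intro φ hφ
    exact ⟨by linarith [hφ.1], by linarith [hφ.2]⟩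

lemma isClosed_NCone (Ω : Set ℂ) (c : ℂ) : IsClosed (NCone Ω c) := by
  have : NCone Ω c = ⋂ x ∈ Ω, {v | (conj v * (x - c)).re ≤ 0} := by
    ext v; simp [NCone]
  rw [this]
  refine isClosed_biInter fun x _ => isClosed_le ?_ continuous_const
  exact Complex.continuous_re.comp ((Complex.continuous_conj).mul continuous_const)

lemma vol_ball_one : volume (Metric.ball (0 : ℂ) 1) = ENNReal.ofReal Real.pi := by
  rw [Complex.volume_ball]
  have : (NNReal.pi : ENNReal) = ENNReal.ofReal Real.pi := by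
    rw [← NNReal.coe_real_pi, ENNReal.ofReal_coe_nnreal]
  rw [this]; simp

lemma NCone.closure {Ω : Set ℂ} {c v : ℂ} (hv : v ∈ NCone Ω c) {x : ℂ} (hx : x ∈ _root_.closure Ω) :
    (conj v * (x - c)).re ≤ 0 := by
  have h1 : IsClosed {x | (conj v * (x - c)).re ≤ 0} := by
    refine isClosed_le ?_ continuous_const
    exact Complex.continuous_re.comp (continuous_const.mul (continuous_id.sub continuous_const))
  exact closure_minimal (fun y hy => hv y hy) h1 hx

theorem CP.gb_le {Ω : Set ℂ} (h : CP Ω) (C : Finset ℂ) (hC : ∀ c ∈ C, c ∈ frontier Ω) :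
    ∑ c ∈ C, (Real.pi - ang Ω c) ≤ 2 * Real.pi := by
  have hπ := Real.pi_pos
  have h1 : ∑ c ∈ C, volume (NCone Ω c ∩ Metric.ball 0 1) ≤ volume (Metric.ball (0 : ℂ) 1) := by
    rw [← measure_biUnion_finset₀]
    · exact measure_mono (iUnion₂_subset fun c _ => inter_subset_right)
    · intro c hc c' hc' hne
      have hne' : c' - c ≠ 0 := sub_ne_zero.2 (Ne.symm hne)
      have : (NCone Ω c ∩ Metric.ball 0 1) ∩ (NCone Ω c' ∩ Metric.ball 0 1) ⊆
          {v | ¬ (conj v * (c' - c)).re ≠ 0} := by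
        rintro v ⟨⟨hv, -⟩, hv', -⟩
        have h2 := NCone.closure hv (h.closure_of_frontier (hC c' hc'))
        have h3 := NCone.closure hv' (h.closure_of_frontier (hC c hc))
        have h4 : (conj v * (c - c')).re = -(conj v * (c' - c)).re := by
          rw [← Complex.neg_re]; congr 1; ring
        rw [h4] at h3
        intro h5
        exact h5 (by linarith)
      exact measure_mono_null this (ae_iff.1 (dot_null hne'))
    · intro c _
      exact ((isClosed_NCone Ω c).measurableSet.inter measurableSet_ball).nullMeasurableSet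
  rw [vol_ball_one] at h1
  have h2 : ∑ c ∈ C, volume (NCone Ω c ∩ Metric.ball 0 1) =
      ENNReal.ofReal (∑ c ∈ C, (Real.pi - ang Ω c) / 2) := by
    rw [ENNReal.ofReal_sum_of_nonneg]
    · exact Finset.sum_congr rfl fun c hc => h.vol_ncone (hC c hc)
    · intro c hc
      have := (h.ang_frontier (hC c hc)).2.1
      linarith
  rw [h2, ENNReal.ofReal_le_ofReal_iff hπ.le, ← Finset.sum_div] at h1
  linarith

theorem CP.gb_ge {Ω : Set ℂ} (h : CP Ω) (C : Finset ℂ) (hC : ∀ c, c ∈ C ↔ Corner Ω c) :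
    2 * Real.pi ≤ ∑ c ∈ C, (Real.pi - ang Ω c) := by
  have hπ := Real.pi_pos
  obtain ⟨D, hD1, hD2⟩ := h.dirs
  have hae : ∀ᵐ v : ℂ, v ≠ 0 ∧ ∀ u ∈ D, (conj v * u).re ≠ 0 := by
    have h1 : ∀ᵐ v : ℂ, v ≠ 0 := by
      rw [ae_iff]; push Not; exact measure_singleton 0
    have h2 : ∀ᵐ v : ℂ, ∀ u ∈ D, (conj v * u).re ≠ 0 := by
      rw [Filter.eventually_all_finset]
      exact fun u hu => dot_null (ne_zero_of_norm (hD1 u hu))
    exact h1.and h2
  have hK : IsCompact (closure Ω) :=
    Metric.isCompact_of_isClosed_isBounded isClosed_closure h.bdd.closure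
  have hcover : ∀ v : ℂ, v ≠ 0 → (∀ u ∈ D, (conj v * u).re ≠ 0) → ∃ c ∈ C, v ∈ NCone Ω c := by
    intro v hv0 hvD
    have hcont : Continuous fun x : ℂ => (conj v * x).re :=
      Complex.continuous_re.comp (continuous_const.mul continuous_id)
    obtain ⟨q, hq, hmax⟩ := hK.exists_isMaxOn h.ne.closure hcont.continuousOn
    have hmax' : ∀ x ∈ Ω, (conj v * (x - q)).re ≤ 0 := by
      intro x hx
      have := hmax (subset_closure hx)
      simp only [mem_ofPred_eq] at this
      rw [mul_sub, Complex.sub_re]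
      linarith
    have hqΩ : q ∉ Ω := by
      intro hqΩ
      have hc1 : Continuous fun t : ℝ => q + (t : ℂ) * v := by fun_prop
      have h1 : ∀ᶠ t : ℝ in 𝓝[>] (0 : ℝ), q + (t : ℂ) * v ∈ Ω := by
        have := hc1.tendsto 0
        simp only [Complex.ofReal_zero, zero_mul, add_zero] at this
        exact (this.mono_left nhdsWithin_le_nhds).eventually (h.isOpen.mem_nhds hqΩ)
      have h2 : ∀ᶠ t : ℝ in 𝓝[>] (0 : ℝ), 0 < t := self_mem_nhdsWithin
      obtain ⟨t, h3, h4⟩ := (h1.and h2).exists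
      have h5 := hmax' _ h3
      have h6 : conj v * (q + (t : ℂ) * v - q) = ((t * ‖v‖ ^ 2 : ℝ) : ℂ) := by
        have : conj v * v = ((‖v‖ ^ 2 : ℝ) : ℂ) := by
          rw [mul_comm, Complex.mul_conj, Complex.normSq_eq_norm_sq]
        rw [add_sub_cancel_left]
        push_cast at this ⊢
        linear_combination (t : ℂ) * this
      rw [h6, Complex.ofReal_re] at h5
      have : 0 < ‖v‖ := norm_pos_iff.2 hv0
      have : 0 < t * ‖v‖ ^ 2 := by positivity
      linarith
    have hqf : q ∈ frontier Ω := by rw [h.isOpen.frontier_eq]; exact ⟨hq, hqΩ⟩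
    refine ⟨q, (hC q).2 ⟨hqf, ?_⟩, hmax'⟩
    rintro ⟨u, hu, hfl⟩
    apply hvD u (hD2 q hqf u hu hfl)
    -- both directions of the line
    have key : ∀ ε : ℝ, 0 < ε → ∀ s : ℝ, (conj v * ((s : ℂ) * u + (ε : ℂ) * (I * u))).re ≤ 0 := by
      intro ε hε s
      have hc1 : Continuous fun t : ℝ => q + (t : ℂ) * ((s : ℂ) * u + (ε : ℂ) * (I * u)) := by
        fun_prop
      have h1 : ∀ᶠ t : ℝ in 𝓝[>] (0 : ℝ),
          (q + (t : ℂ) * ((s : ℂ) * u + (ε : ℂ) * (I * u)) ∈ Ω ↔
            0 < nc q u 1 (q + (t : ℂ) * ((s : ℂ) * u + (ε : ℂ) * (I * u)))) := by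
        have := hc1.tendsto 0
        simp only [Complex.ofReal_zero, zero_mul, add_zero] at this
        exact (this.mono_left nhdsWithin_le_nhds).eventually hfl
      have h2 : ∀ᶠ t : ℝ in 𝓝[>] (0 : ℝ), 0 < t := self_mem_nhdsWithin
      obtain ⟨t, h3, h4⟩ := (h1.and h2).exists
      have hu0 := ne_zero_of_norm hu
      have h5 : nc q u 1 (q + (t : ℂ) * ((s : ℂ) * u + (ε : ℂ) * (I * u))) = t * ε := by
        unfold nc
        have : (q + (t : ℂ) * ((s : ℂ) * u + (ε : ℂ) * (I * u)) - q) / u =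
            ((t * s : ℝ) : ℂ) + ((t * ε : ℝ) : ℂ) * I := by
          push_cast
          field_simp; ring
        rw [this, one_mul]
        simp
      have h6 := hmax' _ (h3.2 (by rw [h5]; positivity))
      have h7 : conj v * (q + (t : ℂ) * ((s : ℂ) * u + (ε : ℂ) * (I * u)) - q) =
          (t : ℂ) * (conj v * ((s : ℂ) * u + (ε : ℂ) * (I * u))) := by ring
      rw [h7, Complex.re_ofReal_mul] at h6
      by_contra hcon
      push Not at hcon
      have := mul_pos h4 hcon
      linarith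
    have key2 : ∀ s : ℝ, s * (conj v * u).re ≤ 0 := by
      intro s
      refine le_of_forall_pos_le_add fun δ hδ => ?_
      set M := |(conj v * (I * u)).re| + 1 with hM
      have hM0 : 0 < M := by positivity
      have h1 := key (δ / M) (by positivity) s
      have h2 : (conj v * ((s : ℂ) * u + ((δ / M : ℝ) : ℂ) * (I * u))).re =
          s * (conj v * u).re + δ / M * (conj v * (I * u)).re := by
        have : conj v * ((s : ℂ) * u + ((δ / M : ℝ) : ℂ) * (I * u)) =
            (s : ℂ) * (conj v * u) + ((δ / M : ℝ) : ℂ) * (conj v * (I * u)) := by ring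
        rw [this, Complex.add_re, Complex.re_ofReal_mul, Complex.re_ofReal_mul]
      rw [h2] at h1
      have h3 : -(δ / M * (conj v * (I * u)).re) ≤ δ / M * M := by
        rw [← mul_neg]
        gcongr
        have := neg_abs_le (conj v * (I * u)).re
        rw [hM]; linarith
      have h4 : δ / M * M = δ := by field_simp
      linarith
    have h1 := key2 1
    have h2 := key2 (-1)
    linarith
  have h1 : volume (Metric.ball (0 : ℂ) 1) ≤ ∑ c ∈ C, volume (NCone Ω c ∩ Metric.ball 0 1) := by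
    have hsub : Metric.ball (0 : ℂ) 1 ≤ᵐ[volume] ⋃ c ∈ C, NCone Ω c ∩ Metric.ball 0 1 := by
      filter_upwards [hae] with v hv hvb
      obtain ⟨c, hc, hvc⟩ := hcover v hv.1 hv.2
      exact mem_iUnion₂.2 ⟨c, hc, hvc, hvb⟩
    exact (measure_mono_ae hsub).trans (measure_biUnion_finset_le _ _)
  rw [vol_ball_one] at h1
  have h2 : ∑ c ∈ C, volume (NCone Ω c ∩ Metric.ball 0 1) =
      ENNReal.ofReal (∑ c ∈ C, (Real.pi - ang Ω c) / 2) := by
    rw [ENNReal.ofReal_sum_of_nonneg]
    · exact Finset.sum_congr rfl fun c hc => h.vol_ncone ((hC c).1 hc).1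
    · intro c hc
      have := (h.ang_frontier ((hC c).1 hc).1).2.1
      linarith
  have h3 : 0 ≤ ∑ c ∈ C, (Real.pi - ang Ω c) / 2 := by
    refine Finset.sum_nonneg fun c hc => ?_
    have := (h.ang_frontier ((hC c).1 hc).1).2.1
    linarith
  rw [h2, ENNReal.ofReal_le_ofReal_iff h3, ← Finset.sum_div] at h1
  linarith

end Pool.Agent.Helper2Poly
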