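import Pool.Agent.Helper2_Poly.Refl

/-!
# Intertwining operators between convex polygons as placements with weights
-/

open Complex ComplexConjugate Set Filter Topology MeasureTheory InnerProductSpace Laplacian
open scoped ContDiff
open Pool.Agent.Helper2Drum Pool.Agent.Helper2Transp

namespace Pool.Agent.Helper2Poly

/-- Weighted placements of `Ω'` over `Ω` closed under reflections in cutting sides. -/
structure Pl (Ω Ω' : Set ℂ) (Φ : Finset (ℂ ≃ᵢ ℂ)) (k : (ℂ ≃ᵢ ℂ) → ℝ) : Prop where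
  cp : CP Ω
  cp' : CP Ω'
  mem : ∀ φ, k φ ≠ 0 → φ ∈ Φ
  vis : ∀ φ, k φ ≠ 0 → ∃ x ∈ Ω', φ x ∈ Ω
  r1 : ∀ φ, k φ ≠ 0 → ∀ z ∈ Ω', ∀ u (hu : ‖u‖ = 1), FlatAt Ω (φ z) u 1 →
    k (φ.trans (refl (φ z) u hu)) = - k φ
  r2 : ∀ φ, k φ ≠ 0 → ∀ z, φ z ∈ Ω → ∀ u (hu : ‖u‖ = 1), FlatAt Ω' z u 1 →
    k ((refl z u hu).trans φ) = - k φ

section

variable {Ω Ω' : Set ℂ} {Φ : Finset (ℂ ≃ᵢ ℂ)} {c : (ℂ ≃ᵢ ℂ) → ℂ → ℝ}

/-- The constant coefficient. -/
noncomputable def kc (Ω Ω' : Set ℂ) (Φ : Finset (ℂ ≃ᵢ ℂ)) (c : (ℂ ≃ᵢ ℂ) → ℂ → ℝ)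
    (φ : ℂ ≃ᵢ ℂ) : ℝ := by
  classical
  exact if h : φ ∈ Φ ∧ ∃ x ∈ Ω', φ x ∈ Ω then kw (c φ) (Classical.choose h.2) else 0

lemma kc_mem {φ : ℂ ≃ᵢ ℂ} (h : kc Ω Ω' Φ c φ ≠ 0) : φ ∈ Φ ∧ ∃ x ∈ Ω', φ x ∈ Ω := by
  unfold kc at h
  by_contra hcon
  rw [dif_neg hcon] at h
  exact h rfl

lemma kc_spec (T : TrW Ω Ω' Φ c) (hc : Convex ℝ Ω) (hc' : Convex ℝ Ω') {φ : ℂ ≃ᵢ ℂ}
    (hφ : φ ∈ Φ) {x : ℂ} (hx : x ∈ Ω') (hφx : φ x ∈ Ω) : kw (c φ) x = kc Ω Ω' Φ c φ := by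
  have hex : φ ∈ Φ ∧ ∃ x ∈ Ω', φ x ∈ Ω := ⟨hφ, x, hx, hφx⟩
  unfold kc
  rw [dif_pos hex]
  obtain ⟨h1, h2⟩ := Classical.choose_spec hex.2
  have hconv : Convex ℝ (Ω' ∩ φ ⁻¹' Ω) := hc'.inter (convex_preimage_iso hc φ)
  exact const_on hconv.isPreconnected (fun y hy => kw_loc (T.good hφ hy.1 hy.2)) ⟨h1, h2⟩
    ⟨hx, hφx⟩

/-- The operator in its normal form. -/
noncomputable def FF (Ω Ω' : Set ℂ) (Φ : Finset (ℂ ≃ᵢ ℂ)) (c : (ℂ ≃ᵢ ℂ) → ℂ → ℝ) (f : ℂ → ℝ)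
    (x : ℂ) : ℝ := ∑ φ ∈ Φ, kc Ω Ω' Φ c φ * f (φ x)

lemma FF_ae (T : TrW Ω Ω' Φ c) (hc : Convex ℝ Ω) (hc' : Convex ℝ Ω') {f : ℂ → ℝ}
    (hf : ∀ z, z ∉ Ω → f z = 0) :
    ∀ᵐ x, x ∈ Ω' → ∑ φ ∈ Φ, c φ x * f (φ x) = FF Ω Ω' Φ c f x := by
  filter_upwards [T.ae_eq f hf] with x hx hxΩ'
  rw [hx hxΩ']
  refine Finset.sum_congr rfl fun φ hφ => ?_
  by_cases h : φ x ∈ Ω
  · rw [kc_spec T hc hc' hφ hxΩ' h]
  · rw [hf _ h, mul_zero, mul_zero]

lemma continuous_FF {f : ℂ → ℝ} (hf : Continuous f) : Continuous (FF Ω Ω' Φ c f) :=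
  continuous_finsetSum _ fun φ _ => continuous_const.mul (hf.comp φ.continuous)

lemma FF_maps (T : TrW Ω Ω' Φ c) (hc : Convex ℝ Ω) (hc' : Convex ℝ Ω') {f : ℂ → ℝ}
    (hf : DirSmooth Ω f) : ∃ h : ℂ → ℝ, Continuous h ∧ (∀ x, x ∉ Ω' → h x = 0) ∧
      (∀ x ∈ Ω', h x = FF Ω Ω' Φ c f x) ∧ ∀ x ∈ Ω', BdLap h x := by
  obtain ⟨h, hhc, hh0, hae, hT⟩ := T.maps f hf
  refine ⟨h, hhc, hh0, ?_, ?_⟩
  · intro x hx
    have m1 : ∀ᶠ y in 𝓝 x, y ∈ Ω' := T.oΩ'.mem_nhds hx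
    refine lf_eq (x := x) hhc.continuousAt (continuous_FF hf.1).continuousAt ?_
    filter_upwards [lf_of_ae hae, lf_of_ae (FF_ae T hc hc' hf.2.1), lf_of_nhds m1] with y h1 h2 h3
    rw [h1 h3, h2 h3]
  · intro x hx
    obtain ⟨g, hg, hfg⟩ := hf.2.2
    have hlapc : Continuous (Δ g) := by
      have : (Δ g) = fun z => fderiv ℝ (fderiv ℝ g) z 1 1 + fderiv ℝ (fderiv ℝ g) z I I := by
        funext z; exact lap_eq g z
      rw [this]
      have h7 : Continuous (fderiv ℝ (fderiv ℝ g)) :=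
        (hg.fderiv_right (m := ∞) (by simp)).continuous_fderiv (by simp)
      exact ((h7.clm_apply continuous_const).clm_apply continuous_const).add
        ((h7.clm_apply continuous_const).clm_apply continuous_const)
    have hlap : ∀ z ∈ Ω, Δ f z = Δ g z := by
      intro z hz
      have h1 : f =ᶠ[𝓝 z] g := by
        filter_upwards [T.oΩ.mem_nhds hz] with y hy
        exact hfg y hy
      exact (laplacian_congr_nhds h1).self_of_nhds
    have h1 : ∀ φ ∈ Φ, ∀ᶠ y in 𝓝 x,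
        |kc Ω Ω' Φ c φ * Ω.indicator (Δ f) (φ y)| ≤ |kc Ω Ω' Φ c φ| * (|Δ g (φ x)| + 1) := by
      intro φ _
      have h1 : Continuous fun y => |Δ g (φ y)| := (hlapc.comp φ.continuous).abs
      have h2 : |Δ g (φ x)| < |Δ g (φ x)| + 1 := by linarith
      filter_upwards [h1.continuousAt.eventually (gt_mem_nhds h2)] with y hy
      rw [abs_mul]
      refine mul_le_mul_of_nonneg_left ?_ (abs_nonneg _)
      by_cases h3 : φ y ∈ Ω
      · rw [indicator_of_mem h3, hlap _ h3]; exact hy.le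
      · rw [indicator_of_notMem h3, abs_zero]; positivity
    have h2 : ∀ᶠ y in 𝓝 x, ∀ φ ∈ Φ,
        |kc Ω Ω' Φ c φ * Ω.indicator (Δ f) (φ y)| ≤ |kc Ω Ω' Φ c φ| * (|Δ g (φ x)| + 1) := by
      rw [Filter.eventually_all_finset]
      exact h1
    have m1 : ∀ᶠ y in 𝓝 x, y ∈ Ω' := T.oΩ'.mem_nhds hx
    obtain ⟨r, hr, hball⟩ := Metric.eventually_nhds_iff.1 (h2.and m1)
    refine ⟨∑ φ ∈ Φ, |kc Ω Ω' Φ c φ| * (|Δ g (φ x)| + 1), r, hr, fun χ hχ hχc hχt => ?_⟩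
    rw [hT χ hχ hχc fun y hy => (hball (hχt hy)).2, ← Real.norm_eq_abs, ← integral_const_mul]
    have hχi : Integrable (fun y => |χ y|) volume :=
      (hχ.continuous.integrable_of_hasCompactSupport hχc).abs
    refine norm_integral_le_of_norm_le (hχi.const_mul _) ?_
    have h3 := FF_ae T hc hc' (f := Ω.indicator (Δ f)) (fun z hz => indicator_of_notMem hz _)
    filter_upwards [h3] with y hy
    rw [norm_mul, Real.norm_eq_abs, Real.norm_eq_abs]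
    by_cases hyt : y ∈ tsupport χ
    · obtain ⟨h4, h5⟩ := hball (hχt hyt)
      refine mul_le_mul_of_nonneg_right ?_ (abs_nonneg _)
      rw [hy h5]
      unfold FF
      exact (Finset.abs_sum_le_sum_abs _ _).trans (Finset.sum_le_sum h4)
    · rw [image_eq_zero_of_notMem_tsupport hyt, abs_zero, mul_zero, mul_zero]

lemma FF_frontier (T : TrW Ω Ω' Φ c) (hc : Convex ℝ Ω) (hc' : Convex ℝ Ω') {f : ℂ → ℝ}
    (hf : DirSmooth Ω f) {x : ℂ} (hx : x ∈ frontier Ω') : FF Ω Ω' Φ c f x = 0 := by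
  obtain ⟨h, hhc, hh0, hF, -⟩ := FF_maps T hc hc' hf
  rw [T.oΩ'.frontier_eq] at hx
  have h1 : IsClosed {y | h y = FF Ω Ω' Φ c f y} := isClosed_eq hhc (continuous_FF hf.1)
  have h2 : closure Ω' ⊆ {y | h y = FF Ω Ω' Φ c f y} := closure_minimal (fun y hy => hF y hy) h1
  have h3 : h x = FF Ω Ω' Φ c f x := h2 hx.1
  rw [← h3, hh0 x hx.2]

/-- Only two terms matter near a generic point of a mirror. -/
lemma exists_delta (Φ : Finset (ℂ ≃ᵢ ℂ)) (x w : ℂ) :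
    ∃ δ, 0 < δ ∧ ∀ ψ ∈ Φ, ψ x ≠ w → δ < dist (ψ x) w := by
  have h1 : ∀ᶠ δ in 𝓝[>] (0 : ℝ), ∀ ψ ∈ Φ, ψ x ≠ w → δ < dist (ψ x) w := by
    rw [Filter.eventually_all_finset]
    intro ψ _
    by_cases h : ψ x = w
    · exact Filter.Eventually.of_forall fun δ h' => absurd h h'
    · have h2 : 0 < dist (ψ x) w := dist_pos.2 h
      filter_upwards [Ioo_mem_nhdsGT h2] with δ hδ _
      exact hδ.2
  obtain ⟨δ, h2, hδ⟩ := (h1.and (self_mem_nhdsWithin : Ioi (0 : ℝ) ∈ 𝓝[>] 0)).exists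
  exact ⟨δ, hδ, h2⟩

lemma refl_trans_ne {p u : ℂ} (hu : ‖u‖ = 1) (φ : ℂ ≃ᵢ ℂ) : (refl p u hu).trans φ ≠ φ := by
  intro h
  have h1 := congrArg (fun g : ℂ ≃ᵢ ℂ => g (pt p u 1 1 (Real.pi / 2))) h
  simp only [IsometryEquiv.trans_apply] at h1
  have h2 := φ.injective h1
  have h3 := nc_refl hu 1 (p := p) (pt p u 1 1 (Real.pi / 2))
  rw [h2, nc_pt p hu (Or.inl rfl), Real.sin_pi_div_two] at h3
  norm_num at h3

lemma trans_refl_ne {p u : ℂ} (hu : ‖u‖ = 1) (φ : ℂ ≃ᵢ ℂ) : φ.trans (refl p u hu) ≠ φ := by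
  intro h
  have h1 := congrArg (fun g : ℂ ≃ᵢ ℂ => g (φ.symm (pt p u 1 1 (Real.pi / 2)))) h
  simp only [IsometryEquiv.trans_apply, IsometryEquiv.apply_symm_apply] at h1
  have h3 := nc_refl hu 1 (p := p) (pt p u 1 1 (Real.pi / 2))
  rw [h1, nc_pt p hu (Or.inl rfl), Real.sin_pi_div_two] at h3
  norm_num at h3

/-- Sums over two possible isometries. -/
lemma sum_two {k g : (ℂ ≃ᵢ ℂ) → ℝ} {φ ψ : ℂ ≃ᵢ ℂ} (hne : ψ ≠ φ) (hk : ∀ χ, χ ∉ Φ → k χ = 0)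
    (hg : ∀ χ ∈ Φ, χ ≠ φ → χ ≠ ψ → g χ = 0) : ∑ χ ∈ Φ, k χ * g χ = k φ * g φ + k ψ * g ψ := by
  classical
  have h1 : ∑ χ ∈ Φ, k χ * g χ = ∑ χ ∈ Φ ∪ {φ, ψ}, k χ * g χ := by
    refine Finset.sum_subset Finset.subset_union_left fun χ _ h => ?_
    rw [hk χ h, zero_mul]
  rw [h1]
  have h2 : ∑ χ ∈ ({φ, ψ} : Finset (ℂ ≃ᵢ ℂ)), k χ * g χ = ∑ χ ∈ Φ ∪ {φ, ψ}, k χ * g χ := by
    refine Finset.sum_subset Finset.subset_union_right fun χ h h' => ?_
    rw [Finset.mem_insert, Finset.mem_singleton, not_or] at h'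
    by_cases h3 : χ ∈ Φ
    · rw [hg χ h3 h'.1 h'.2, mul_zero]
    · rw [hk χ h3, zero_mul]
  rw [← h2, Finset.sum_pair (Ne.symm hne)]

/-- Sign rule at a side of `Ω'`. -/
lemma rule2 (T : TrW Ω Ω' Φ c) (hc : Convex ℝ Ω) (hc' : Convex ℝ Ω') {φ : ℂ ≃ᵢ ℂ}
    {z : ℂ} (hz : φ z ∈ Ω) {u : ℂ} (hu : ‖u‖ = 1) (hfl : FlatAt Ω' z u 1) :
    kc Ω Ω' Φ c ((refl z u hu).trans φ) = - kc Ω Ω' Φ c φ := by
  classical
  set ψ := (refl z u hu).trans φ with hψ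
  have hcs : Continuous fun s : ℝ => z + (s : ℂ) * u := by fun_prop
  have ht : Tendsto (fun s : ℝ => z + (s : ℂ) * u) (𝓝[>] 0) (𝓝 z) := by
    have := hcs.tendsto 0
    simp only [Complex.ofReal_zero, zero_mul, add_zero] at this
    exact this.mono_left nhdsWithin_le_nhds
  have e1 : ∀ᶠ s : ℝ in 𝓝[>] (0 : ℝ), ∀ χ ∈ Φ, χ ≠ φ → χ ≠ ψ →
      χ (z + (s : ℂ) * u) ≠ φ (z + (s : ℂ) * u) := by
    rw [Filter.eventually_all_finset]
    intro χ _
    by_cases h1 : χ = φ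
    · exact Eventually.of_forall fun s h => absurd h1 h
    by_cases h2 : χ = ψ
    · exact Eventually.of_forall fun s _ h => absurd h2 h
    filter_upwards [eventually_ne_line hu h1 h2] with s hs _ _
    exact hs
  have e2 : ∀ᶠ s : ℝ in 𝓝[>] (0 : ℝ), φ (z + (s : ℂ) * u) ∈ Ω :=
    ht.eventually ((T.oΩ.preimage φ.continuous).mem_nhds hz)
  have e3 : ∀ᶠ s : ℝ in 𝓝[>] (0 : ℝ), FlatAt Ω' (z + (s : ℂ) * u) u 1 :=
    (FlatAt.shift hu hfl).filter_mono nhdsWithin_le_nhds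
  obtain ⟨s, h1, h2, h3⟩ := (e1.and (e2.and e3)).exists
  set x := z + (s : ℂ) * u with hx
  have hψx : ψ x = φ x := by
    rw [hψ, IsometryEquiv.trans_apply, refl_fix hu]
    rw [hx, ← nc_shift hu z s, nc_self]
  obtain ⟨δ, hδ, hδ'⟩ := exists_delta Φ x (φ x)
  obtain ⟨f, hf, hsupp, hone⟩ := bump_test T.oΩ h2 hδ (g := fun _ => (1 : ℝ)) contDiff_const
  have hF := FF_frontier T hc hc' hf (h3.frontier T.oΩ' hu (Or.inl rfl))
  unfold FF at hF
  rw [sum_two (φ := φ) (ψ := ψ) (g := fun χ => f (χ x)) (refl_trans_ne hu φ)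
    (fun χ hχ => by
      by_contra hcon
      exact hχ (kc_mem hcon).1)
    (fun χ hχ h4 h5 => by
      by_contra hcon
      have h6 := hsupp _ hcon
      have h7 := hδ' χ hχ (h1 χ hχ h4 h5)
      linarith)] at hF
  rw [hψx, hone.self_of_nhds, mul_one, mul_one] at hF
  linarith

/-- Test function with a straight kink. -/
lemma kink_flat {w u : ℂ} (hu : ‖u‖ = 1) (hfl : FlatAt Ω w u 1) {δ : ℝ} (hδ : 0 < δ) :
    ∃ f, DirSmooth Ω f ∧ (∀ z, f z ≠ 0 → dist z w < δ) ∧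
      ∀ᶠ z in 𝓝 w, f z = max (nc w u 1 z) 0 := by
  obtain ⟨r, hr, hball⟩ := Metric.eventually_nhds_iff.1 hfl
  set ρ := min δ r / 2 with hρ
  have hm : 0 < min δ r := lt_min hδ hr
  have hρ0 : 0 < ρ := by rw [hρ]; linarith
  have hρδ : ρ < δ := by have := min_le_left δ r; rw [hρ]; linarith
  have hρr : ρ < r := by have := min_le_right δ r; rw [hρ]; linarith
  let χ : ContDiffBump w := ⟨ρ / 2, ρ, by linarith, by linarith⟩
  have hχ0 : ∀ z, ρ ≤ dist z w → χ z = 0 := fun z hz => χ.zero_of_le_dist hz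
  refine ⟨fun z => χ z * max (nc w u 1 z) 0, ⟨?_, ?_, fun z => χ z * nc w u 1 z, ?_, ?_⟩, ?_, ?_⟩
  · exact χ.continuous.mul ((continuous_nc w u 1).max continuous_const)
  · intro z hz
    show χ z * max (nc w u 1 z) 0 = 0
    by_cases hd : dist z w < r
    · have h1 : ¬ 0 < nc w u 1 z := fun h => hz ((hball hd).2 h)
      rw [max_eq_right (not_lt.1 h1), mul_zero]
    · rw [hχ0 z (by linarith [not_lt.1 hd]), zero_mul]
  · exact χ.contDiff.mul (contDiff_nc w u 1)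
  · intro z hz
    show χ z * max (nc w u 1 z) 0 = χ z * nc w u 1 z
    by_cases hd : dist z w < r
    · have h1 : 0 < nc w u 1 z := (hball hd).1 hz
      rw [max_eq_left h1.le]
    · rw [hχ0 z (by linarith [not_lt.1 hd]), zero_mul, zero_mul]
  · intro z hz
    by_contra hcon
    push Not at hcon
    apply hz
    show χ z * max (nc w u 1 z) 0 = 0
    rw [hχ0 z (by linarith), zero_mul]
  · have h1 : Metric.closedBall w (ρ / 2) ∈ 𝓝 w := Metric.closedBall_mem_nhds w (by linarith)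
    filter_upwards [h1] with z hz
    show χ z * max (nc w u 1 z) 0 = _
    rw [χ.one_of_mem_closedBall hz, one_mul]

/-- Sign rule at a side of `Ω`. -/
lemma rule1 (T : TrW Ω Ω' Φ c) (hc : Convex ℝ Ω) (hc' : Convex ℝ Ω') {φ : ℂ ≃ᵢ ℂ}
    {z : ℂ} (hz : z ∈ Ω') {u : ℂ} (hu : ‖u‖ = 1) (hfl : FlatAt Ω (φ z) u 1) :
    kc Ω Ω' Φ c (φ.trans (refl (φ z) u hu)) = - kc Ω Ω' Φ c φ := by
  classical
  set w₀ := φ z with hw₀
  set ψ := φ.trans (refl w₀ u hu) with hψ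
  have hcs : Continuous fun s : ℝ => w₀ + (s : ℂ) * u := by fun_prop
  have ht : Tendsto (fun s : ℝ => w₀ + (s : ℂ) * u) (𝓝[>] 0) (𝓝 w₀) := by
    have := hcs.tendsto 0
    simp only [Complex.ofReal_zero, zero_mul, add_zero] at this
    exact this.mono_left nhdsWithin_le_nhds
  have e1 : ∀ᶠ s : ℝ in 𝓝[>] (0 : ℝ), ∀ χ ∈ Φ, χ ≠ φ → χ ≠ ψ →
      χ (φ.symm (w₀ + (s : ℂ) * u)) ≠ w₀ + (s : ℂ) * u := by
    rw [Filter.eventually_all_finset]
    intro χ _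
    by_cases h1 : χ = φ
    · exact Eventually.of_forall fun s h => absurd h1 h
    by_cases h2 : χ = ψ
    · exact Eventually.of_forall fun s _ h => absurd h2 h
    have h3 : φ.symm.trans χ ≠ IsometryEquiv.refl ℂ := by
      intro h
      apply h1
      ext q
      have h5 := congrArg (fun g : ℂ ≃ᵢ ℂ => g (φ q)) h
      simp only [IsometryEquiv.trans_apply, IsometryEquiv.symm_apply_apply] at h5
      exact h5
    have h4 : φ.symm.trans χ ≠ (refl w₀ u hu).trans (IsometryEquiv.refl ℂ) := by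
      intro h
      apply h2
      ext q
      have h5 := congrArg (fun g : ℂ ≃ᵢ ℂ => g (φ q)) h
      simp only [IsometryEquiv.trans_apply, IsometryEquiv.symm_apply_apply] at h5
      exact h5
    filter_upwards [eventually_ne_line hu h3 h4] with s hs _ _
    exact hs
  have e2 : ∀ᶠ s : ℝ in 𝓝[>] (0 : ℝ), φ.symm (w₀ + (s : ℂ) * u) ∈ Ω' :=
    ht.eventually ((T.oΩ'.preimage φ.symm.continuous).mem_nhds (by
      show φ.symm w₀ ∈ Ω'
      rw [hw₀, φ.symm_apply_apply]; exact hz))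
  have e3 : ∀ᶠ s : ℝ in 𝓝[>] (0 : ℝ), FlatAt Ω (w₀ + (s : ℂ) * u) u 1 :=
    (FlatAt.shift hu hfl).filter_mono nhdsWithin_le_nhds
  obtain ⟨s, h1, h2, h3⟩ := (e1.and (e2.and e3)).exists
  set w := w₀ + (s : ℂ) * u with hw
  set x := φ.symm w with hx
  have hφx : φ x = w := φ.apply_symm_apply w
  have hncw : ∀ y, nc w u 1 y = nc w₀ u 1 y := fun y => nc_shift hu w₀ s 1 y
  have hψx : ψ x = w := by
    rw [hψ, IsometryEquiv.trans_apply, hφx, refl_fix hu]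
    rw [← hncw, nc_self]
  obtain ⟨δ, hδ, hδ'⟩ := exists_delta Φ x w
  obtain ⟨f, hf, hsupp, hfw⟩ := kink_flat hu h3 hδ
  obtain ⟨h, hhc, -, hhF, hlap⟩ := FF_maps T hc hc' hf
  -- the form of `h` near `x`
  have hnear : ∀ᶠ y in 𝓝 x, h y = qq (kc Ω Ω' Φ c φ) (-kc Ω Ω' Φ c ψ) (nc w u 1 (φ y)) := by
    have m1 : ∀ᶠ y in 𝓝 x, y ∈ Ω' := T.oΩ'.mem_nhds h2
    have m2 : ∀ᶠ y in 𝓝 x, ∀ χ ∈ Φ, χ ≠ φ → χ ≠ ψ → f (χ y) = 0 := by
      rw [Filter.eventually_all_finset]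
      intro χ hχ
      by_cases h4 : χ = φ
      · exact Eventually.of_forall fun y h => absurd h4 h
      by_cases h5 : χ = ψ
      · exact Eventually.of_forall fun y _ h => absurd h5 h
      have h6 := hδ' χ hχ (h1 χ hχ h4 h5)
      have h7 : Continuous fun y => dist (χ y) w := χ.continuous.dist continuous_const
      filter_upwards [h7.continuousAt.eventually (lt_mem_nhds h6)] with y hy _ _
      by_contra hcon
      have := hsupp _ hcon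
      linarith
    have m3 : ∀ᶠ y in 𝓝 x, f (φ y) = max (nc w u 1 (φ y)) 0 := by
      have := φ.continuous.tendsto x
      rw [hφx] at this
      exact this.eventually hfw
    have m4 : ∀ᶠ y in 𝓝 x, f (ψ y) = max (nc w u 1 (ψ y)) 0 := by
      have := ψ.continuous.tendsto x
      rw [hψx] at this
      exact this.eventually hfw
    filter_upwards [m1, m2, m3, m4] with y hy1 hy2 hy3 hy4
    rw [hhF y hy1]
    unfold FF
    rw [sum_two (φ := φ) (ψ := ψ) (g := fun χ => f (χ y)) (trans_refl_ne hu φ)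
      (fun χ hχ => by
        by_contra hcon
        exact hχ (kc_mem hcon).1) hy2]
    rw [hy3, hy4]
    have h5 : nc w u 1 (ψ y) = - nc w u 1 (φ y) := by
      rw [hψ, IsometryEquiv.trans_apply, hncw, hncw, nc_refl hu]
    rw [h5]
    unfold qq
    have h6 : min (nc w u 1 (φ y)) 0 = - max (-nc w u 1 (φ y)) 0 := by
      rcases le_total (nc w u 1 (φ y)) 0 with h7 | h7
      · rw [min_eq_left h7, max_eq_left (by linarith)]; ring
      · rw [min_eq_right h7, max_eq_right (by linarith)]; ring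
    rw [h6]; ring
  -- a frame at `x`
  obtain ⟨u₁, e₁, hu₁, he₁, htr⟩ := transport φ.symm hu (e := 1) (Or.inl rfl)
  have hframe : ∀ y, nc w u 1 (φ y) = nc x u₁ e₁ y := by
    intro y
    by_cases hy : y = x
    · rw [hy, hφx, nc_self, nc_self]
    · have hφy : φ y ≠ w := fun h => hy (by rw [hx, ← h, φ.symm_apply_apply])
      obtain ⟨θ, -, -, hθ⟩ := polar hφy hu (e := 1) (Or.inl rfl)
      have h4 : y = pt x u₁ e₁ (dist (φ y) w) θ := by
        have := htr w (dist (φ y) w) θ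
        rw [← hθ, φ.symm_apply_apply] at this
        exact this
      rw [hθ, nc_pt w hu (Or.inl rfl)]
      conv_rhs => rw [h4]
      rw [nc_pt x hu₁ he₁]
  set u₂ : ℂ := (e₁ : ℂ) * u₁ with hu₂
  have he₁C : (e₁ : ℂ) = 1 ∨ (e₁ : ℂ) = -1 := by
    rcases he₁ with rfl | rfl
    · left; norm_num
    · right; norm_num
  have hu₂n : ‖u₂‖ = 1 := by
    rw [hu₂, norm_mul, hu₁, mul_one]
    rcases he₁C with h | h <;> rw [h] <;> simp
  have hncu : ∀ v, nc x u₁ e₁ (x + v) = (v / u₂).im := by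
    intro v
    unfold nc
    rw [add_sub_cancel_left, hu₂]
    rcases he₁ with h | h
    · rw [h]; simp
    · rw [h]
      have : v / (((-1 : ℝ) : ℂ) * u₁) = -(v / u₁) := by
        push_cast
        rw [neg_mul, one_mul, div_neg]
      rw [this, Complex.neg_im]; ring
  have key := kink_aux hhc hu₂n (z := x) (α := kc Ω Ω' Φ c φ) (β := -kc Ω Ω' Φ c ψ) (by
    intro η hη
    obtain ⟨r, hr, hball⟩ := Metric.eventually_nhds_iff.1 hnear
    refine ⟨r, hr, fun v hv => ?_⟩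
    rw [hball (y := x + v) (by rw [dist_eq_norm, add_sub_cancel_left]; exact hv), hframe, hncu,
      sub_self, abs_zero]
    positivity) (hlap x h2)
  linarith

/-- Intertwining operators give placements. -/
theorem pl_of_trW (T : TrW Ω Ω' Φ c) (h : CP Ω) (h' : CP Ω') : Pl Ω Ω' Φ (kc Ω Ω' Φ c) where
  cp := h
  cp' := h'
  mem := fun φ hφ => (kc_mem hφ).1
  vis := fun φ hφ => (kc_mem hφ).2
  r1 := fun φ _ z hz u hu hfl => rule1 T h.convex h'.convex hz hu hfl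
  r2 := fun φ _ z hz u hu hfl => rule2 T h.convex h'.convex hz hu hfl

end

end Pool.Agent.Helper2Poly
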