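import Pool.Agent.Helper2_Poly.Area

/-!
# Reflections and frames
-/

open Complex ComplexConjugate Set Filter Topology MeasureTheory
open Pool.Agent.Helper2Drum Pool.Agent.Helper2Transp

namespace Pool.Agent.Helper2Poly

/-- Reflection in the line through `p` with direction `u`, as a map. -/
noncomputable def rmap (p u : ℂ) (z : ℂ) : ℂ := p + u * conj ((z - p) / u)

lemma rmap_rmap {p u : ℂ} (hu : ‖u‖ = 1) (z : ℂ) : rmap p u (rmap p u z) = z := by
  have hu0 := ne_zero_of_norm hu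
  unfold rmap
  rw [add_sub_cancel_left, mul_div_cancel_left₀ _ hu0, Complex.conj_conj]
  field_simp
  ring

lemma rmap_isometry {p u : ℂ} (hu : ‖u‖ = 1) : Isometry (rmap p u) := by
  refine Isometry.of_dist_eq fun a b => ?_
  unfold rmap
  rw [dist_eq_norm, dist_eq_norm]
  have : p + u * conj ((a - p) / u) - (p + u * conj ((b - p) / u)) = u * conj ((a - b) / u) := by
    rw [add_sub_add_left_eq_sub, ← mul_sub, ← map_sub, ← sub_div]
    congr 3; ring
  rw [this, norm_mul, hu, one_mul, RCLike.norm_conj, norm_div, hu, div_one]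

/-- Reflection in the line through `p` with direction `u`. -/
noncomputable def refl (p u : ℂ) (hu : ‖u‖ = 1) : ℂ ≃ᵢ ℂ :=
  IsometryEquiv.mk' (rmap p u) (rmap p u) (rmap_rmap hu) (rmap_isometry hu)

lemma refl_apply {p u : ℂ} (hu : ‖u‖ = 1) (z : ℂ) : refl p u hu z = rmap p u z := rfl

lemma refl_symm {p u : ℂ} (hu : ‖u‖ = 1) : (refl p u hu).symm = refl p u hu := rfl

lemma refl_refl {p u : ℂ} (hu : ‖u‖ = 1) (z : ℂ) : refl p u hu (refl p u hu z) = z :=
  rmap_rmap hu z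

lemma nc_refl {p u : ℂ} (hu : ‖u‖ = 1) (e : ℝ) (z : ℂ) :
    nc p u e (refl p u hu z) = - nc p u e z := by
  have hu0 := ne_zero_of_norm hu
  rw [refl_apply]
  unfold nc rmap
  rw [add_sub_cancel_left, mul_div_cancel_left₀ _ hu0, Complex.conj_im]
  ring

lemma refl_fix {p u : ℂ} (hu : ‖u‖ = 1) {z : ℂ} (hz : nc p u 1 z = 0) : refl p u hu z = z := by
  have hu0 := ne_zero_of_norm hu
  obtain ⟨s, rfl⟩ := (nc_eq_zero_iff hu (Or.inl rfl)).1 hz
  rw [refl_apply]
  unfold rmap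
  rw [add_sub_cancel_left, mul_div_assoc, div_self hu0, mul_one, Complex.conj_ofReal]
  ring

lemma refl_self {p u : ℂ} (hu : ‖u‖ = 1) : refl p u hu p = p := refl_fix hu (nc_self _ _ _)

lemma refl_pt {p u : ℂ} (hu : ‖u‖ = 1) {e : ℝ} (he : e = 1 ∨ e = -1) {x : ℂ}
    (hx : nc p u 1 x = 0) (s θ : ℝ) : refl p u hu (pt x u e s θ) = pt x u e s (-θ) := by
  have hu0 := ne_zero_of_norm hu
  obtain ⟨t, rfl⟩ := (nc_eq_zero_iff hu (Or.inl rfl)).1 hx
  rw [refl_apply]
  unfold rmap pt dr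
  have h1 : (p + (t : ℂ) * u + (s : ℂ) * (u * cexp ((e * θ : ℝ) * I)) - p) / u =
      t + s * cexp ((e * θ : ℝ) * I) := by
    field_simp; ring
  rw [h1, map_add, map_mul, Complex.conj_ofReal, Complex.conj_ofReal, ← Complex.exp_conj, map_mul,
    Complex.conj_ofReal, Complex.conj_I]
  have h2 : ((e * θ : ℝ) : ℂ) * -I = ((e * -θ : ℝ) : ℂ) * I := by push_cast; ring
  rw [h2]
  ring

/-- Reflection lines of nearby points of the same line agree. -/
lemma refl_congr {p u : ℂ} (hu : ‖u‖ = 1) {q : ℂ} (hq : nc p u 1 q = 0) :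
    refl q u hu = refl p u hu := by
  have hu0 := ne_zero_of_norm hu
  obtain ⟨t, rfl⟩ := (nc_eq_zero_iff hu (Or.inl rfl)).1 hq
  ext z
  rw [refl_apply, refl_apply]
  unfold rmap
  have h1 : (z - (p + (t : ℂ) * u)) / u = (z - p) / u - t := by field_simp; ring
  rw [h1, map_sub, Complex.conj_ofReal]
  ring

/-- Two isometries agree on small positive parameters of a line only in the trivial cases. -/
lemma eventually_ne_line {a b : ℂ ≃ᵢ ℂ} {z u : ℂ} (hu : ‖u‖ = 1) (hab : b ≠ a)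
    (hab' : b ≠ (refl z u hu).trans a) :
    ∀ᶠ s : ℝ in 𝓝[>] (0 : ℝ), b (z + (s : ℂ) * u) ≠ a (z + (s : ℂ) * u) := by
  by_contra hcon
  have hfr : ∃ᶠ s : ℝ in 𝓝[>] (0 : ℝ), b (z + (s : ℂ) * u) = a (z + (s : ℂ) * u) := hcon
  have h0 : ∀ᶠ s : ℝ in 𝓝[>] (0 : ℝ), 0 < s := self_mem_nhdsWithin
  obtain ⟨s₂, hs₂, hs₂0⟩ := (hfr.and_eventually h0).exists
  have h1 : ∀ᶠ s : ℝ in 𝓝[>] (0 : ℝ), s ∈ Ioo 0 s₂ := Ioo_mem_nhdsGT hs₂0
  obtain ⟨s₁, hs₁, hs₁0⟩ := (hfr.and_eventually h1).exists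
  set x := z + (s₁ : ℂ) * u with hx
  have h2 : pt x u 1 (s₂ - s₁) 0 = z + (s₂ : ℂ) * u := by
    unfold pt
    rw [dr_zero, hx]; push_cast; ring
  have h3 := refl_of_agree (f := a) (g := b) (Ne.symm hab) hu (e := 1) (Or.inl rfl) (x := x)
    hs₁.symm (s := s₂ - s₁) (by linarith [hs₁0.2]) (Or.inl (by rw [h2]; exact hs₂.symm))
  apply hab'
  refine eq_of_pt (x := x) hu (Or.inl rfl) fun s θ => ?_
  rw [h3, IsometryEquiv.trans_apply, refl_pt hu (Or.inl rfl)]
  rw [hx, ← nc_shift hu z s₁, nc_self]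

lemma FlatAt.frontier {Ω : Set ℂ} (hΩ : IsOpen Ω) {p u : ℂ} (hu : ‖u‖ = 1) {e : ℝ}
    (he : e = 1 ∨ e = -1) (h : FlatAt Ω p u e) : p ∈ frontier Ω := by
  rw [hΩ.frontier_eq]
  refine ⟨?_, ?_⟩
  · rw [mem_closure_iff_frequently]
    have h1 : Tendsto (fun s : ℝ => pt p u e s (Real.pi / 2)) (𝓝[>] 0) (𝓝 p) := by
      have h2 := (continuous_pt_s p u e (Real.pi / 2)).tendsto 0
      have h3 : pt p u e 0 (Real.pi / 2) = p := by unfold pt; simp
      rw [h3] at h2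
      exact h2.mono_left nhdsWithin_le_nhds
    have h2 : ∀ᶠ s : ℝ in 𝓝[>] (0 : ℝ), 0 < s := self_mem_nhdsWithin
    refine h1.frequently (Eventually.frequently ?_)
    filter_upwards [h1.eventually h, h2] with s hs hs0
    rw [hs, nc_pt p hu he, Real.sin_pi_div_two, mul_one]
    exact hs0
  · intro hp
    have := h.self_of_nhds.1 hp
    rw [nc_self] at this
    exact lt_irrefl _ this

lemma FlatAt.shift {Ω : Set ℂ} {p u : ℂ} (hu : ‖u‖ = 1) {e : ℝ} (h : FlatAt Ω p u e) :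
    ∀ᶠ s : ℝ in 𝓝 (0 : ℝ), FlatAt Ω (p + (s : ℂ) * u) u e := by
  have hc : Continuous fun s : ℝ => p + (s : ℂ) * u := by fun_prop
  have h1 := hc.tendsto 0
  simp only [Complex.ofReal_zero, zero_mul, add_zero] at h1
  filter_upwards [h1.eventually h.eventually_nhds] with s hs
  unfold FlatAt
  filter_upwards [hs] with x hx
  rw [hx, nc_shift hu]

/-- Frame isometries. -/
lemma exists_frame_iso (q : ℂ) {d : ℂ} (hd : ‖d‖ = 1) {e : ℝ} (he : e = 1 ∨ e = -1) :
    ∃ g : ℂ ≃ᵢ ℂ, g 0 = q ∧ ∀ s θ : ℝ, g ((s : ℂ) * cexp (θ * I)) = pt q d e s θ := by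
  have hd0 := ne_zero_of_norm hd
  have hiso : Isometry fun z : ℂ => q + d * z := by
    refine Isometry.of_dist_eq fun a b => ?_
    rw [dist_eq_norm, dist_eq_norm]
    have : q + d * a - (q + d * b) = d * (a - b) := by ring
    rw [this, norm_mul, hd, one_mul]
  set g₁ : ℂ ≃ᵢ ℂ := IsometryEquiv.mk' (fun z => q + d * z) (fun w => (w - q) / d)
    (fun x => by field_simp; ring) hiso with hg₁
  have hg₁a : ∀ z, g₁ z = q + d * z := fun z => rfl
  rcases he with rfl | rfl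
  · refine ⟨g₁, by rw [hg₁a]; simp, fun s θ => ?_⟩
    rw [hg₁a]
    unfold pt dr
    rw [one_mul]; ring
  · refine ⟨(refl 0 1 norm_one).trans g₁, ?_, fun s θ => ?_⟩
    · rw [IsometryEquiv.trans_apply, refl_self, hg₁a]; simp
    · rw [IsometryEquiv.trans_apply, hg₁a, refl_apply]
      unfold rmap pt dr
      simp only [zero_add, one_mul, sub_zero, div_one, map_mul, Complex.conj_ofReal,
        ← Complex.exp_conj, Complex.conj_I]
      push_cast
      have : (θ : ℂ) * -I = -1 * (θ : ℂ) * I := by ring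
      rw [this]; ring

lemma convex_preimage_iso {Ω : Set ℂ} (h : Convex ℝ Ω) (φ : ℂ ≃ᵢ ℂ) : Convex ℝ (φ ⁻¹' Ω) := by
  have h1 : (φ : ℂ → ℂ) = φ.toRealAffineIsometryEquiv.toAffineEquiv.toAffineMap := by
    funext z; simp
  rw [h1]
  exact h.affine_preimage _

end Pool.Agent.Helper2Poly
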