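import Pool.Agent.Helper2_Poly.Refl

/-!
# Sectors at boundary points
-/

open Complex ComplexConjugate Set Filter Topology MeasureTheory
open Pool.Agent.Helper2Drum Pool.Agent.Helper2Transp

namespace Pool.Agent.Helper2Poly

lemma sin_window {w θ : ℝ} (h0 : 0 < w) (h1 : w < Real.pi) (h2 : -Real.pi < θ)
    (h3 : θ ≤ Real.pi) : 0 < Real.sin (w + θ) ↔ -w < θ ∧ θ < -w + Real.pi := by
  constructor
  · intro h
    constructor
    · by_contra hcon
      push Not at hcon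
      have : Real.sin (w + θ) ≤ 0 :=
        Real.sin_nonpos_of_nonpos_of_neg_pi_le (by linarith) (by linarith)
      linarith
    · by_contra hcon
      push Not at hcon
      have : Real.sin (w + θ - Real.pi) ≥ 0 :=
        Real.sin_nonneg_of_nonneg_of_le_pi (by linarith) (by linarith)
      rw [Real.sin_sub_pi] at this
      linarith
  · rintro ⟨h4, h5⟩
    exact Real.sin_pos_of_pos_of_lt_pi (by linarith) (by linarith)

/-- Window of directions of a half-plane seen from an interior direction. -/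
lemma window {q u d : ℂ} (hu : ‖u‖ = 1) (hd : ‖d‖ = 1) {e : ℝ} (he : e = 1 ∨ e = -1) {s₀ : ℝ}
    (hs₀ : 0 < s₀) (h : 0 < nc q u 1 (pt q d e s₀ 0)) :
    ∃ a : ℝ, -Real.pi < a ∧ a < 0 ∧ ∀ s θ, 0 < s → -Real.pi < θ → θ ≤ Real.pi →
      (0 < nc q u 1 (pt q d e s θ) ↔ a < θ ∧ θ < a + Real.pi) := by
  obtain ⟨w, hw1, hw2, hdw⟩ := exists_angle hu hd (e := 1) (Or.inl rfl)
  have key : ∀ s θ, nc q u 1 (pt q d e s θ) = s * Real.sin (w + e * θ) := by
    intro s θ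
    rcases he with rfl | rfl
    · rw [hdw, pt_rot, nc_pt q hu (Or.inl rfl), one_mul]
    · have : (-1 : ℝ) = -(1 : ℝ) := rfl
      rw [hdw, pt_refl, nc_pt q hu (Or.inl rfl)]
      congr 2; ring
  rw [key, mul_zero, add_zero] at h
  have hsin : 0 < Real.sin w := (mul_pos_iff_of_pos_left hs₀).1 h
  have hw0 : 0 < w := by
    by_contra hcon
    push Not at hcon
    have := Real.sin_nonpos_of_nonpos_of_neg_pi_le hcon hw1.le
    linarith
  have hwπ : w < Real.pi := by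
    refine lt_of_le_of_ne hw2 ?_
    rintro rfl
    rw [Real.sin_pi] at hsin
    exact lt_irrefl _ hsin
  rcases he with rfl | rfl
  · refine ⟨-w, by linarith, by linarith, fun s θ hs h1 h2 => ?_⟩
    rw [key, one_mul, mul_pos_iff_of_pos_left hs, sin_window hw0 hwπ h1 h2]
  · refine ⟨w - Real.pi, by linarith, by linarith, fun s θ hs h1 h2 => ?_⟩
    rw [key, mul_pos_iff_of_pos_left hs]
    have h3 : Real.sin (w + -1 * θ) = Real.sin (Real.pi - w + θ) := by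
      rw [← Real.sin_pi_sub]; congr 1; ring
    rw [h3, sin_window (by linarith) (by linarith) h1 h2]
    constructor
    · rintro ⟨h4, h5⟩; exact ⟨by linarith, by linarith⟩
    · rintro ⟨h4, h5⟩; exact ⟨by linarith, by linarith⟩

/-- Near `q` the set consists of the points with angle between `a` and `b` in the frame `(d, e)`,
and `d` is an inner direction. -/
structure Sec (Ω : Set ℂ) (q d : ℂ) (e a b r : ℝ) : Prop where
  nd : ‖d‖ = 1
  he : e = 1 ∨ e = -1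
  a0 : a < 0
  b0 : 0 < b
  ba : b ≤ a + Real.pi
  r0 : 0 < r
  iff : ∀ s θ, 0 < s → s < r → -Real.pi < θ → θ ≤ Real.pi → (pt q d e s θ ∈ Ω ↔ a < θ ∧ θ < b)

lemma Sec.mono {Ω : Set ℂ} {q d : ℂ} {e a b r : ℝ} (h : Sec Ω q d e a b r) {r' : ℝ}
    (h0 : 0 < r') (h1 : r' ≤ r) : Sec Ω q d e a b r' :=
  ⟨h.nd, h.he, h.a0, h.b0, h.ba, h0, fun s θ hs hsr => h.iff s θ hs (lt_of_lt_of_le hsr h1)⟩

lemma CP.exists_sec {Ω : Set ℂ} (h : CP Ω) {q : ℂ} (hq : q ∈ frontier Ω) {d : ℂ} (hd : ‖d‖ = 1)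
    {e : ℝ} (he : e = 1 ∨ e = -1) {s₀ : ℝ} (hs₀ : 0 < s₀) (hin : pt q d e s₀ 0 ∈ Ω) :
    ∃ a b r, Sec Ω q d e a b r := by
  classical
  obtain ⟨U, hUne, hU1, hUΩ, hloc⟩ := h.local hq
  have hwin : ∀ u ∈ U, ∃ a : ℝ, -Real.pi < a ∧ a < 0 ∧ ∀ s θ, 0 < s → -Real.pi < θ →
      θ ≤ Real.pi → (0 < nc q u 1 (pt q d e s θ) ↔ a < θ ∧ θ < a + Real.pi) :=
    fun u hu => window (hU1 u hu) hd he hs₀ (hUΩ _ hin u hu)
  choose! A hA1 hA2 hA3 using hwin
  obtain ⟨r, hr, hball⟩ := Metric.eventually_nhds_iff.1 hloc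
  refine ⟨U.sup' hUne A, U.inf' hUne A + Real.pi, r, hd, he, ?_, ?_, ?_, hr, ?_⟩
  · rw [Finset.sup'_lt_iff]
    exact hA2
  · have : -Real.pi < U.inf' hUne A := by
      rw [Finset.lt_inf'_iff]
      exact hA1
    linarith
  · obtain ⟨u, hu⟩ := hUne
    have h1 : U.inf' ⟨u, hu⟩ A ≤ A u := Finset.inf'_le _ hu
    have h2 : A u ≤ U.sup' ⟨u, hu⟩ A := Finset.le_sup' _ hu
    linarith
  · intro s θ hs hsr h1 h2
    rw [hball (by rw [dist_pt hd q e hs.le]; exact hsr)]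
    constructor
    · intro h3
      constructor
      · rw [Finset.sup'_lt_iff]
        exact fun u hu => ((hA3 u hu s θ hs h1 h2).1 (h3 u hu)).1
      · obtain ⟨u, hu, hu'⟩ := Finset.exists_mem_eq_inf' hUne A
        rw [hu']
        exact ((hA3 u hu s θ hs h1 h2).1 (h3 u hu)).2
    · rintro ⟨h3, h4⟩ u hu
      rw [hA3 u hu s θ hs h1 h2]
      rw [Finset.sup'_lt_iff] at h3
      refine ⟨h3 u hu, ?_⟩
      have : U.inf' hUne A ≤ A u := Finset.inf'_le _ hu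
      linarith

/-- Area of small discs intersected with the set. -/
def Dens (Ω : Set ℂ) (q : ℂ) (α : ℝ) : Prop :=
  ∃ r, 0 < r ∧ ∀ ρ, 0 < ρ → ρ < r → volume (Ω ∩ Metric.ball q ρ) = ENNReal.ofReal (α * ρ ^ 2 / 2)

lemma Dens.unique {Ω : Set ℂ} {q : ℂ} {α β : ℝ} (h1 : Dens Ω q α) (h2 : Dens Ω q β)
    (hα : 0 ≤ α) (hβ : 0 ≤ β) : α = β := by
  obtain ⟨r₁, hr₁, h1⟩ := h1
  obtain ⟨r₂, hr₂, h2⟩ := h2
  have hm : 0 < min r₁ r₂ := lt_min hr₁ hr₂
  set ρ := min r₁ r₂ / 2 with hρ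
  have hρ0 : 0 < ρ := by rw [hρ]; linarith
  have e1 := h1 ρ hρ0 (by have := min_le_left r₁ r₂; rw [hρ]; linarith)
  have e2 := h2 ρ hρ0 (by have := min_le_right r₁ r₂; rw [hρ]; linarith)
  rw [e1] at e2
  have e3 := (ENNReal.ofReal_eq_ofReal_iff (by positivity) (by positivity)).1 e2
  have e4 : ρ ^ 2 ≠ 0 := by positivity
  have e5 : α * ρ ^ 2 = β * ρ ^ 2 := by linarith
  exact mul_right_cancel₀ e4 e5

lemma Sec.dens {Ω : Set ℂ} {q d : ℂ} {e a b r : ℝ} (h : Sec Ω q d e a b r) (hq : q ∉ Ω) :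
    Dens Ω q (b - a) := by
  refine ⟨r, h.r0, fun ρ hρ hρr => ?_⟩
  obtain ⟨g, hg0, hg⟩ := exists_frame_iso q h.nd h.he
  rw [← iso_vol g]
  have hset : g ⁻¹' (Ω ∩ Metric.ball q ρ) = secJ (Ioo a b) ρ := by
    ext z
    have hz : z = ((‖z‖ : ℝ) : ℂ) * cexp ((arg z : ℝ) * I) := (Complex.norm_mul_exp_arg_mul_I z).symm
    rw [mem_preimage]
    by_cases h0 : z = 0
    · rw [h0, hg0]
      constructor
      · exact fun h => absurd h.1 hq
      · exact fun h => absurd rfl h.1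
    · have hn : 0 < ‖z‖ := norm_pos_iff.2 h0
      have hgz : g z = pt q d e ‖z‖ (arg z) := by
        conv_lhs => rw [hz]
        exact hg _ _
      have hdist : dist (g z) q = ‖z‖ := by rw [hgz, dist_pt h.nd q e hn.le]
      constructor
      · rintro ⟨h1, h2⟩
        rw [Metric.mem_ball, hdist] at h2
        rw [hgz, h.iff _ _ hn (h2.trans hρr) (Complex.neg_pi_lt_arg z) (Complex.arg_le_pi z)] at h1
        exact ⟨h0, h2, h1⟩
      · rintro ⟨-, h2, h3⟩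
        refine ⟨?_, by rw [Metric.mem_ball, hdist]; exact h2⟩
        rw [hgz, h.iff _ _ hn (h2.trans hρr) (Complex.neg_pi_lt_arg z) (Complex.arg_le_pi z)]
        exact h3
  have hπ := Real.pi_pos
  rw [hset, vol_secJ ?_ measurableSet_Ioo hρ.le, Real.volume_Ioo, ← ENNReal.ofReal_mul (by positivity)]
  · congr 1; ring
  · intro θ hθ
    exact ⟨by linarith [hθ.1, h.ba, h.b0], by linarith [hθ.2, h.ba, h.a0]⟩

lemma dens_interior {Ω : Set ℂ} (hΩ : IsOpen Ω) {q : ℂ} (hq : q ∈ Ω) :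
    Dens Ω q (2 * Real.pi) := by
  obtain ⟨r, hr, hball⟩ := Metric.isOpen_iff.1 hΩ q hq
  refine ⟨r, hr, fun ρ hρ hρr => ?_⟩
  have : Ω ∩ Metric.ball q ρ = Metric.ball q ρ :=
    inter_eq_right.2 ((Metric.ball_subset_ball hρr.le).trans hball)
  rw [this, Complex.volume_ball, ← ENNReal.ofReal_pow hρ.le]
  have : (NNReal.pi : ENNReal) = ENNReal.ofReal Real.pi := by
    rw [← NNReal.coe_real_pi, ENNReal.ofReal_coe_nnreal]
  rw [this, ← ENNReal.ofReal_mul (by positivity)]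
  congr 1; ring

/-- An inner direction at a boundary point. -/
lemma CP.inner_dir {Ω : Set ℂ} (h : CP Ω) {q : ℂ} (hq : q ∉ Ω) {z : ℂ} (hz : z ∈ Ω) (e : ℝ) :
    ∃ d : ℂ, ‖d‖ = 1 ∧ 0 < dist z q ∧ pt q d e (dist z q) 0 = z := by
  have hzq : z ≠ q := fun h => hq (h ▸ hz)
  have hd : 0 < dist z q := dist_pos.2 hzq
  have hdC : (dist z q : ℂ) ≠ 0 := by exact_mod_cast hd.ne'
  refine ⟨(z - q) / (dist z q : ℂ), ?_, hd, ?_⟩
  · rw [norm_div, Complex.norm_real, Real.norm_of_nonneg hd.le, ← dist_eq_norm, div_self hd.ne']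
  · unfold pt
    rw [dr_zero]
    field_simp
    ring

lemma CP.dens_frontier {Ω : Set ℂ} (h : CP Ω) {q : ℂ} (hq : q ∈ frontier Ω) :
    ∃ α, 0 < α ∧ α ≤ Real.pi ∧ Dens Ω q α := by
  obtain ⟨z, hz⟩ := h.ne
  obtain ⟨d, hd, hpos, hpt⟩ := h.inner_dir (h.notMem_of_frontier hq) hz 1
  obtain ⟨a, b, r, hs⟩ := h.exists_sec hq hd (Or.inl rfl) hpos (by rw [hpt]; exact hz)
  exact ⟨b - a, by linarith [hs.a0, hs.b0], by linarith [hs.ba],
    hs.dens (h.notMem_of_frontier hq)⟩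

/-- The angle of `Ω` at `q` (`2 π` at interior points). -/
noncomputable def ang (Ω : Set ℂ) (q : ℂ) : ℝ := Classical.epsilon fun α => 0 ≤ α ∧ Dens Ω q α

lemma ang_eq {Ω : Set ℂ} {q : ℂ} {α : ℝ} (h0 : 0 ≤ α) (h : Dens Ω q α) : ang Ω q = α := by
  have h1 : 0 ≤ ang Ω q ∧ Dens Ω q (ang Ω q) :=
    Classical.epsilon_spec (p := fun α => 0 ≤ α ∧ Dens Ω q α) ⟨α, h0, h⟩
  exact h1.2.unique h h1.1 h0

lemma CP.ang_frontier {Ω : Set ℂ} (h : CP Ω) {q : ℂ} (hq : q ∈ frontier Ω) :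
    0 < ang Ω q ∧ ang Ω q ≤ Real.pi ∧ Dens Ω q (ang Ω q) := by
  obtain ⟨α, h1, h2, h3⟩ := h.dens_frontier hq
  rw [ang_eq h1.le h3]
  exact ⟨h1, h2, h3⟩

lemma CP.ang_interior {Ω : Set ℂ} (h : CP Ω) {q : ℂ} (hq : q ∈ Ω) : ang Ω q = 2 * Real.pi :=
  ang_eq (by positivity) (dens_interior h.isOpen hq)

lemma CP.ang_closure {Ω : Set ℂ} (h : CP Ω) {q : ℂ} (hq : q ∈ closure Ω) :
    0 < ang Ω q ∧ Dens Ω q (ang Ω q) := by
  by_cases h1 : q ∈ Ω
  · rw [h.ang_interior h1]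
    exact ⟨by positivity, dens_interior h.isOpen h1⟩
  · have h2 : q ∈ frontier Ω := by rw [h.isOpen.frontier_eq]; exact ⟨hq, h1⟩
    exact ⟨(h.ang_frontier h2).1, (h.ang_frontier h2).2.2⟩

lemma Sec.ang {Ω : Set ℂ} {q d : ℂ} {e a b r : ℝ} (h : Sec Ω q d e a b r) (hq : q ∉ Ω) :
    ang Ω q = b - a := ang_eq (by linarith [h.a0, h.b0]) (h.dens hq)

/-- A sector with opening `π` is flat. -/
lemma Sec.flat {Ω : Set ℂ} {q d : ℂ} {e a b r : ℝ} (h : Sec Ω q d e a b r) (hq : q ∉ Ω)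
    (hab : b = a + Real.pi) : FlatAt Ω q (dr d e a) e := by
  have hπ := Real.pi_pos
  filter_upwards [Metric.ball_mem_nhds q h.r0] with x hx
  by_cases hxq : x = q
  · rw [hxq, nc_self]
    exact ⟨fun h => absurd h hq, fun h => absurd h (lt_irrefl _)⟩
  · obtain ⟨θ, h1, h2, h3⟩ := polar hxq h.nd h.he
    have hd : 0 < dist x q := dist_pos.2 hxq
    have h4 : x = pt q (dr d e a) e (dist x q) (θ - a) := by
      rw [pt_rot]
      have : a + (θ - a) = θ := by ring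
      rw [this]; exact h3
    have h5 : x ∈ Ω ↔ a < θ ∧ θ < b := by
      conv_lhs => rw [h3]
      exact h.iff _ _ hd hx h1 h2
    rw [h5]
    have h6 : nc q (dr d e a) e x = dist x q * Real.sin (θ - a) := by
      conv_lhs => rw [h4]
      rw [nc_pt q (norm_dr h.nd e a) h.he]
    rw [h6, mul_pos_iff_of_pos_left hd]
    have h7 : θ - a = -a + θ := by ring
    rw [h7, sin_window (by linarith [h.a0]) (by linarith [h.b0]) h1 h2, hab]
    simp

lemma FlatAt.flip {Ω : Set ℂ} {q u : ℂ} {e : ℝ} (h : FlatAt Ω q u e) : FlatAt Ω q (-u) (-e) := by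
  unfold FlatAt at *
  filter_upwards [h] with x hx
  rw [hx, nc_flip]

lemma FlatAt.to_one {Ω : Set ℂ} {q u : ℂ} {e : ℝ} (he : e = 1 ∨ e = -1) (hu : ‖u‖ = 1)
    (h : FlatAt Ω q u e) : ∃ v, ‖v‖ = 1 ∧ FlatAt Ω q v 1 := by
  rcases he with rfl | rfl
  · exact ⟨u, hu, h⟩
  · refine ⟨-u, by rw [norm_neg]; exact hu, ?_⟩
    have := h.flip
    rwa [neg_neg] at this

lemma CP.corner_iff {Ω : Set ℂ} (h : CP Ω) {q : ℂ} (hq : q ∈ frontier Ω) :
    ang Ω q < Real.pi → Corner Ω q := by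
  intro hlt
  refine ⟨hq, ?_⟩
  rintro ⟨u, hu, hfl⟩
  have hqn := h.notMem_of_frontier hq
  obtain ⟨z, hz⟩ := h.ne
  obtain ⟨d, hd, hpos, hpt⟩ := h.inner_dir hqn hz 1
  obtain ⟨a, b, r, hs⟩ := h.exists_sec hq hd (Or.inl rfl) hpos (by rw [hpt]; exact hz)
  rw [hs.ang hqn] at hlt
  have hπ := Real.pi_pos
  -- a small inner point sees the half-plane window
  obtain ⟨r₂, hr₂, hball⟩ := Metric.eventually_nhds_iff.1 hfl
  set s := min r r₂ / 2 with hsdef
  have hm : 0 < min r r₂ := lt_min hs.r0 hr₂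
  have hs0 : 0 < s := by rw [hsdef]; linarith
  have hs1 : s < r := by have := min_le_left r r₂; rw [hsdef]; linarith
  have hs2 : s < r₂ := by have := min_le_right r r₂; rw [hsdef]; linarith
  have hin : pt q d 1 s 0 ∈ Ω := by
    rw [hs.iff s 0 hs0 hs1 (by linarith) (by linarith)]
    exact ⟨hs.a0, hs.b0⟩
  have hfl' : ∀ θ, (pt q d 1 s θ ∈ Ω ↔ 0 < nc q u 1 (pt q d 1 s θ)) := fun θ =>
    hball (by rw [dist_pt hd q 1 hs0.le]; exact hs2)
  obtain ⟨A, hA1, hA2, hA3⟩ := window hu hd (Or.inl rfl) hs0 ((hfl' 0).1 hin)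
  have hiff : ∀ θ, -Real.pi < θ → θ ≤ Real.pi → ((a < θ ∧ θ < b) ↔ (A < θ ∧ θ < A + Real.pi)) := by
    intro θ h1 h2
    rw [← hs.iff s θ hs0 hs1 h1 h2, hfl' θ, hA3 s θ hs0 h1 h2]
  -- the two windows agree
  have ha : a ≤ A := by
    by_contra hcon
    push Not at hcon
    have := (hiff ((a + A) / 2) (by linarith) (by linarith [hs.a0])).2
      ⟨by linarith, by linarith [hs.a0]⟩
    linarith [this.1]
  have hb : A + Real.pi ≤ b := by
    by_contra hcon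
    push Not at hcon
    have h1 : b < Real.pi := by linarith
    have := (hiff (max b ((A + Real.pi + b) / 2)) (by
        refine lt_of_lt_of_le ?_ (le_max_left _ _); linarith [hs.b0])
      (max_le h1.le (by linarith))).2
      ⟨lt_of_lt_of_le (by linarith [hs.b0]) (le_max_left _ _), max_lt hcon (by linarith)⟩
    linarith [this.2, le_max_left b ((A + Real.pi + b) / 2)]
  linarith

/-- Corners are the boundary points with angle less than `π`. -/
lemma CP.corner_ang {Ω : Set ℂ} (h : CP Ω) {q : ℂ} (hq : Corner Ω q) : ang Ω q < Real.pi := by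
  have hqn := h.notMem_of_frontier hq.1
  refine lt_of_le_of_ne (h.ang_frontier hq.1).2.1 fun heq => ?_
  apply hq.2
  obtain ⟨z, hz⟩ := h.ne
  obtain ⟨d, hd, hpos, hpt⟩ := h.inner_dir hqn hz 1
  obtain ⟨a, b, r, hs⟩ := h.exists_sec hq.1 hd (Or.inl rfl) hpos (by rw [hpt]; exact hz)
  rw [hs.ang hqn] at heq
  exact ⟨dr d 1 a, norm_dr hd 1 a, hs.flat hqn (by linarith)⟩

lemma CP.ang_flat {Ω : Set ℂ} (h : CP Ω) {q : ℂ} (hq : q ∈ frontier Ω) (hc : ¬ Corner Ω q) :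
    ang Ω q = Real.pi := by
  by_contra hne
  exact hc (h.corner_iff hq (lt_of_le_of_ne (h.ang_frontier hq).2.1 hne))

/-- The direction of a flat point is unique. -/
lemma flat_unique {Ω : Set ℂ} {q u v : ℂ} (hu : ‖u‖ = 1) (hv : ‖v‖ = 1) (h1 : FlatAt Ω q u 1)
    (h2 : ∀ᶠ x in 𝓝 q, x ∈ Ω → 0 < nc q v 1 x) : u = v := by
  obtain ⟨w, hw1, hw2, hvw⟩ := exists_angle hu hv (e := 1) (Or.inl rfl)
  by_cases hw : w = 0
  · rw [hvw, hw, dr_zero]
  exfalso
  have hπ := Real.pi_pos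
  obtain ⟨r, hr, hball⟩ := Metric.eventually_nhds_iff.1 (h1.and h2)
  have key : ∀ θ, 0 < Real.sin θ → 0 < Real.sin (θ - w) := by
    intro θ hθ
    obtain ⟨h3, h4⟩ := hball (y := pt q u 1 (r / 2) θ) (by
      rw [dist_pt hu q 1 (by linarith)]; linarith)
    have h5 : pt q u 1 (r / 2) θ ∈ Ω := by
      rw [h3, nc_pt q hu (Or.inl rfl)]; positivity
    have h6 := h4 h5
    have h7 : pt q u 1 (r / 2) θ = pt q v 1 (r / 2) (θ - w) := by
      rw [hvw, pt_rot]; congr 1; ring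
    rw [h7, nc_pt q hv (Or.inl rfl)] at h6
    exact (mul_pos_iff_of_pos_left (by linarith)).1 h6
  rcases lt_or_gt_of_ne hw with h | h
  · -- w < 0: θ = π + w / 2
    have h3 := key (Real.pi + w / 2) (Real.sin_pos_of_pos_of_lt_pi (by linarith) (by linarith))
    have h4 : Real.sin (Real.pi + w / 2 - w) ≤ 0 := by
      have : Real.sin (Real.pi + w / 2 - w) = - Real.sin (-w / 2) := by
        rw [show Real.pi + w / 2 - w = -w / 2 + Real.pi by ring, Real.sin_add_pi]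
      rw [this]
      have : 0 ≤ Real.sin (-w / 2) :=
        Real.sin_nonneg_of_nonneg_of_le_pi (by linarith) (by linarith)
      linarith
    linarith
  · have h3 := key (w / 2) (Real.sin_pos_of_pos_of_lt_pi (by linarith) (by linarith))
    have h4 : Real.sin (w / 2 - w) ≤ 0 :=
      Real.sin_nonpos_of_nonpos_of_neg_pi_le (by linarith) (by linarith)
    linarith

end Pool.Agent.Helper2Poly
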