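import Pool.Agent.Helper2_Poly.GB
import Pool.Agent.Helper2_Poly.Place

/-!
# Counting placements
-/

open Complex ComplexConjugate Set Filter Topology MeasureTheory
open Pool.Agent.Helper2Drum Pool.Agent.Helper2Transp

namespace Pool.Agent.Helper2Poly

/-- Weighted number of placements that cover a point. -/
noncomputable def NN (Ω : Set ℂ) (Φ : Finset (ℂ ≃ᵢ ℂ)) (ω : (ℂ ≃ᵢ ℂ) → ℝ) (x : ℂ) : ℝ :=
  ∑ ψ ∈ Φ, ω ψ * Ω.indicator (fun _ => (1 : ℝ)) (ψ x)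

lemma nn_ga {Ω : Set ℂ} (hΩ : IsOpen Ω) {Φ : Finset (ℂ ≃ᵢ ℂ)} {ω : (ℂ ≃ᵢ ℂ) → ℝ}
    (hm : ∀ ψ, ω ψ ≠ 0 → ψ ∈ Φ) {x : ℂ}
    (hflat : ∀ ψ, ω ψ ≠ 0 → ψ x ∈ frontier Ω → ∃ u, ‖u‖ = 1 ∧ FlatAt Ω (ψ x) u 1)
    (hinv : ∀ ψ, ω ψ ≠ 0 → ∀ u (hu : ‖u‖ = 1), FlatAt Ω (ψ x) u 1 →
      ω (ψ.trans (refl (ψ x) u hu)) = ω ψ) : x ∈ GA (NN Ω Φ ω) := by
  classical
  have hU : ∀ p : ℂ, ∃ u, ‖u‖ = 1 ∧ ((∃ v, ‖v‖ = 1 ∧ FlatAt Ω p v 1) → FlatAt Ω p u 1) := by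
    intro p
    by_cases h : ∃ v, ‖v‖ = 1 ∧ FlatAt Ω p v 1
    · obtain ⟨v, hv, hfl⟩ := h
      exact ⟨v, hv, fun _ => hfl⟩
    · exact ⟨1, norm_one, fun h' => absurd h' h⟩
  choose U hU1 hU2 using hU
  set M := Φ.filter (fun ψ => ω ψ ≠ 0 ∧ ψ x ∈ frontier Ω) with hM
  set τ : (ℂ ≃ᵢ ℂ) → (ℂ ≃ᵢ ℂ) := fun ψ => ψ.trans (refl (ψ x) (U (ψ x)) (hU1 _)) with hτ
  have hτz : ∀ ψ z, τ ψ z = rmap (ψ x) (U (ψ x)) (ψ z) := fun ψ z => rfl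
  have hτx : ∀ ψ, τ ψ x = ψ x := fun ψ => by
    rw [hτz]
    exact refl_self (hU1 _)
  have hττ : ∀ ψ, τ (τ ψ) = ψ := by
    intro ψ
    ext z
    rw [hτz, hτx, hτz, rmap_rmap (hU1 _)]
  have hMflat : ∀ ψ ∈ M, FlatAt Ω (ψ x) (U (ψ x)) 1 := by
    intro ψ hψ
    obtain ⟨-, h1, h2⟩ := Finset.mem_filter.1 hψ
    exact hU2 _ (hflat ψ h1 h2)
  have hMω : ∀ ψ ∈ M, ω (τ ψ) = ω ψ := by
    intro ψ hψ
    obtain ⟨-, h1, h2⟩ := Finset.mem_filter.1 hψ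
    exact hinv ψ h1 _ (hU1 _) (hMflat ψ hψ)
  have hMτ : ∀ ψ ∈ M, τ ψ ∈ M := by
    intro ψ hψ
    have h0 := hMω ψ hψ
    obtain ⟨-, h1, h2⟩ := Finset.mem_filter.1 hψ
    have h3 : ω (τ ψ) ≠ 0 := by rw [h0]; exact h1
    exact Finset.mem_filter.2 ⟨hm _ h3, h3, by rw [hτx]; exact h2⟩
  set ind : ℂ → ℝ := Ω.indicator (fun _ => (1 : ℝ)) with hind
  have hind1 : ∀ z ∈ Ω, ind z = 1 := fun z hz => indicator_of_mem hz _
  have hind0 : ∀ z, z ∉ Ω → ind z = 0 := fun z hz => indicator_of_notMem hz _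
  -- terms off `M` are locally constant
  have e1 : ∀ᶠ y in 𝓝 x, ∀ ψ ∈ Φ, ψ ∉ M → ω ψ * ind (ψ y) = ω ψ * ind (ψ x) := by
    rw [Filter.eventually_all_finset]
    intro ψ hψ
    by_cases h1 : ψ ∈ M
    · exact Eventually.of_forall fun y h => absurd h1 h
    by_cases h2 : ω ψ = 0
    · exact Eventually.of_forall fun y _ => by rw [h2, zero_mul, zero_mul]
    have h3 : ψ x ∉ frontier Ω := fun h => h1 (Finset.mem_filter.2 ⟨hψ, h2, h⟩)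
    by_cases h4 : ψ x ∈ Ω
    · filter_upwards [(hΩ.preimage ψ.continuous).mem_nhds h4] with y hy _
      rw [hind1 _ hy, hind1 _ h4]
    · have h5 : ψ x ∉ closure Ω := fun h => h3 (by rw [hΩ.frontier_eq]; exact ⟨h, h4⟩)
      have h6 : ∀ᶠ y in 𝓝 x, ψ y ∈ (closure Ω)ᶜ :=
        (ψ.continuous.tendsto x).eventually (isClosed_closure.isOpen_compl.mem_nhds h5)
      filter_upwards [h6] with y hy _
      rw [hind0 _ (fun h => hy (subset_closure h)), hind0 _ h4]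
  -- terms in `M` come in complementary pairs
  have e2 : ∀ᶠ y in LF x, ∀ ψ ∈ M, ind (ψ y) + ind (τ ψ y) = 1 := by
    rw [Filter.eventually_all_finset]
    intro ψ hψ
    have h1 := hMflat ψ hψ
    have h2 : ∀ᶠ y in 𝓝 x, (ψ y ∈ Ω ↔ 0 < nc (ψ x) (U (ψ x)) 1 (ψ y)) :=
      (ψ.continuous.tendsto x).eventually h1
    have h3 : ∀ᶠ y in 𝓝 x, (τ ψ y ∈ Ω ↔ 0 < nc (ψ x) (U (ψ x)) 1 (τ ψ y)) := by
      have := (τ ψ).continuous.tendsto x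
      rw [hτx] at this
      exact this.eventually h1
    have h4 : ∀ᵐ y : ℂ, nc (ψ x) (U (ψ x)) 1 (ψ y) ≠ 0 :=
      (iso_mp ψ).quasiMeasurePreserving.ae (nc_null _ _ (hU1 _))
    filter_upwards [lf_of_nhds h2, lf_of_nhds h3, lf_of_ae h4] with y hy1 hy2 hy3
    have h5 : nc (ψ x) (U (ψ x)) 1 (τ ψ y) = - nc (ψ x) (U (ψ x)) 1 (ψ y) := by
      rw [hτz]
      exact nc_refl (hU1 _) 1 (ψ y)
    rw [h5] at hy2
    rcases lt_or_gt_of_ne hy3 with h6 | h6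
    · rw [hind0 _ (fun h => absurd (hy1.1 h) (not_lt.2 h6.le)), hind1 _ (hy2.2 (by linarith)),
        zero_add]
    · rw [hind1 _ (hy1.2 h6), hind0 _ (fun h => absurd (hy2.1 h) (by linarith)), add_zero]
  refine ⟨∑ ψ ∈ Φ \ M, ω ψ * ind (ψ x) + (∑ ψ ∈ M, ω ψ) / 2, ?_⟩
  filter_upwards [lf_of_nhds e1, e2] with y hy1 hy2
  have hsub : M ⊆ Φ := Finset.filter_subset _ _
  unfold NN
  rw [← Finset.sum_sdiff hsub]
  congr 1
  · refine Finset.sum_congr rfl fun ψ hψ => ?_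
    obtain ⟨h1, h2⟩ := Finset.mem_sdiff.1 hψ
    exact hy1 ψ h1 h2
  · have h1 : ∑ ψ ∈ M, ω ψ * ind (ψ y) = ∑ ψ ∈ M, ω ψ * ind (τ ψ y) := by
      refine Finset.sum_nbij' τ τ hMτ hMτ (fun ψ _ => hττ ψ) (fun ψ _ => hττ ψ) fun ψ hψ => ?_
      rw [hMω ψ hψ, hττ]
    have h2 : ∑ ψ ∈ M, ω ψ * ind (ψ y) + ∑ ψ ∈ M, ω ψ * ind (τ ψ y) = ∑ ψ ∈ M, ω ψ := by
      rw [← Finset.sum_add_distrib]
      refine Finset.sum_congr rfl fun ψ hψ => ?_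
      rw [← mul_add, hy2 ψ hψ, mul_one]
    rw [← h1] at h2
    linarith

lemma ga_of_punct {k : ℂ → ℝ} {x : ℂ} {r : ℝ} (hr : 0 < r)
    (hpunct : ∀ y, y ≠ x → dist y x < r → y ∈ GA k) : x ∈ GA k := by
  have h1n : ‖(1 : ℂ)‖ = 1 := norm_one
  set D : Set ℂ := (fun q : ℝ × ℝ => pt x 1 1 q.1 q.2) '' (Ioo 0 r ×ˢ univ) with hD
  have hDpre : IsPreconnected D :=
    (isPreconnected_Ioo.prod isPreconnected_univ).image _ (continuous_pt x 1 1).continuousOn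
  have hDmem : ∀ y, y ∈ D ↔ y ≠ x ∧ dist y x < r := by
    intro y
    constructor
    · rintro ⟨⟨s, θ⟩, ⟨⟨hs0, hs1⟩, -⟩, rfl⟩
      exact ⟨pt_ne h1n x 1 hs0 θ, by rw [dist_pt h1n x 1 hs0.le]; exact hs1⟩
    · rintro ⟨h1, h2⟩
      obtain ⟨θ, -, -, hθ⟩ := polar h1 h1n (e := 1) (Or.inl rfl)
      exact ⟨(dist y x, θ), ⟨⟨dist_pos.2 h1, h2⟩, mem_univ _⟩, hθ.symm⟩
  have hD0 : pt x 1 1 (r / 2) 0 ∈ D :=
    (hDmem _).2 ⟨pt_ne h1n x 1 (by linarith) 0, by rw [dist_pt h1n x 1 (by linarith)]; linarith⟩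
  set γ := kw k (pt x 1 1 (r / 2) 0) with hγ
  have hDk : ∀ y ∈ D, kw k y = γ := fun y hy =>
    const_on hDpre (fun z hz => kw_loc (hpunct z ((hDmem z).1 hz).1 ((hDmem z).1 hz).2))
      hD0 hy
  refine ⟨γ, ?_⟩
  have hne : ∀ᵐ y : ℂ, y ≠ x := by
    rw [ae_iff]
    push Not
    exact measure_singleton x
  filter_upwards [lf_of_ae (ae_kw k), lf_of_ae hne,
    lf_of_nhds (Metric.ball_mem_nhds x hr)] with y hy1 hy2 hy3
  rw [hy1 (hpunct y hy2 hy3), hDk y ((hDmem y).2 ⟨hy2, hy3⟩)]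

lemma ga_const {k : ℂ → ℝ} {D : Set ℂ} (hDc : IsPreconnected D) (h : ∀ x ∈ D, x ∈ GA k) :
    ∃ m, ∀ᵐ x, x ∈ D → k x = m := by
  rcases D.eq_empty_or_nonempty with h0 | ⟨x₀, hx₀⟩
  · refine ⟨0, Eventually.of_forall fun x hx => ?_⟩
    rw [h0] at hx; exact absurd hx (notMem_empty x)
  · refine ⟨kw k x₀, ?_⟩
    filter_upwards [ae_kw k] with x hx hxD
    rw [hx (h x hxD)]
    exact const_on hDc (fun y hy => kw_loc (h y hy)) hx₀ hxD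

/-- Passing to the inverse isometries. -/
noncomputable def symEmb : (ℂ ≃ᵢ ℂ) ↪ (ℂ ≃ᵢ ℂ) := ⟨IsometryEquiv.symm, fun a b h => by
  have := congrArg IsometryEquiv.symm h
  simpa using this⟩

lemma symEmb_apply (ψ : ℂ ≃ᵢ ℂ) : symEmb ψ = ψ.symm := rfl

variable {Ω Ω' : Set ℂ} {Φ : Finset (ℂ ≃ᵢ ℂ)} {k : (ℂ ≃ᵢ ℂ) → ℝ}

lemma Pl.swap (P : Pl Ω Ω' Φ k) : Pl Ω' Ω (Φ.map symEmb) (fun ψ => k ψ.symm) where
  cp := P.cp'
  cp' := P.cp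
  mem := fun ψ hψ => Finset.mem_map.2 ⟨ψ.symm, P.mem _ hψ, by rw [symEmb_apply]; rfl⟩
  vis := fun ψ hψ => by
    obtain ⟨x, hx, hx'⟩ := P.vis _ hψ
    exact ⟨ψ.symm x, hx', by rw [ψ.apply_symm_apply]; exact hx⟩
  r1 := fun ψ hψ z hz u hu hfl => by
    have := P.r2 ψ.symm hψ (ψ z) (by rw [ψ.symm_apply_apply]; exact hz) u hu hfl
    have h2 : (ψ.trans (refl (ψ z) u hu)).symm = (refl (ψ z) u hu).trans ψ.symm := by
      ext y; rfl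
    rw [h2]; exact this
  r2 := fun ψ hψ z hz u hu hfl => by
    have := P.r1 ψ.symm hψ (ψ z) hz u hu (by rw [ψ.symm_apply_apply]; exact hfl)
    simp only [ψ.symm_apply_apply] at this
    have h2 : ((refl z u hu).trans ψ).symm = ψ.symm.trans (refl z u hu) := by
      ext y; rfl
    rw [h2]; exact this

/-- Total mass. -/
lemma mass {Ω : Set ℂ} (hΩ : IsOpen Ω) {Φ : Finset (ℂ ≃ᵢ ℂ)} {ω : (ℂ ≃ᵢ ℂ) → ℝ} {A : Set ℂ}
    (hA : MeasurableSet A) (hfin : volume A ≠ ⊤) {m : ℝ} (h : ∀ᵐ x, x ∈ A → NN Ω Φ ω x = m) :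
    m * volume.real A = ∑ ψ ∈ Φ, ω ψ * volume.real (A ∩ ψ ⁻¹' Ω) := by
  have h1 : ∫ x in A, NN Ω Φ ω x = m * volume.real A := by
    rw [setIntegral_congr_ae hA h, setIntegral_const, smul_eq_mul, mul_comm]
  rw [← h1]
  unfold NN
  have hmeas : ∀ ψ : ℂ ≃ᵢ ℂ, MeasurableSet (ψ ⁻¹' Ω) := fun ψ =>
    (hΩ.preimage ψ.continuous).measurableSet
  have hcomp : ∀ (ψ : ℂ ≃ᵢ ℂ) x, Ω.indicator (fun _ => (1 : ℝ)) (ψ x) =
      (ψ ⁻¹' Ω).indicator (fun _ => (1 : ℝ)) x := fun ψ x => rfl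
  have hint : ∀ ψ : ℂ ≃ᵢ ℂ, IntegrableOn (fun x => (ψ ⁻¹' Ω).indicator (fun _ => (1 : ℝ)) x) A :=
    fun ψ => ((integrableOn_const hfin)).indicator (hmeas ψ)
  rw [integral_finsetSum]
  · refine Finset.sum_congr rfl fun ψ _ => ?_
    rw [integral_const_mul]
    congr 1
    simp_rw [hcomp]
    rw [setIntegral_indicator (hmeas ψ), setIntegral_const, smul_eq_mul, mul_one]
  · intro ψ _
    simp_rw [hcomp]
    exact (hint ψ).const_mul _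

lemma dbl (hΩ : IsOpen Ω) (hΩ' : IsOpen Ω') {ω : (ℂ ≃ᵢ ℂ) → ℝ} {A B : Set ℂ}
    (hA : MeasurableSet A) (hB : MeasurableSet B) (hfA : volume (Ω' ∩ A) ≠ ⊤)
    (hfB : volume (Ω ∩ B) ≠ ⊤) {m m' : ℝ}
    (h' : ∀ᵐ x, x ∈ Ω' ∩ A → NN Ω Φ ω x = m')
    (h : ∀ᵐ x, x ∈ Ω ∩ B → NN Ω' (Φ.map symEmb) (fun ψ => ω ψ.symm) x = m)
    (hAB : ∀ ψ ∈ Φ, ω ψ ≠ 0 → ψ ⁻¹' B = A) :
    m' * volume.real (Ω' ∩ A) = m * volume.real (Ω ∩ B) := by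
  rw [mass hΩ (hΩ'.measurableSet.inter hA) hfA h', mass hΩ' (hΩ.measurableSet.inter hB) hfB h,
    Finset.sum_map]
  refine Finset.sum_congr rfl fun ψ hψ => ?_
  rw [symEmb_apply]
  have hss : ω ψ.symm.symm = ω ψ := by rw [IsometryEquiv.symm_symm]
  rw [hss]
  by_cases h0 : ω ψ = 0
  · rw [h0, zero_mul, zero_mul]
  congr 1
  have h1 : ψ ⁻¹' (Ω ∩ B ∩ ψ.symm ⁻¹' Ω') = Ω' ∩ A ∩ ψ ⁻¹' Ω := by
    rw [preimage_inter, preimage_inter, hAB ψ hψ h0]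
    have : ψ ⁻¹' (ψ.symm ⁻¹' Ω') = Ω' := by
      ext y
      rw [mem_preimage, mem_preimage, ψ.symm_apply_apply]
    rw [this]
    ext y
    simp only [mem_inter_iff]
    tauto
  rw [measureReal_def, measureReal_def, ← h1, iso_vol]

lemma vol_fin {Ω : Set ℂ} (h : CP Ω) (A : Set ℂ) : volume (Ω ∩ A) ≠ ⊤ :=
  ne_of_lt (lt_of_le_of_lt (measure_mono inter_subset_left) h.bdd.measure_lt_top)

/-- Global constancy. -/
lemma Pl.glob (P : Pl Ω Ω' Φ k) {ω : (ℂ ≃ᵢ ℂ) → ℝ} (hω : ∀ ψ, ω ψ ≠ 0 → k ψ ≠ 0)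
    (hinv : ∀ ψ χ, k χ = - k ψ → ω χ = ω ψ) :
    ∃ m', ∀ᵐ x, x ∈ Ω' → NN Ω Φ ω x = m' := by
  refine ga_const P.cp'.convex.isPreconnected ?_
  -- off a finite set
  set E : Set ℂ := ⋃ ψ ∈ Φ, ψ ⁻¹' {c | Corner Ω c} with hE
  have hEfin : E.Finite := by
    refine Set.Finite.biUnion Φ.finite_toSet fun ψ _ => ?_
    exact P.cp.finite_corners.preimage ψ.injective.injOn
  have hoff : ∀ x ∈ Ω', x ∉ E → x ∈ GA (NN Ω Φ ω) := by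
    intro x hx hxE
    refine nn_ga P.cp.isOpen (fun ψ hψ => P.mem ψ (hω ψ hψ)) (fun ψ hψ hf => ?_)
      (fun ψ hψ u hu hfl => hinv _ _ (P.r1 ψ (hω ψ hψ) x hx u hu hfl))
    by_contra hcon
    exact hxE (mem_iUnion₂.2 ⟨ψ, P.mem ψ (hω ψ hψ), hf, hcon⟩)
  intro x hx
  obtain ⟨r₁, hr₁, h1⟩ := Metric.isOpen_iff.1 P.cp'.isOpen x hx
  have h2 : (E \ {x})ᶜ ∈ 𝓝 x :=
    (hEfin.subset sdiff_subset).isClosed.isOpen_compl.mem_nhds (fun h => h.2 rfl)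
  obtain ⟨r₂, hr₂, h3⟩ := Metric.mem_nhds_iff.1 h2
  refine ga_of_punct (lt_min hr₁ hr₂) fun y hyx hy => ?_
  refine hoff y (h1 (lt_of_lt_of_le hy (min_le_left _ _))) fun hyE => ?_
  exact h3 (lt_of_lt_of_le hy (min_le_right _ _)) ⟨hyE, hyx⟩

/-- Boundary points near any point are flat with line through that point. -/
lemma CP.near {Ω : Set ℂ} (h : CP Ω) (q : ℂ) : ∀ᶠ y in 𝓝 q, y ≠ q → y ∈ frontier Ω →
      ∃ u, ‖u‖ = 1 ∧ nc y u 1 q = 0 ∧ FlatAt Ω y u 1 := by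
  by_cases hq : q ∈ frontier Ω
  · exact h.flat_near hq
  · filter_upwards [isClosed_frontier.isOpen_compl.mem_nhds hq] with y hy _ hyf
    exact absurd hyf hy

open Classical in
/-- Indicator of the placements with `q' ↦ q`. -/
noncomputable def w0 (k : (ℂ ≃ᵢ ℂ) → ℝ) (q' q : ℂ) (ψ : ℂ ≃ᵢ ℂ) : ℝ :=
  if k ψ ≠ 0 ∧ ψ q' = q then 1 else 0

lemma w0_ne {q' q : ℂ} {ψ : ℂ ≃ᵢ ℂ} : w0 k q' q ψ ≠ 0 ↔ k ψ ≠ 0 ∧ ψ q' = q := by
  unfold w0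
  by_cases h : k ψ ≠ 0 ∧ ψ q' = q
  · rw [if_pos h]; exact ⟨fun _ => h, fun _ => one_ne_zero⟩
  · rw [if_neg h]; exact ⟨fun h' => absurd rfl h', fun h' => absurd h' h⟩

lemma w0_pos {q' q : ℂ} {ψ : ℂ ≃ᵢ ℂ} (h1 : k ψ ≠ 0) (h2 : ψ q' = q) : w0 k q' q ψ = 1 := by
  unfold w0; rw [if_pos ⟨h1, h2⟩]

lemma w0_nonneg (q' q : ℂ) (ψ : ℂ ≃ᵢ ℂ) : 0 ≤ w0 k q' q ψ := by
  unfold w0; split_ifs <;> norm_num

lemma w0_symm (q' q : ℂ) : (fun ψ : ℂ ≃ᵢ ℂ => w0 k q' q ψ.symm) =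
    w0 (fun ψ => k ψ.symm) q q' := by
  funext ψ
  unfold w0
  have : ψ.symm q' = q ↔ ψ q = q' := by
    constructor
    · intro h; rw [← h, ψ.apply_symm_apply]
    · intro h; rw [← h, ψ.symm_apply_apply]
  simp only [this]

lemma Pl.loc0 (P : Pl Ω Ω' Φ k) (q' q : ℂ) :
    ∃ m' r, 0 < r ∧ ∀ᵐ x, x ∈ Ω' ∩ Metric.ball q' r → NN Ω Φ (w0 k q' q) x = m' := by
  obtain ⟨r, hr, hnear⟩ := Metric.eventually_nhds_iff.1 (P.cp.near q)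
  have hD : IsPreconnected (Ω' ∩ Metric.ball q' r) :=
    (P.cp'.convex.inter (convex_ball q' r)).isPreconnected
  have hoff : ∀ x ∈ Ω' ∩ Metric.ball q' r, x ≠ q' → x ∈ GA (NN Ω Φ (w0 k q' q)) := by
    rintro x ⟨hx, hxr⟩ hxq
    refine nn_ga P.cp.isOpen (fun ψ hψ => P.mem ψ (w0_ne.1 hψ).1) (fun ψ hψ hf => ?_)
      (fun ψ hψ u hu hfl => ?_)
    · obtain ⟨h1, h2⟩ := w0_ne.1 hψ
      have hd : dist (ψ x) q < r := by rw [← h2, ψ.dist_eq]; exact hxr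
      have hne : ψ x ≠ q := by rw [← h2]; exact fun h => hxq (ψ.injective h)
      obtain ⟨u, hu, -, hfl⟩ := hnear hd hne hf
      exact ⟨u, hu, hfl⟩
    · obtain ⟨h1, h2⟩ := w0_ne.1 hψ
      have hd : dist (ψ x) q < r := by rw [← h2, ψ.dist_eq]; exact hxr
      have hne : ψ x ≠ q := by rw [← h2]; exact fun h => hxq (ψ.injective h)
      obtain ⟨v, hv, hv0, hfl'⟩ := hnear hd hne (hfl.frontier P.cp.isOpen hu (Or.inl rfl))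
      have huv : u = v := flat_unique hu hv hfl (hfl'.mono fun y hy h => hy.1 h)
      have h3 : k (ψ.trans (refl (ψ x) u hu)) ≠ 0 := by
        rw [P.r1 ψ h1 x hx u hu hfl]; exact neg_ne_zero.2 h1
      have h4 : (ψ.trans (refl (ψ x) u hu)) q' = q := by
        rw [IsometryEquiv.trans_apply, h2, refl_fix hu]
        rw [huv]; exact hv0
      rw [w0_pos h3 h4, w0_pos h1 h2]
  obtain ⟨m', hm'⟩ := ga_const hD (k := NN Ω Φ (w0 k q' q)) (by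
    intro x hx
    by_cases hxq : x = q'
    · obtain ⟨r₁, hr₁, h1⟩ := Metric.isOpen_iff.1 (P.cp'.isOpen.inter Metric.isOpen_ball) x hx
      exact ga_of_punct hr₁ fun y hyx hy => hoff y (h1 hy) (by rw [← hxq]; exact hyx)
    · exact hoff x hx hxq)
  exact ⟨m', r, hr, hm'⟩

lemma nn_w0_nat (q' q x : ℂ) : ∃ n : ℕ, NN Ω Φ (w0 k q' q) x = n := by
  classical
  refine ⟨∑ ψ ∈ Φ, (if k ψ ≠ 0 ∧ ψ q' = q ∧ ψ x ∈ Ω then 1 else 0), ?_⟩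
  unfold NN
  push_cast
  refine Finset.sum_congr rfl fun ψ _ => ?_
  unfold w0
  by_cases h1 : k ψ ≠ 0 ∧ ψ q' = q
  · rw [if_pos h1, one_mul]
    by_cases h2 : ψ x ∈ Ω
    · rw [indicator_of_mem h2, if_pos ⟨h1.1, h1.2, h2⟩]
    · rw [indicator_of_notMem h2, if_neg (fun h => h2 h.2.2)]
  · rw [if_neg h1, zero_mul, if_neg (fun h => h1 ⟨h.1, h.2.1⟩)]

lemma seg_mem {D : Set ℂ} (ho : IsOpen D) (hc : Convex ℝ D) {q z : ℂ} (hq : q ∈ closure D)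
    (hz : z ∈ D) {t : ℝ} (h0 : 0 < t) (h1 : t ≤ 1) : q + (t : ℂ) * (z - q) ∈ D := by
  have h2 := hc.openSegment_closure_interior_subset_interior hq
    (by rw [ho.interior_eq]; exact hz : z ∈ interior D)
  rw [ho.interior_eq] at h2
  rcases h1.eq_or_lt with rfl | h1
  · simpa using hz
  · apply h2
    refine ⟨1 - t, t, by linarith, h0, by ring, ?_⟩
    simp only [Complex.real_smul]
    push_cast
    ring

lemma seg_tendsto (q z : ℂ) : Tendsto (fun t : ℝ => q + (t : ℂ) * (z - q)) (𝓝[>] 0) (𝓝 q) := by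
  have hc : Continuous fun t : ℝ => q + (t : ℂ) * (z - q) := by fun_prop
  have := hc.tendsto 0
  simp only [Complex.ofReal_zero, zero_mul, add_zero] at this
  exact this.mono_left nhdsWithin_le_nhds

/-- Visible placements are visible near all common closure points. -/
lemma Pl.vis_near (P : Pl Ω Ω' Φ k) {ψ : ℂ ≃ᵢ ℂ} (hψ : k ψ ≠ 0) {q' : ℂ} (hq' : q' ∈ closure Ω')
    (hq : ψ q' ∈ closure Ω) {r : ℝ} (hr : 0 < r) :
    (Ω' ∩ Metric.ball q' r ∩ ψ ⁻¹' Ω).Nonempty := by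
  obtain ⟨x, hx, hx'⟩ := P.vis ψ hψ
  have h1 : ∀ᶠ t : ℝ in 𝓝[>] (0 : ℝ), q' + (t : ℂ) * (x - q') ∈ Metric.ball q' r :=
    (seg_tendsto q' x).eventually (Metric.ball_mem_nhds q' hr)
  have h2 : ∀ᶠ t : ℝ in 𝓝[>] (0 : ℝ), t ∈ Ioo (0 : ℝ) 1 := Ioo_mem_nhdsGT one_pos
  obtain ⟨t, h3, h4⟩ := (h1.and h2).exists
  refine ⟨_, ⟨seg_mem P.cp'.isOpen P.cp'.convex hq' hx h4.1 h4.2.le, h3⟩, ?_⟩
  refine seg_mem (P.cp.isOpen.preimage ψ.continuous) (convex_preimage_iso P.cp.convex ψ) ?_ hx'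
    h4.1 h4.2.le
  rw [preimage_closure']
  exact hq

lemma Pl.open_vis (P : Pl Ω Ω' Φ k) (ψ : ℂ ≃ᵢ ℂ) (q' : ℂ) (r : ℝ) :
    IsOpen (Ω' ∩ Metric.ball q' r ∩ ψ ⁻¹' Ω) :=
  (P.cp'.isOpen.inter Metric.isOpen_ball).inter (P.cp.isOpen.preimage ψ.continuous)

/-- Commensurability of the angles at corresponding points. -/
theorem Pl.commens (P : Pl Ω Ω' Φ k) {ψ : ℂ ≃ᵢ ℂ} (hψ : k ψ ≠ 0) {q' : ℂ}
    (hq' : q' ∈ closure Ω') (hq : ψ q' ∈ closure Ω) :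
    ∃ n n' : ℕ, 0 < n ∧ 0 < n' ∧ (n' : ℝ) * ang Ω' q' = n * ang Ω (ψ q') := by
  set q := ψ q' with hqdef
  obtain ⟨m', r₁, hr₁, h1⟩ := P.loc0 q' q
  obtain ⟨m, r₂, hr₂, h2⟩ := P.swap.loc0 q q'
  obtain ⟨hA', r₃, hr₃, h3⟩ := P.cp'.ang_closure hq'
  obtain ⟨hA, r₄, hr₄, h4⟩ := P.cp.ang_closure hq
  have hmin : 0 < min (min r₁ r₂) (min r₃ r₄) := lt_min (lt_min hr₁ hr₂) (lt_min hr₃ hr₄)
  set ρ := min (min r₁ r₂) (min r₃ r₄) / 2 with hρ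
  have hρ0 : 0 < ρ := by rw [hρ]; linarith
  have hρ1 : ρ < r₁ := by
    have := (min_le_left (min r₁ r₂) (min r₃ r₄)).trans (min_le_left _ _); rw [hρ]; linarith
  have hρ2 : ρ < r₂ := by
    have := (min_le_left (min r₁ r₂) (min r₃ r₄)).trans (min_le_right _ _); rw [hρ]; linarith
  have hρ3 : ρ < r₃ := by
    have := (min_le_right (min r₁ r₂) (min r₃ r₄)).trans (min_le_left _ _); rw [hρ]; linarith
  have hρ4 : ρ < r₄ := by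
    have := (min_le_right (min r₁ r₂) (min r₃ r₄)).trans (min_le_right _ _); rw [hρ]; linarith
  have e1 : ∀ᵐ x, x ∈ Ω' ∩ Metric.ball q' ρ → NN Ω Φ (w0 k q' q) x = m' := by
    filter_upwards [h1] with x hx hxx
    exact hx ⟨hxx.1, Metric.ball_subset_ball hρ1.le hxx.2⟩
  have e2 : ∀ᵐ x, x ∈ Ω ∩ Metric.ball q ρ →
      NN Ω' (Φ.map symEmb) (fun ψ => w0 k q' q ψ.symm) x = m := by
    rw [w0_symm]
    filter_upwards [h2] with x hx hxx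
    exact hx ⟨hxx.1, Metric.ball_subset_ball hρ2.le hxx.2⟩
  have e3 := dbl P.cp.isOpen P.cp'.isOpen measurableSet_ball measurableSet_ball
    (vol_fin P.cp' _) (vol_fin P.cp _) e1 e2 (by
      intro χ _ hχ
      obtain ⟨-, h⟩ := w0_ne.1 hχ
      ext y
      rw [mem_preimage, Metric.mem_ball, Metric.mem_ball, ← h, χ.dist_eq])
  have v1 : volume.real (Ω' ∩ Metric.ball q' ρ) = ang Ω' q' * ρ ^ 2 / 2 := by
    rw [measureReal_def, h3 ρ hρ0 hρ3, ENNReal.toReal_ofReal (by positivity)]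
  have v2 : volume.real (Ω ∩ Metric.ball q ρ) = ang Ω q * ρ ^ 2 / 2 := by
    rw [measureReal_def, h4 ρ hρ0 hρ4, ENNReal.toReal_ofReal (by positivity)]
  rw [v1, v2] at e3
  have hne' : (Ω' ∩ Metric.ball q' ρ ∩ ψ ⁻¹' Ω).Nonempty := P.vis_near hψ hq' hq hρ0
  have hvol : 0 < volume.real (Ω' ∩ Metric.ball q' ρ ∩ ψ ⁻¹' Ω) := by
    refine ENNReal.toReal_pos ?_ ?_
    · exact ((P.open_vis ψ q' ρ).measure_pos volume hne').ne'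
    · exact ne_of_lt (lt_of_le_of_lt (measure_mono (inter_subset_left.trans inter_subset_left))
        P.cp'.bdd.measure_lt_top)
  -- positivity of `m'`
  have e4 := mass P.cp.isOpen (P.cp'.isOpen.measurableSet.inter measurableSet_ball)
    (vol_fin P.cp' _) e1
  have hm'pos : 0 < m' := by
    have h5 : 0 < ∑ χ ∈ Φ, w0 k q' q χ * volume.real (Ω' ∩ Metric.ball q' ρ ∩ χ ⁻¹' Ω) := by
      refine Finset.sum_pos' (fun χ _ => mul_nonneg (w0_nonneg _ _ _) measureReal_nonneg)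
        ⟨ψ, P.mem ψ hψ, ?_⟩
      rw [w0_pos hψ rfl, one_mul]; exact hvol
    rw [← e4, v1] at h5
    by_contra hcon
    push Not at hcon
    have : m' * (ang Ω' q' * ρ ^ 2 / 2) ≤ 0 := mul_nonpos_of_nonpos_of_nonneg hcon (by positivity)
    linarith
  have hmpos : 0 < m := by
    by_contra hcon
    push Not at hcon
    have h6 : m * (ang Ω q * ρ ^ 2 / 2) ≤ 0 := mul_nonpos_of_nonpos_of_nonneg hcon (by positivity)
    have h7 : 0 < m' * (ang Ω' q' * ρ ^ 2 / 2) := by positivity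
    linarith
  -- integrality
  have hsol : ∀ (D : Set ℂ), IsOpen D → D.Nonempty → ∀ P : ℂ → Prop, (∀ᵐ x, x ∈ D → P x) →
      ∃ x, P x := by
    intro D hD hDne Q hQ
    by_contra hcon
    push Not at hcon
    have h8 : ∀ᵐ x, x ∉ D := hQ.mono fun x hx hxD => hcon x (hx hxD)
    rw [ae_iff] at h8
    push Not at h8
    exact (hD.measure_pos volume hDne).ne' h8
  obtain ⟨x₁, hx₁⟩ := hsol _ (P.cp'.isOpen.inter (Metric.isOpen_ball (x := q') (ε := ρ)))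
    (hne'.mono inter_subset_left) _ e1
  have hne2 : (Ω ∩ Metric.ball q ρ).Nonempty := by
    obtain ⟨y, ⟨-, hy2⟩, hy3⟩ := hne'
    exact ⟨ψ y, hy3, by rw [Metric.mem_ball, hqdef, ψ.dist_eq]; exact hy2⟩
  obtain ⟨x₂, hx₂⟩ := hsol _ (P.cp.isOpen.inter (Metric.isOpen_ball (x := q) (ε := ρ))) hne2 _ e2
  rw [w0_symm] at hx₂
  obtain ⟨n', hn'⟩ := nn_w0_nat (Ω := Ω) (Φ := Φ) (k := k) q' q x₁
  obtain ⟨n, hn⟩ := nn_w0_nat (Ω := Ω') (Φ := Φ.map symEmb) (k := fun ψ => k ψ.symm) q q' x₂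
  rw [hx₁] at hn'
  rw [hx₂] at hn
  refine ⟨n, n', ?_, ?_, ?_⟩
  · rw [hn] at hmpos; exact_mod_cast hmpos
  · rw [hn'] at hm'pos; exact_mod_cast hm'pos
  · rw [← hn', ← hn]
    have h9 : ρ ^ 2 / 2 ≠ 0 := by positivity
    have h10 : m' * ang Ω' q' * (ρ ^ 2 / 2) = m * ang Ω q * (ρ ^ 2 / 2) := by linarith
    exact mul_right_cancel₀ h9 h10

end Pool.Agent.Helper2Poly
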